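import Pool.Agent.Work.MP_542d22_co.Defs

/-!
MODULE Clean (medium, 2 lemmas).

exists_clean. Given a disjoint pair X, Y ∈ A with r ≤ |X| there is a disjoint pair X1, X2 ∈ A, r ≤ |X1|, such that
 (max) every Z ∈ A with X1 ⊆ Z, Disjoint Z X2 is X1 and (min) every Z ∈ A with Z ⊆ X2 is X2.
Proof: among all pairs (X1, X2) ∈ A × A, disjoint, r ≤ |X1| (finitely many: subsets of S) choose one maximizing
|X1| + (|S| - |X2|) (e.g. Finset.exists_max_image on a filter of S.powerset ×ˢ S.powerset). If X1 ⊂ Z, (Z, X2) is better; if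
Z ⊂ X2, then (X1, Z) is better.

clean_cross. X1, X2 as above. For Z ∈ A with (Z ∩ X1).Nonempty and ¬ X1 ⊆ Z there is Z' ∈ A, Z' ∩ X1 = Z ∩ X1 and
(Z' ⊆ X1 or X2 ⊆ Z').
Proof. If Z ⊆ X1: Z' = Z. If Z ∪ X1 = S: X2 ⊆ S, X2 disjoint from X1, so X2 ⊆ Z: Z' = Z. Otherwise h.wc for Z, X1 gives
 Z ∩ X1 ∈ A: Z' = Z ∩ X1; or Z ∪ X1 ∈ A: if X2 ⊆ Z then Z' = Z. Otherwise: Z ∪ X1 is not disjoint from X2 (else by (max)
 Z ∪ X1 = X1, i.e. Z ⊆ X1), so Z meets X2. Z ∪ X2 ≠ S because a point of X1 not in Z is not in X2. h.wc for Z, X2: Z ∩ X2 ∈ A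
 would be X2 by (min), so X2 ⊆ Z, excluded; hence Z ∪ X2 ∈ A and Z' = Z ∪ X2 ((Z ∪ X2) ∩ X1 = Z ∩ X1).
-/

set_option autoImplicit false

namespace Pool.Agent.Work.MP_542d22_co

open Classical Finset

variable {V : Type}

theorem exists_clean {r : ℕ} {S : Finset V} {A : Set (Finset V)} {L : Finset V} (h : Core r S A L)
    {X Y : Finset V} (hX : X ∈ A) (hY : Y ∈ A) (hd : Disjoint X Y) (hr : r ≤ X.card) :
    ∃ X1 ∈ A, ∃ X2 ∈ A, Disjoint X1 X2 ∧ r ≤ X1.card ∧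
      (∀ Z ∈ A, X1 ⊆ Z → Disjoint Z X2 → Z = X1) ∧ (∀ Z ∈ A, Z ⊆ X2 → Z = X2) := by
  have hne : ((S.powerset ×ˢ S.powerset).filter fun q : Finset V × Finset V =>
      q.1 ∈ A ∧ q.2 ∈ A ∧ Disjoint q.1 q.2 ∧ r ≤ q.1.card).Nonempty := by
    refine ⟨(X, Y), ?_⟩
    rw [mem_filter, mem_product, mem_powerset, mem_powerset]
    exact ⟨⟨h.sub X hX, h.sub Y hY⟩, hX, hY, hd, hr⟩
  obtain ⟨⟨X1, X2⟩, hmem, hmax⟩ := exists_max_image _
    (fun q : Finset V × Finset V => q.1.card + (S.card - q.2.card)) hne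
  rw [mem_filter, mem_product, mem_powerset, mem_powerset] at hmem
  obtain ⟨⟨s1, s2⟩, m1, m2, m3, m4⟩ := hmem
  simp only at s1 s2 m1 m2 m3 m4
  refine ⟨X1, m1, X2, m2, m3, m4, ?_, ?_⟩
  · intro Z hZ hXZ hdZ
    have h1 := hmax (Z, X2) (by
      rw [mem_filter, mem_product, mem_powerset, mem_powerset]
      exact ⟨⟨h.sub Z hZ, s2⟩, hZ, m2, hdZ, m4.trans (card_le_card hXZ)⟩)
    simp only at h1
    exact (eq_of_subset_of_card_le hXZ (by omega)).symm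
  · intro Z hZ hZX
    have h1 := hmax (X1, Z) (by
      rw [mem_filter, mem_product, mem_powerset, mem_powerset]
      exact ⟨⟨s1, h.sub Z hZ⟩, m1, hZ, m3.mono_right hZX, m4⟩)
    simp only at h1
    have h2 := card_le_card s2
    have h3 := card_le_card (h.sub Z hZ)
    exact eq_of_subset_of_card_le hZX (by omega)

theorem clean_cross {r : ℕ} {S : Finset V} {A : Set (Finset V)} {L : Finset V} (h : Core r S A L)
    {X1 X2 : Finset V} (h1 : X1 ∈ A) (h2 : X2 ∈ A) (hd : Disjoint X1 X2)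
    (hmax : ∀ Z ∈ A, X1 ⊆ Z → Disjoint Z X2 → Z = X1) (hmin : ∀ Z ∈ A, Z ⊆ X2 → Z = X2)
    {Z : Finset V} (hZ : Z ∈ A) (hne : (Z ∩ X1).Nonempty) (hns : ¬ X1 ⊆ Z) :
    ∃ Z' ∈ A, Z' ∩ X1 = Z ∩ X1 ∧ (Z' ⊆ X1 ∨ X2 ⊆ Z') := by
  by_cases hZX : Z ⊆ X1
  · exact ⟨Z, hZ, rfl, Or.inl hZX⟩
  by_cases hu : Z ∪ X1 = S
  · refine ⟨Z, hZ, rfl, Or.inr ?_⟩
    intro v hv
    have hvS : v ∈ Z ∪ X1 := by
      rw [hu]
      exact h.sub X2 h2 hv
    rcases mem_union.1 hvS with h3 | h3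
    · exact h3
    · exact absurd hv (disjoint_left.1 hd h3)
  rcases h.wc Z hZ X1 h1 hne hu with h3 | h3
  · exact ⟨Z ∩ X1, h3, by rw [inter_assoc, inter_self], Or.inl inter_subset_right⟩
  by_cases h4 : X2 ⊆ Z
  · exact ⟨Z, hZ, rfl, Or.inr h4⟩
  have h5 : (Z ∩ X2).Nonempty := by
    by_contra h5
    rw [not_nonempty_iff_eq_empty] at h5
    have h6 : Disjoint (Z ∪ X1) X2 := by
      rw [disjoint_union_left]
      exact ⟨disjoint_iff_inter_eq_empty.2 h5, hd⟩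
    have h7 := hmax _ h3 subset_union_right h6
    exact hZX (h7 ▸ subset_union_left)
  obtain ⟨w, hw1, hw2⟩ := not_subset.1 hns
  have h6 : Z ∪ X2 ≠ S := by
    intro h7
    have h8 : w ∈ Z ∪ X2 := by
      rw [h7]
      exact h.sub X1 h1 hw1
    rcases mem_union.1 h8 with h9 | h9
    · exact hw2 h9
    · exact disjoint_left.1 hd hw1 h9
  rcases h.wc Z hZ X2 h2 h5 h6 with h7 | h7
  · have h8 := hmin _ h7 inter_subset_right
    exact absurd (h8 ▸ inter_subset_left : X2 ⊆ Z) h4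
  · refine ⟨Z ∪ X2, h7, ?_, Or.inr subset_union_right⟩
    rw [union_inter_distrib_right, inter_comm X2 X1, disjoint_iff_inter_eq_empty.1 hd, union_empty]

end Pool.Agent.Work.MP_542d22_co
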