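import Pool.Agent.Work.MP_542d22_co.Defs

/-!
MODULE Lift (small). Prove `lift_indep` and `lift_small`.

lift_indep. `D ⊆ P`, `x ∉ D`; an old certificate `(Q', R')` on `insert x D`, a new family `Q` on `P`, a point
`w ∈ P`, `w ∉ D` (which represents the cell of `x`).
 (a) for `u, p ∈ D`: Dom Q u p → Dom Q' u p;   (b) for `u ∈ D`, `p ∈ P`, `p ∉ D`: Dom Q u p → Dom Q' u x;
 (c) for `p ∈ D`: Dom Q w p → Dom Q' x p.
Then `R := R'` with `x` replaced by `w` is Indep on `P`.
Proof: `u ≠ v` in R, `p ∈ P`, Dom Q u p, Dom Q v p.  If p ∈ D: (a)/(c) give Dom Q' u° p, Dom Q' v° p with u° = u, or x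
if u = w: contradiction with Indep for R' at p. If p ∉ D: by (b) (for u ∈ D) resp. Dom.refl (for u = w, u° = x)
Dom Q' u° x and Dom Q' v° x: contradiction with Indep of R' at x.  Injectivity: w ∉ D and R' ⊆ insert x D, so |R| = |R'|.

lift_small. If u ∈ D, ¬ Dom Q' u x, (a), (b) and the converse of (a) (`hd`), then Small (insert x D) Q' r u → Small P Q r u:
cl P Q u = cl (insert x D) Q' u (a p ∈ P with Dom Q u p is in D by (b)).
-/

set_option autoImplicit false

namespace Pool.Agent.Work.MP_542d22_co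

open Classical Finset

variable {V : Type}

theorem lift_indep {P D : Finset V} {x w : V} {Q Q' : Finset (Finset V)} {R' : Finset V}
    (hDP : D ⊆ P) (hx : x ∉ D) (hw : w ∈ P) (hwD : w ∉ D)
    (ha : ∀ u ∈ D, ∀ p ∈ D, Dom Q u p → Dom Q' u p)
    (hb : ∀ u ∈ D, ∀ p ∈ P, p ∉ D → Dom Q u p → Dom Q' u x)
    (hc : ∀ p ∈ D, Dom Q w p → Dom Q' x p)
    (hR : Indep (insert x D) Q' R') :
    ∃ R : Finset V, Indep P Q R ∧ R.card = R'.card ∧ ∀ u ∈ R', u ≠ x → u ∈ R := by
  have hD : ∀ u ∈ R', u ≠ x → u ∈ D := fun u hu hux => by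
    rcases mem_insert.1 (hR.1 hu) with h | h
    · exact absurd h hux
    · exact h
  have key : ∀ u ∈ R', ∀ p ∈ P, Dom Q (if u = x then w else u) p →
      (p ∈ D → Dom Q' u p) ∧ (p ∉ D → Dom Q' u x) := by
    intro u hu p hp hdom
    by_cases hux : u = x
    · subst hux
      rw [if_pos rfl] at hdom
      exact ⟨fun h => hc p h hdom, fun _ => Dom.refl _ _⟩
    · rw [if_neg hux] at hdom
      exact ⟨fun h => ha u (hD u hu hux) p h hdom, fun h => hb u (hD u hu hux) p hp h hdom⟩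
  refine ⟨R'.image (fun u => if u = x then w else u), ⟨?_, ?_⟩, ?_, ?_⟩
  · intro z hz
    obtain ⟨u, hu, rfl⟩ := mem_image.1 hz
    by_cases hux : u = x
    · simp only [if_pos hux]
      exact hw
    · simp only [if_neg hux]
      exact hDP (hD u hu hux)
  · intro u hu v hv huv p hp h1 h2
    obtain ⟨u', hu', rfl⟩ := mem_image.1 hu
    obtain ⟨v', hv', rfl⟩ := mem_image.1 hv
    have hne : u' ≠ v' := fun h => huv (by rw [h])
    have k1 := key u' hu' p hp h1
    have k2 := key v' hv' p hp h2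
    by_cases hpD : p ∈ D
    · exact hR.2 u' hu' v' hv' hne p (mem_insert_of_mem hpD) (k1.1 hpD) (k2.1 hpD)
    · exact hR.2 u' hu' v' hv' hne x (mem_insert_self _ _) (k1.2 hpD) (k2.2 hpD)
  · apply card_image_of_injOn
    intro u hu v hv huv
    simp only at huv
    by_cases hux : u = x
    · by_cases hvx : v = x
      · rw [hux, hvx]
      · rw [if_pos hux, if_neg hvx] at huv
        exact absurd (huv ▸ hD v hv hvx) hwD
    · by_cases hvx : v = x
      · rw [if_neg hux, if_pos hvx] at huv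
        exact absurd (huv ▸ hD u hu hux) hwD
      · rwa [if_neg hux, if_neg hvx] at huv
  · intro u hu hux
    exact mem_image.2 ⟨u, hu, if_neg hux⟩

theorem lift_small {P D : Finset V} {x : V} {Q Q' : Finset (Finset V)} {r : ℕ} {u : V}
    (hDP : D ⊆ P) (hx : x ∉ D) (hu : u ∈ D)
    (ha : ∀ u ∈ D, ∀ p ∈ D, Dom Q u p → Dom Q' u p)
    (hb : ∀ u ∈ D, ∀ p ∈ P, p ∉ D → Dom Q u p → Dom Q' u x)
    (hd : ∀ u ∈ D, ∀ p ∈ D, Dom Q' u p → Dom Q u p)
    (hux : ¬ Dom Q' u x) (hs : Small (insert x D) Q' r u) : Small P Q r u := by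
  have hD : ∀ v ∈ P, Dom Q u v → v ∈ D := by
    intro v hv hdom
    by_contra hvD
    exact hux (hb u hu v hv hvD hdom)
  have hcl : cl P Q u = cl (insert x D) Q' u := by
    ext v
    rw [mem_cl, mem_cl]
    constructor
    · rintro ⟨h1, h2⟩
      exact ⟨mem_insert_of_mem (hD v h1 h2), ha u hu v (hD v h1 h2) h2⟩
    · rintro ⟨h1, h2⟩
      rcases mem_insert.1 h1 with h | h
      · exact absurd (h ▸ h2) hux
      · exact ⟨hDP h, hd u hu v h h2⟩
  refine ⟨by rw [hcl]; exact hs.1, by rw [hcl]; exact hs.2.1, fun v hv hdom => ?_⟩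
  have hvD := hD v hv hdom
  exact hd v hvD u hu (hs.2.2 v (mem_insert_of_mem hvD) (ha u hu v hvD hdom))

end Pool.Agent.Work.MP_542d22_co
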