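import Pool.Agent.Work.MP_542d22_co.Defs

/-!
MODULE PairA (small, 2 lemmas).

pair_small. X, Y ∈ A disjoint, 2 ≤ |X| < r: take Qa = {X, Y}, T = ∅, R = {x, y} with x ∈ X, y ∈ Y (both nonempty by h.ne).
(Qa ∪ tok ∅ = {X, Y}.) Dom Q x p ↔ p ∈ X (x ∉ Y by disjointness; for p ∈ X, p ∉ Y). So Indep, and cl S Q x = X, all its
points are twins. Nonface: y ∈ S is not in both. |Qa| + 0 = 2 = |R| (X ≠ Y because they are disjoint and nonempty).

core_5a. All disjoint pairs of members consist of singletons (hall), and there is a disjoint pair X, Y. Then X = {a}, Y = {b}, a ≠ b.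
Let As = {a ∈ S : {a} ∈ A}. (1) every Z ∈ A with |Z| ≠ 1 contains As: for a ∈ As, a ∉ Z, Z and {a} are disjoint, so hall gives
|Z| = 1. (2) every u ∈ S, u ∉ L is in As: choose s ∈ As, s ≠ u (As contains a and b, a ≠ b); h.sep gives Z ∈ A, u ∈ Z, s ∉ Z;
by (1) |Z| = 1 so Z = {u}. Take Qa = As.image (fun a => {a}) = tok As, T = L \ As, R = S. Nonface by {a}, {b}.
Qa ∪ tok T contains {u} for every u ∈ S, so Dom Q u p implies p = u (eq_of_dom_tok): Indep. |Qa| + |T| = |As| + |L \ As| ≤ |S|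
(disjoint subsets of S), r ≤ |S| by h.card.
-/

set_option autoImplicit false

namespace Pool.Agent.Work.MP_542d22_co

open Classical Finset

variable {V : Type}

theorem pair_small {r : ℕ} {S : Finset V} {A : Set (Finset V)} {L : Finset V} (h : Core r S A L)
    {X Y : Finset V} (hX : X ∈ A) (hY : Y ∈ A) (hd : Disjoint X Y) (h2 : 2 ≤ X.card)
    (hr : X.card < r) : CoreOut r S A L := by
  obtain ⟨x, hx⟩ := h.ne X hX
  obtain ⟨y, hy⟩ := h.ne Y hY
  have hXY : ∀ p, p ∈ X → p ∉ Y := fun p h1 h2 => (Finset.disjoint_left.1 hd) h1 h2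
  have hQ : ∀ Z, Z ∈ (({X, Y} : Finset (Finset V)) ∪ tok (∅ : Finset V)) ↔ Z = X ∨ Z = Y := by
    intro Z
    simp [tok]
  have hdx : ∀ u ∈ X, ∀ p, Dom (({X, Y} : Finset (Finset V)) ∪ tok (∅ : Finset V)) u p ↔ p ∈ X := by
    intro u hu p
    constructor
    · intro hdom
      exact hdom X ((hQ X).2 (Or.inl rfl)) hu
    · intro hp Z hZ huZ
      rcases (hQ Z).1 hZ with rfl | rfl
      · exact hp
      · exact absurd huZ (hXY u hu)
  have hdy : ∀ u ∈ Y, ∀ p, Dom (({X, Y} : Finset (Finset V)) ∪ tok (∅ : Finset V)) u p ↔ p ∈ Y := by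
    intro u hu p
    constructor
    · intro hdom
      exact hdom Y ((hQ Y).2 (Or.inr rfl)) hu
    · intro hp Z hZ huZ
      rcases (hQ Z).1 hZ with rfl | rfl
      · exact absurd hu (hXY u huZ)
      · exact hp
  have hxy : x ≠ y := fun h => hXY x hx (h ▸ hy)
  have hne : X ≠ Y := fun h => hXY x hx (h ▸ hx)
  refine ⟨{X, Y}, ∅, {x, y}, ?_, ?_, empty_subset _, ⟨?_, ?_⟩, ?_, Or.inr ⟨x, by simp, ?_, ?_, ?_⟩⟩
  · intro Z hZ
    simp only [mem_insert, mem_singleton] at hZ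
    rcases hZ with rfl | rfl
    · exact hX
    · exact hY
  · intro z hz
    by_cases hzX : z ∈ X
    · exact ⟨Y, by simp, hXY z hzX⟩
    · exact ⟨X, by simp, hzX⟩
  · intro z hz
    simp only [mem_insert, mem_singleton] at hz
    rcases hz with rfl | rfl
    · exact h.sub X hX hx
    · exact h.sub Y hY hy
  · intro u hu v hv huv p hp h1 h3
    simp only [mem_insert, mem_singleton] at hu hv
    rcases hu with rfl | rfl <;> rcases hv with rfl | rfl
    · exact huv rfl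
    · exact hXY p ((hdx u hx p).1 h1) ((hdy v hy p).1 h3)
    · exact hXY p ((hdx v hx p).1 h3) ((hdy u hy p).1 h1)
    · exact huv rfl
  · rw [card_pair hxy, card_pair hne]
    simp
  · have : cl S (({X, Y} : Finset (Finset V)) ∪ tok (∅ : Finset V)) x = X := by
      ext v
      rw [mem_cl, hdx x hx]
      exact ⟨fun h => h.2, fun hv => ⟨h.sub X hX hv, hv⟩⟩
    rw [this]
    exact h2
  · have : cl S (({X, Y} : Finset (Finset V)) ∪ tok (∅ : Finset V)) x = X := by
      ext v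
      rw [mem_cl, hdx x hx]
      exact ⟨fun h => h.2, fun hv => ⟨h.sub X hX hv, hv⟩⟩
    rw [this]
    exact hr
  · intro v hv hdom
    exact (hdx v ((hdx x hx v).1 hdom) x).2 hx

theorem core_5a {r : ℕ} {S : Finset V} {A : Set (Finset V)} {L : Finset V} (h : Core r S A L)
    {X Y : Finset V} (hX : X ∈ A) (hY : Y ∈ A) (hd : Disjoint X Y)
    (hall : ∀ X ∈ A, ∀ Y ∈ A, Disjoint X Y → X.card = 1) : CoreOut r S A L := by
  obtain ⟨a, rfl⟩ := Finset.card_eq_one.1 (hall X hX Y hY hd)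
  obtain ⟨b, rfl⟩ := Finset.card_eq_one.1 (hall Y hY _ hX hd.symm)
  have hab : a ≠ b := by
    rintro rfl
    exact (Finset.disjoint_left.1 hd) (mem_singleton_self a) (mem_singleton_self a)
  have haS : a ∈ S := h.sub _ hX (mem_singleton_self a)
  have hbS : b ∈ S := h.sub _ hY (mem_singleton_self b)
  set As : Finset V := S.filter (fun s => ({s} : Finset V) ∈ A) with hAs
  have hmem : ∀ s, s ∈ As ↔ s ∈ S ∧ ({s} : Finset V) ∈ A := fun s => by rw [hAs, mem_filter]
  -- every member which is not a singleton contains `As`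
  have h1 : ∀ Z ∈ A, Z.card ≠ 1 → ∀ s ∈ As, s ∈ Z := by
    intro Z hZ hc s hs
    by_contra hsZ
    apply hc
    exact hall Z hZ {s} ((hmem s).1 hs).2 (Finset.disjoint_singleton_right.2 hsZ)
  have h2 : ∀ u ∈ S, u ∉ L → u ∈ As := by
    intro u hu huL
    obtain ⟨s, hs, hsu⟩ : ∃ s ∈ As, s ≠ u := by
      by_cases hau : a = u
      · exact ⟨b, (hmem b).2 ⟨hbS, hY⟩, fun h => hab (hau.trans h.symm)⟩
      · exact ⟨a, (hmem a).2 ⟨haS, hX⟩, hau⟩
    obtain ⟨Z, hZ, huZ, hsZ⟩ := h.sep u hu huL s ((hmem s).1 hs).1 (Ne.symm hsu)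
    by_cases hc : Z.card = 1
    · obtain ⟨z, rfl⟩ := Finset.card_eq_one.1 hc
      rw [mem_singleton] at huZ
      subst huZ
      exact (hmem u).2 ⟨hu, hZ⟩
    · exact absurd (h1 Z hZ hc s hs) hsZ
  have htok : ∀ u ∈ S, ({u} : Finset V) ∈ tok As ∪ tok (L \ As) := by
    intro u hu
    rw [mem_union, mem_tok, mem_tok]
    by_cases huA : u ∈ As
    · exact Or.inl ⟨u, huA, rfl⟩
    · right
      refine ⟨u, mem_sdiff.2 ⟨?_, huA⟩, rfl⟩
      by_contra huL
      exact huA (h2 u hu huL)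
  refine ⟨tok As, L \ As, S, ?_, ?_, sdiff_subset, ⟨Subset.refl _, ?_⟩, ?_, Or.inl h.card⟩
  · intro Z hZ
    obtain ⟨t, ht, rfl⟩ := mem_tok.1 hZ
    exact ((hmem t).1 ht).2
  · intro z hz
    by_cases hza : z = a
    · refine ⟨{b}, mem_tok.2 ⟨b, (hmem b).2 ⟨hbS, hY⟩, rfl⟩, ?_⟩
      rw [mem_singleton, hza]
      exact hab
    · exact ⟨{a}, mem_tok.2 ⟨a, (hmem a).2 ⟨haS, hX⟩, rfl⟩, by rwa [mem_singleton]⟩
  · intro u hu v hv huv p hp h3 h4
    apply huv
    rw [← eq_of_dom_tok (htok u hu) h3, ← eq_of_dom_tok (htok v hv) h4]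
  · rw [card_tok, ← card_union_of_disjoint disjoint_sdiff]
    exact card_le_card (union_subset (fun s hs => ((hmem s).1 hs).1)
      (sdiff_subset.trans h.Lsub))

end Pool.Agent.Work.MP_542d22_co
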