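import Pool.Agent.Work.MP_542d22_co.PairInst
import Pool.Agent.Work.MP_542d22_co.PairA
import Pool.Agent.Work.MP_542d22_co.Lift

/-!
MODULE PairB (medium/large). core_5b: a disjoint pair X, Y ∈ A with r ≤ |X| gives CoreOut.
Proof. exists_clean: X1, X2. v ∈ X2 (nonempty). |X1| < |S| (X1 ⊆ S, v ∈ S, v ∉ X1). pair_inst + h.ih X1 give
Out1 (insert v X1) FB r v: Q', R'.
Lifts: for Z' ∈ Q': if v ∈ Z' it is of the second kind: choose W(Z') ∈ A, X2 ⊆ W, Z' = insert v (W ∩ X1). If v ∉ Z': Z' ∈ A, or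
Z' = {t}, t ∈ L ∩ X1. Let T := the t ∈ L ∩ X1 with {t} ∈ Q' and {t} ∉ A; Qa := image of lift over the Z' ∈ Q' which are not {t}, t ∈ T
(lift Z' = Z' if v ∉ Z', W(Z') if v ∈ Z'). So Q := Qa ∪ tok T, |Qa| + |T| ≤ |Q'|.
Facts (P = S, D = X1, x = w = v): (a) u, p ∈ X1, Dom Q u p → Dom Q' u p;  (b) u ∈ X1, p ∈ S \ X1, Dom Q u p → Dom Q' u v (a Z' ∋ u
with v ∉ Z' is itself in Q and Z' ⊆ X1 does not contain p);  (c) p ∈ X1, Dom Q v p → Dom Q' v p;  (d) converse of (a).
lift_indep gives R on S, |R| = |R'|, u ∈ R' → u ≠ v → u ∈ R.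
Case 1: no y ∈ S is in all members of Qa: CoreOut with Qa, T, R (small case: u ∈ R', ¬ Dom Q' u v, so u ≠ v, u ∈ X1: lift_small).
Case 2: y0 ∈ S in all members of Qa. If u ∈ R, u ∉ T then Dom Q u y0 (a member of Q containing u is in Qa, or the token {u}).
 So (Indep) at most one u ∈ R is not in T: |R| ≤ |T| + 1 ≤ |L| + 1 < r. So the outcome is a small u ∈ R', ¬ Dom Q' u v.
 u ∉ T by Small.not_tok. Q'.card ≤ R'.card ≤ |T| + 1, so at most one member of Q' is not a token of T. As ¬ Dom Q' u v there is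
 Z ∈ Q', u ∈ Z, v ∉ Z; it is not a token of T (u ∉ T), so it is the only one, Z ∈ A, Z ⊆ X1, and Q' = {Z} ∪ tok T; the only member
 of Q' containing u is Z, so cl (insert v X1) Q' u = Z. So 2 ≤ |Z| < r and Z, X2 are disjoint: pair_small.
-/

set_option autoImplicit false

namespace Pool.Agent.Work.MP_542d22_co

open Classical Finset

variable {V : Type}

theorem core_5b {r : ℕ} {S : Finset V} {A : Set (Finset V)} {L : Finset V} (h : Core r S A L)
    {X Y : Finset V} (hX : X ∈ A) (hY : Y ∈ A) (hd : Disjoint X Y) (hr : r ≤ X.card) :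
    CoreOut r S A L := by
  obtain ⟨X1, h1, X2, h2, hd12, hr1, hmax, hmin⟩ := exists_clean h hX hY hd hr
  obtain ⟨v, hv⟩ := h.ne X2 h2
  have hvS : v ∈ S := h.sub X2 h2 hv
  have hv1 : v ∉ X1 := fun hv1 => Finset.disjoint_left.1 hd12 hv1 hv
  have hX1S : X1 ⊆ S := h.sub X1 h1
  have hlt : X1.card < S.card := Finset.card_lt_card ⟨hX1S, fun hh => hv1 (hh hvS)⟩
  obtain ⟨hI, hI1, hI2⟩ := pair_inst h h1 h2 hd12 hmax hmin hv
  obtain ⟨Q', R', hQ'F, hInd, hcard, hR2, hout⟩ := h.ih X1 hr1 hlt v _ hv1 hI hI1 hI2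
  set T : Finset V := L.filter (fun t => t ∈ X1 ∧ {t} ∈ Q' ∧ {t} ∉ A) with hT
  have hTL : T ⊆ L := Finset.filter_subset _ _
  have hTX : ∀ t ∈ T, t ∈ X1 := fun t ht => (Finset.mem_filter.1 ht).2.1
  have htokQ : tok T ⊆ Q' := by
    intro Z hZ
    obtain ⟨t, ht, rfl⟩ := mem_tok.1 hZ
    exact (Finset.mem_filter.1 ht).2.2.1
  -- the lifts
  have hkind : ∀ Z ∈ Q', ∃ W, (Z ∉ tok T → W ∈ A) ∧ (∀ p ∈ X1, p ∈ W ↔ p ∈ Z) ∧
      (v ∈ Z → v ∈ W) ∧ (v ∉ Z → W = Z ∧ Z ⊆ X1) := by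
    intro Z hZ
    rcases hQ'F Z hZ with ⟨hZA, hZX⟩ | ⟨W, hW, hXW, hnW, rfl⟩ | ⟨t, ht, htX, rfl⟩
    · exact ⟨Z, fun _ => hZA, fun _ _ => Iff.rfl, id, fun _ => ⟨rfl, hZX⟩⟩
    · refine ⟨W, fun _ => hW, fun p hp => ?_, fun _ => hXW hv, fun hh => ?_⟩
      · constructor
        · intro hpW
          exact Finset.mem_insert_of_mem (Finset.mem_inter.2 ⟨hpW, hp⟩)
        · intro hpZ
          rcases Finset.mem_insert.1 hpZ with hpv | hpW
          · exact absurd (hpv ▸ hp) hv1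
          · exact (Finset.mem_inter.1 hpW).1
      · exact absurd (Finset.mem_insert_self _ _) hh
    · refine ⟨{t}, fun hn => ?_, fun _ _ => Iff.rfl, id, fun _ => ⟨rfl, ?_⟩⟩
      · by_contra hA
        exact hn (mem_tok.2 ⟨t, Finset.mem_filter.2 ⟨ht, htX, hZ, hA⟩, rfl⟩)
      · intro p hp
        rw [Finset.mem_singleton.1 hp]
        exact htX
  choose! lift hl using hkind
  set Qa : Finset (Finset V) := (Q' \ tok T).image lift with hQa
  have hQaA : ∀ Z ∈ Qa, Z ∈ A := by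
    intro Z hZ
    obtain ⟨Z', hZ', rfl⟩ := Finset.mem_image.1 hZ
    obtain ⟨hZ1, hZ2⟩ := Finset.mem_sdiff.1 hZ'
    exact (hl Z' hZ1).1 hZ2
  have hcardQ : Qa.card + T.card ≤ Q'.card := by
    have e1 : Qa.card ≤ (Q' \ tok T).card := Finset.card_image_le
    have e2 := Finset.card_sdiff_add_card_eq_card htokQ
    rw [card_tok] at e2
    omega
  -- a member of `Q'` is a token or has its lift in `Qa`
  have hmem : ∀ Z ∈ Q', Z ∈ tok T ∨ lift Z ∈ Qa := by
    intro Z hZ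
    by_cases hZT : Z ∈ tok T
    · exact Or.inl hZT
    · exact Or.inr (Finset.mem_image_of_mem _ (Finset.mem_sdiff.2 ⟨hZ, hZT⟩))
  have ha : ∀ u ∈ X1, ∀ p ∈ X1, Dom (Qa ∪ tok T) u p → Dom Q' u p := by
    intro u hu p hp hdom Z hZ huZ
    rcases hmem Z hZ with hZT | hZl
    · exact hdom Z (Finset.mem_union_right _ hZT) huZ
    · have e1 := hdom _ (Finset.mem_union_left _ hZl) (((hl Z hZ).2.1 u hu).2 huZ)
      exact ((hl Z hZ).2.1 p hp).1 e1
  have hd' : ∀ u ∈ X1, ∀ p ∈ X1, Dom Q' u p → Dom (Qa ∪ tok T) u p := by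
    intro u hu p hp hdom Z hZ huZ
    rcases Finset.mem_union.1 hZ with hZa | hZT
    · obtain ⟨Z', hZ', rfl⟩ := Finset.mem_image.1 hZa
      obtain ⟨hZ1, hZ2⟩ := Finset.mem_sdiff.1 hZ'
      exact ((hl Z' hZ1).2.1 p hp).2 (hdom Z' hZ1 (((hl Z' hZ1).2.1 u hu).1 huZ))
    · exact hdom Z (htokQ hZT) huZ
  have hb : ∀ u ∈ X1, ∀ p ∈ S, p ∉ X1 → Dom (Qa ∪ tok T) u p → Dom Q' u v := by
    intro u hu p hp hpX hdom Z hZ huZ
    by_contra hvZ
    obtain ⟨e1, e2⟩ := (hl Z hZ).2.2.2 hvZ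
    have e3 : Z ∈ Qa ∪ tok T := by
      rcases hmem Z hZ with hZT | hZl
      · exact Finset.mem_union_right _ hZT
      · rw [e1] at hZl
        exact Finset.mem_union_left _ hZl
    exact hpX (e2 (hdom Z e3 huZ))
  have hc : ∀ p ∈ X1, Dom (Qa ∪ tok T) v p → Dom Q' v p := by
    intro p hp hdom Z hZ hvZ
    rcases hmem Z hZ with hZT | hZl
    · exact hdom Z (Finset.mem_union_right _ hZT) hvZ
    · have e1 := hdom _ (Finset.mem_union_left _ hZl) ((hl Z hZ).2.2.1 hvZ)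
      exact ((hl Z hZ).2.1 p hp).1 e1
  obtain ⟨R, hRI, hRc, hRm⟩ := lift_indep hX1S hv1 hvS hv1 ha hb hc hInd
  -- small points lift
  have hsmall : ∀ u ∈ R', Small (insert v X1) Q' r u → ¬ Dom Q' u v →
      u ∈ X1 ∧ u ∈ R ∧ Small S (Qa ∪ tok T) r u := by
    intro u hu hs hnd
    have huv : u ≠ v := by
      rintro rfl
      exact hnd (Dom.refl _ _)
    have huX : u ∈ X1 := by
      rcases Finset.mem_insert.1 (hInd.1 hu) with e | e
      · exact absurd e huv
      · exact e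
    exact ⟨huX, hRm u hu huv, lift_small hX1S hv1 huX ha hb hd' hnd hs⟩
  by_cases hface : ∀ y ∈ S, ∃ Z ∈ Qa, y ∉ Z
  · refine ⟨Qa, T, R, hQaA, hface, hTL, hRI, ?_, ?_⟩
    · omega
    · rcases hout with hr' | ⟨u, hu, hs, hnd⟩
      · left
        omega
      · right
        exact ⟨u, (hsmall u hu hs hnd).2.1, (hsmall u hu hs hnd).2.2⟩
  · push Not at hface
    obtain ⟨y0, hy0, hall⟩ := hface
    have hdomy : ∀ u, u ∉ T → Dom (Qa ∪ tok T) u y0 := by
      intro u huT Z hZ huZ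
      rcases Finset.mem_union.1 hZ with hZa | hZT
      · exact hall Z hZa
      · obtain ⟨t, ht, rfl⟩ := mem_tok.1 hZT
        rw [Finset.mem_singleton.1 huZ] at huT
        exact absurd ht huT
    have hRT : (R \ T).card ≤ 1 := by
      rw [Finset.card_le_one]
      intro a ha1 b hb1
      obtain ⟨ha2, ha3⟩ := Finset.mem_sdiff.1 ha1
      obtain ⟨hb2, hb3⟩ := Finset.mem_sdiff.1 hb1
      by_contra hab
      exact hRI.2 a ha2 b hb2 hab y0 hy0 (hdomy a ha3) (hdomy b hb3)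
    have hRc1 : R.card ≤ (R \ T).card + T.card := by
      have e1 := Finset.card_le_card (show R ⊆ (R \ T) ∪ T by
        intro a ha1
        by_cases haT : a ∈ T
        · exact Finset.mem_union_right _ haT
        · exact Finset.mem_union_left _ (Finset.mem_sdiff.2 ⟨ha1, haT⟩))
      exact e1.trans (Finset.card_union_le _ _)
    have hTc : T.card ≤ L.card := Finset.card_le_card hTL
    have hLc := h.Lcard
    rcases hout with hr' | ⟨u, hu, hs, hnd⟩
    · omega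
    · obtain ⟨huX, huR, hsu⟩ := hsmall u hu hs hnd
      have huT : u ∉ T := fun huT =>
        hsu.not_tok (Finset.mem_union_right _ (mem_tok.2 ⟨u, huT, rfl⟩))
      have hnotok : ∀ Z ∈ Q', u ∈ Z → Z ∉ tok T := by
        intro Z _ huZ hZT
        obtain ⟨t, ht, rfl⟩ := mem_tok.1 hZT
        rw [Finset.mem_singleton.1 huZ] at huT
        exact huT ht
      have hQ1 : (Q' \ tok T).card ≤ 1 := by
        have e2 := Finset.card_sdiff_add_card_eq_card htokQ
        rw [card_tok] at e2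
        omega
      have hnd' := hnd
      unfold Dom at hnd'
      push Not at hnd'
      obtain ⟨Z, hZ, huZ, hvZ⟩ := hnd'
      have hZA : Z ∈ A := by
        have e1 := (hl Z hZ).1 (hnotok Z hZ huZ)
        rw [((hl Z hZ).2.2.2 hvZ).1] at e1
        exact e1
      have hZX : Z ⊆ X1 := ((hl Z hZ).2.2.2 hvZ).2
      have hcl : cl (insert v X1) Q' u = Z := by
        ext p
        rw [mem_cl]
        constructor
        · rintro ⟨_, hp⟩
          exact hp Z hZ huZ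
        · intro hp
          refine ⟨Finset.mem_insert_of_mem (hZX hp), fun Z'' hZ'' huZ'' => ?_⟩
          have e1 : Z'' = Z := by
            rw [Finset.card_le_one] at hQ1
            exact hQ1 Z'' (Finset.mem_sdiff.2 ⟨hZ'', hnotok Z'' hZ'' huZ''⟩) Z
              (Finset.mem_sdiff.2 ⟨hZ, hnotok Z hZ huZ⟩)
          rw [e1]
          exact hp
      have hs1 := hs.1
      have hs2 := hs.2.1
      rw [hcl] at hs1 hs2
      exact pair_small h hZA h2 (Finset.disjoint_of_subset_left hZX hd12) hs1 hs2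

end Pool.Agent.Work.MP_542d22_co
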