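import Pool.Agent.Work.MP_542d22_co.NoPair
import Pool.Agent.Work.MP_542d22_co.PairB

/-! core_main (assembly, helper16). -/

set_option autoImplicit false

namespace Pool.Agent.Work.MP_542d22_co

open Classical Finset

variable {V : Type}

theorem core_main {r : ℕ} {S : Finset V} {A : Set (Finset V)} {L : Finset V} (h : Core r S A L) :
    CoreOut r S A L := by
  by_cases hno : ∀ X ∈ A, ∀ Y ∈ A, (X ∩ Y).Nonempty
  · exact core_6 h hno
  push Not at hno
  obtain ⟨X, hX, Y, hY, hXY⟩ := hno
  have hd : Disjoint X Y := Finset.disjoint_iff_inter_eq_empty.2 hXY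
  by_cases hall : ∀ X ∈ A, ∀ Y ∈ A, Disjoint X Y → X.card = 1
  · exact core_5a h hX hY hd hall
  push Not at hall
  obtain ⟨X', hX', Y', hY', hd', hc⟩ := hall
  have h0 : 0 < X'.card := Finset.card_pos.2 (h.ne _ hX')
  by_cases hr : r ≤ X'.card
  · exact core_5b h hX' hY' hd' hr
  · exact pair_small h hX' hY' hd' (by omega) (by omega)

end Pool.Agent.Work.MP_542d22_co
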