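import Mathlib

/-!
MP_542d22_co (Mader's question for SIMPLE digraphs): set systems.

`Dom Q u v` : every member of `Q` containing `u` contains `v` (the type of `u` is inside the type of `v`).
`cl P Q u`  : the closure of `u` in `P`.
`Indep P Q R` : the points of `R` have pairwise disjoint closures in `P`; a certificate is a pair `(Q, R)` with
`Q.card ≤ R.card` (every point of `R` represents a cell of `Q`).
`Small P Q r u` : the cell of `u` has between `2` and `r - 1` points and all of them are twins of `u`.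
-/

set_option autoImplicit false

namespace Pool.Agent.Work.MP_542d22_co

open Classical Finset

variable {V : Type}

/-- `Dom Q u v`: every member of `Q` which contains `u` contains `v`. -/
def Dom (Q : Finset (Finset V)) (u v : V) : Prop := ∀ Z ∈ Q, u ∈ Z → v ∈ Z

/-- The closure of `u` in `P`. -/
noncomputable def cl (P : Finset V) (Q : Finset (Finset V)) (u : V) : Finset V :=
  P.filter (fun v => Dom Q u v)

/-- The points of `R` have pairwise disjoint closures in `P`. -/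
def Indep (P : Finset V) (Q : Finset (Finset V)) (R : Finset V) : Prop :=
  R ⊆ P ∧ ∀ u ∈ R, ∀ v ∈ R, u ≠ v → ∀ p ∈ P, Dom Q u p → ¬ Dom Q v p

/-- `u` represents a small cell of twins. -/
def Small (P : Finset V) (Q : Finset (Finset V)) (r : ℕ) (u : V) : Prop :=
  2 ≤ (cl P Q u).card ∧ (cl P Q u).card < r ∧ ∀ v ∈ P, Dom Q u v → Dom Q v u

/-- A separating, weakly crossing family of nonempty proper subsets of `P`. -/
structure Inst (P : Finset V) (F : Set (Finset V)) : Prop where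
  sub : ∀ Z ∈ F, Z ⊆ P
  ne : ∀ Z ∈ F, Z.Nonempty
  proper : ∀ Z ∈ F, Z ≠ P
  sep : ∀ u ∈ P, ∀ v ∈ P, u ≠ v → ∃ Z ∈ F, u ∈ Z ∧ v ∉ Z
  wc : ∀ A ∈ F, ∀ B ∈ F, (A ∩ B).Nonempty → A ∪ B ≠ P → A ∩ B ∈ F ∨ A ∪ B ∈ F

/-- The rooted outcome. -/
def Out1 (P : Finset V) (F : Set (Finset V)) (r : ℕ) (o : V) : Prop :=
  ∃ (Q : Finset (Finset V)) (R : Finset V), (∀ Z ∈ Q, Z ∈ F) ∧ Indep P Q R ∧ Q.card ≤ R.card ∧
    2 ≤ R.card ∧ (r ≤ R.card ∨ ∃ u ∈ R, Small P Q r u ∧ ¬ Dom Q u o)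

/-- The rooted statement for the set `S` (the ground set is `insert o S`). -/
def R1 (r : ℕ) (S : Finset V) : Prop :=
  ∀ (o : V) (F : Set (Finset V)), o ∉ S → Inst (insert o S) F → S ∈ F → {o} ∈ F →
    Out1 (insert o S) F r o

/-- The tokens: the singletons of the points of `T`. -/
noncomputable def tok (T : Finset V) : Finset (Finset V) := T.image (fun t => {t})

/-- Hypotheses of the core theorem. -/
structure Core (r : ℕ) (S : Finset V) (A : Set (Finset V)) (L : Finset V) : Prop where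
  r3 : 3 ≤ r
  card : r ≤ S.card
  sub : ∀ X ∈ A, X ⊆ S
  ne : ∀ X ∈ A, X.Nonempty
  proper : ∀ X ∈ A, X ≠ S
  Lsub : L ⊆ S
  Lcard : L.card + 2 ≤ r
  sep : ∀ u ∈ S, u ∉ L → ∀ v ∈ S, u ≠ v → ∃ X ∈ A, u ∈ X ∧ v ∉ X
  wc : ∀ X ∈ A, ∀ Y ∈ A, (X ∩ Y).Nonempty → X ∪ Y ≠ S → X ∩ Y ∈ A ∨ X ∪ Y ∈ A
  ih : ∀ S' : Finset V, r ≤ S'.card → S'.card < S.card → R1 r S'

/-- Outcome of the core theorem: a certificate `(Qa + tokens of T, R)` on `S` such that the members
of `Qa` have no common point in `S`. -/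
def CoreOut (r : ℕ) (S : Finset V) (A : Set (Finset V)) (L : Finset V) : Prop :=
  ∃ (Qa : Finset (Finset V)) (T R : Finset V), (∀ X ∈ Qa, X ∈ A) ∧ (∀ y ∈ S, ∃ X ∈ Qa, y ∉ X) ∧
    T ⊆ L ∧ Indep S (Qa ∪ tok T) R ∧ Qa.card + T.card ≤ R.card ∧
    (r ≤ R.card ∨ ∃ u ∈ R, Small S (Qa ∪ tok T) r u)

lemma mem_cl {P : Finset V} {Q : Finset (Finset V)} {u v : V} :
    v ∈ cl P Q u ↔ v ∈ P ∧ Dom Q u v := by
  simp [cl]

lemma mem_tok {T : Finset V} {Z : Finset V} : Z ∈ tok T ↔ ∃ t ∈ T, {t} = Z := by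
  simp [tok]

lemma card_tok (T : Finset V) : (tok T).card = T.card := by
  unfold tok
  apply Finset.card_image_of_injective
  intro a b h
  simpa using h

lemma Dom.refl (Q : Finset (Finset V)) (u : V) : Dom Q u u := fun _ _ h => h

lemma Dom.trans {Q : Finset (Finset V)} {u v w : V} (h : Dom Q u v) (h' : Dom Q v w) :
    Dom Q u w := fun Z hZ hu => h' Z hZ (h Z hZ hu)

/-- a point with a token dominates only itself -/
lemma eq_of_dom_tok {Q : Finset (Finset V)} {u v : V} (h : {u} ∈ Q) (hd : Dom Q u v) : v = u := by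
  simpa using hd {u} h (by simp)

/-- a small cell has no token -/
lemma Small.not_tok {P : Finset V} {Q : Finset (Finset V)} {r : ℕ} {u : V}
    (h : Small P Q r u) : {u} ∉ Q := by
  intro hu
  have h1 : (cl P Q u).card ≤ 1 := by
    rw [Finset.card_le_one]
    intro a ha b hb
    rw [mem_cl] at ha hb
    rw [eq_of_dom_tok hu ha.2, eq_of_dom_tok hu hb.2]
  have := h.1
  omega

/-- certificates on a set which is independent: the card of a family covering one point -/
lemma exists_min_card {α : Type} (p : Finset α → Prop) (h : ∃ Q, p Q) :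
    ∃ Q, p Q ∧ ∀ Q', p Q' → Q.card ≤ Q'.card := by
  have h1 : ∃ n, ∃ Q, p Q ∧ Q.card = n := by
    obtain ⟨Q, hQ⟩ := h
    exact ⟨_, Q, hQ, rfl⟩
  obtain ⟨Q, hQ, hn⟩ := Nat.find_spec h1
  refine ⟨Q, hQ, fun Q' hQ' => ?_⟩
  rw [hn]
  exact Nat.find_min' h1 ⟨Q', hQ', rfl⟩

end Pool.Agent.Work.MP_542d22_co
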