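import Mathlib

/-!
MODULE Menger (medium/large, independent, pure Mathlib). Edge-disjoint directed Menger theorem for finite multidigraphs.
Suggested proof: a flow is a Finset f of edges with |out(v) ∩ f| = |in(v) ∩ f| for v ≠ x, y and value k = |out(x) ∩ f| - |in(x) ∩ f|.
(1) Augment: if k < r, let X be the set of vertices reachable from x in the residual graph (edges ∉ f forward, edges ∈ f backward).
 If y ∉ X: all edges leaving X are in f, all edges of f entering X: none; so k = out X ≥ r. So y ∈ X; toggle the edges of a residual
 path without repeated vertices: value k + 1.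
(2) Decompose a flow of value k into k edge-disjoint walks from x to y: follow edges of f greedily from x until y (a maximal trail in f
 starting at x ends at y, by the degree conditions), remove it, induct.
Any other proof is fine (e.g. induction on the number of edges).
-/

set_option autoImplicit false

namespace Pool.Agent.Work.MP_542d22_co

open Classical Finset

/-- There are `k` pairwise edge-disjoint directed walks from `x` to `y` (so `k ≤ λ(x, y)`; each walk contains a directed path). -/
def Joined {V E : Type} (tail head : E → V) (k : ℕ) (x y : V) : Prop :=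
  ∃ P : Fin k → List E,
    (∀ i, P i ≠ [] ∧ (∀ e ∈ (P i).head?, tail e = x) ∧ (∀ e ∈ (P i).getLast?, head e = y) ∧
      ∀ (j : ℕ) (a b : E), (P i)[j]? = some a → (P i)[j + 1]? = some b → head a = tail b) ∧
    ∀ i j, i ≠ j → ∀ e ∈ P i, e ∉ P j

/-- number of edges of `F` leaving `X` -/
private noncomputable def oc {V E : Type} (tail head : E → V) (F : Finset E) (X : Finset V) : ℕ :=
  (F.filter (fun e => tail e ∈ X ∧ head e ∉ X)).card

/-- the excess (out minus in) of a vertex -/
private noncomputable def ex {V E : Type} (tail head : E → V) (F : Finset E) (v : V) : ℤ :=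
  ∑ e ∈ F, ((if tail e = v then (1 : ℤ) else 0) - (if head e = v then 1 else 0))

private lemma oc_submod {V E : Type} (tail head : E → V) (F : Finset E) (X Y : Finset V) :
    oc tail head F (X ∪ Y) + oc tail head F (X ∩ Y) ≤ oc tail head F X + oc tail head F Y := by
  unfold oc
  simp only [Finset.card_filter]
  rw [← Finset.sum_add_distrib, ← Finset.sum_add_distrib]
  apply Finset.sum_le_sum
  intro e _
  by_cases h1 : tail e ∈ X <;> by_cases h2 : head e ∈ X <;> by_cases h3 : tail e ∈ Y <;>
    by_cases h4 : head e ∈ Y <;> simp [h1, h2, h3, h4]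

private lemma exists_tight {V E : Type} [Fintype V] [Fintype E] (tail head : E → V) (r : ℕ)
    (x y : V) (hcut : ∀ X : Finset V, x ∈ X → y ∉ X → r ≤ oc tail head univ X) :
    ∃ F : Finset E, (∀ X : Finset V, x ∈ X → y ∉ X → r ≤ oc tail head F X) ∧
      ∀ e ∈ F, ∃ X : Finset V, x ∈ X ∧ y ∉ X ∧ oc tail head F X = r ∧ tail e ∈ X ∧
        head e ∉ X := by
  obtain ⟨F, hF⟩ := (Set.toFinite {F : Finset E |
    ∀ X : Finset V, x ∈ X → y ∉ X → r ≤ oc tail head F X}).exists_minimal ⟨univ, hcut⟩
  refine ⟨F, hF.prop, fun e he => ?_⟩
  by_contra hno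
  have h1 : F.erase e ∈ {F : Finset E |
      ∀ X : Finset V, x ∈ X → y ∉ X → r ≤ oc tail head F X} := by
    intro X hx hy
    have hX : r ≤ oc tail head F X := hF.prop X hx hy
    have h2 : (F.erase e).filter (fun e => tail e ∈ X ∧ head e ∉ X) =
        (F.filter (fun e => tail e ∈ X ∧ head e ∉ X)).erase e := by
      ext a
      simp only [Finset.mem_filter, Finset.mem_erase]
      tauto
    unfold oc at hX ⊢
    rw [h2]
    by_cases hc : tail e ∈ X ∧ head e ∉ X
    · rw [Finset.card_erase_of_mem (by simp [he, hc])]
      have h3 : ¬ oc tail head F X = r := fun h => hno ⟨X, hx, hy, h, hc.1, hc.2⟩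
      unfold oc at h3
      omega
    · rw [Finset.erase_eq_of_notMem (by simp [hc])]
      exact hX
  have h4 := hF.le_of_le h1 (Finset.erase_subset e F)
  exact absurd (h4 he) (by simp)

private lemma ex_nonneg {V E : Type} [Fintype V] [Fintype E] {tail head : E → V} {r : ℕ}
    {x y : V} {F : Finset E} (hF : ∀ X : Finset V, x ∈ X → y ∉ X → r ≤ oc tail head F X)
    (ht : ∀ e ∈ F, ∃ X : Finset V, x ∈ X ∧ y ∉ X ∧ oc tail head F X = r ∧ tail e ∈ X ∧
        head e ∉ X) {v : V} (hvy : v ≠ y) : 0 ≤ ex tail head F v := by
  by_contra hneg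
  push Not at hneg
  -- there is an edge entering `v`
  have he0 : ∃ e ∈ F, head e = v := by
    by_contra hno
    push Not at hno
    apply absurd hneg
    push Not
    unfold ex
    apply Finset.sum_nonneg
    intro e he
    rw [if_neg (hno e he)]
    split_ifs <;> norm_num
  obtain ⟨e0, he0, hv0⟩ := he0
  obtain ⟨X0, hx0, hy0, ht0, -, hvX0⟩ := ht e0 he0
  rw [hv0] at hvX0
  obtain ⟨X, hXm, hXmax⟩ := Finset.exists_max_image
    ((univ : Finset (Finset V)).filter (fun X => x ∈ X ∧ y ∉ X ∧ oc tail head F X = r ∧ v ∉ X))
    Finset.card ⟨X0, by simp [hx0, hy0, ht0, hvX0]⟩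
  simp only [Finset.mem_filter, Finset.mem_univ, true_and] at hXm hXmax
  obtain ⟨hx, hy, hr, hv⟩ := hXm
  -- all tails are in `X`
  have htail : ∀ e ∈ F, head e = v → tail e ∈ X := by
    intro e he hev
    by_contra hn
    obtain ⟨Y, hxY, hyY, hrY, hteY, hheY⟩ := ht e he
    rw [hev] at hheY
    have h1 := oc_submod tail head F X Y
    have h2 := hF (X ∩ Y) (by simp [hx, hxY]) (by simp [hy])
    have h3 := hF (X ∪ Y) (by simp [hx]) (by simp [hy, hyY])
    have h4 : oc tail head F (X ∪ Y) = r := by omega
    have h5 := hXmax (X ∪ Y) ⟨by simp [hx], by simp [hy, hyY], h4, by simp [hv, hheY]⟩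
    have h6 : X ⊂ X ∪ Y := by
      refine ⟨Finset.subset_union_left, fun h => hn (h ?_)⟩
      simp [hteY]
    have := Finset.card_lt_card h6
    omega
  have h7 := hF (insert v X) (by simp [hx]) (by
    rw [Finset.mem_insert]
    push Not
    exact ⟨hvy.symm, hy⟩)
  have h8 : ((oc tail head F (insert v X) : ℕ) : ℤ) ≤ (oc tail head F X : ℕ) +
      ex tail head F v := by
    unfold oc ex
    simp only [Finset.card_filter]
    push_cast
    rw [← Finset.sum_add_distrib]
    apply Finset.sum_le_sum
    intro e he
    by_cases hev : head e = v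
    · have h9 := htail e he hev
      have h10 : head e ∉ X := by rw [hev]; exact hv
      have h11 : tail e ≠ v := fun h => hv (h ▸ h9)
      simp [hev, h9, h11, hv]
    · by_cases h12 : tail e = v
      · by_cases h13 : head e ∈ X
        · simp [hev, h12, h13]
        · simp [hev, h12, h13, hv]
      · by_cases h13 : head e ∈ X
        · simp [hev, h12, h13]
        · by_cases h14 : tail e ∈ X
          · simp [hev, h12, h13, h14]
          · simp [hev, h12, h13, h14]
  have h9 : ((r : ℕ) : ℤ) ≤ (oc tail head F (insert v X) : ℕ) := by exact_mod_cast h7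
  rw [hr] at h8
  linarith

private lemma ex_root {V E : Type} [Fintype V] [Fintype E] {tail head : E → V} {r : ℕ}
    {x y : V} (hxy : x ≠ y) {F : Finset E}
    (hF : ∀ X : Finset V, x ∈ X → y ∉ X → r ≤ oc tail head F X)
    (ht : ∀ e ∈ F, ∃ X : Finset V, x ∈ X ∧ y ∉ X ∧ oc tail head F X = r ∧ tail e ∈ X ∧
        head e ∉ X) : (r : ℤ) ≤ ex tail head F x := by
  have h1 := hF {x} (by simp) (by simpa using hxy.symm)
  have h2 : ((oc tail head F {x} : ℕ) : ℤ) ≤ ex tail head F x := by
    unfold oc ex
    simp only [Finset.card_filter]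
    push_cast
    apply Finset.sum_le_sum
    intro e he
    have h3 : head e ≠ x := by
      obtain ⟨X, hx, -, -, -, hh⟩ := ht e he
      exact fun h => hh (h ▸ hx)
    simp [h3]
  have h3 : ((r : ℕ) : ℤ) ≤ (oc tail head F {x} : ℕ) := by exact_mod_cast h1
  linarith

private lemma walk {V E : Type} (tail head : E → V) (y : V) : ∀ (n : ℕ) (F : Finset E),
    F.card = n → (∀ v, v ≠ y → 0 ≤ ex tail head F v) → ∀ s, s ≠ y → 1 ≤ ex tail head F s →
    ∃ (L : List E) (F' : Finset E), L ≠ [] ∧ (∀ e ∈ L.head?, tail e = s) ∧
      (∀ e ∈ L.getLast?, head e = y) ∧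
      (∀ (j : ℕ) (a b : E), L[j]? = some a → L[j + 1]? = some b → head a = tail b) ∧
      (∀ e ∈ L, e ∈ F) ∧ F' ⊆ F ∧ (∀ e ∈ L, e ∉ F') ∧
      ∀ v, v ≠ y → ex tail head F' v = ex tail head F v - (if s = v then 1 else 0) := by
  intro n
  induction n with
  | zero =>
    intro F hF _ s _ h1
    rw [Finset.card_eq_zero] at hF
    subst hF
    simp [ex] at h1
  | succ n ih =>
    intro F hF h0 s hs h1
    have he : ∃ e ∈ F, tail e = s := by
      by_contra hno
      push Not at hno
      have : ex tail head F s ≤ 0 := by
        unfold ex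
        apply Finset.sum_nonpos
        intro e he
        rw [if_neg (hno e he)]
        split_ifs <;> norm_num
      linarith
    obtain ⟨e, he, hes⟩ := he
    have hex : ∀ v, ex tail head (F.erase e) v =
        ex tail head F v - (if s = v then 1 else 0) + (if head e = v then 1 else 0) := by
      intro v
      unfold ex
      rw [← Finset.add_sum_erase F _ he, hes]
      ring
    by_cases hw : head e = y
    · refine ⟨[e], F.erase e, by simp, by simp [hes], by simp [hw], ?_, by simp [he],
        Finset.erase_subset _ _, by simp, ?_⟩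
      · intro j a b _ hb
        simp at hb
      · intro v hv
        rw [hex, if_neg (show ¬ head e = v from fun h => hv (h ▸ hw))]
        ring
    · obtain ⟨L, F', hL, hh, hl, hc, hLF, hF', hd, hx⟩ := ih (F.erase e)
        (by rw [Finset.card_erase_of_mem he, hF]; rfl)
        (by
          intro v hv
          rw [hex]
          have h2 := h0 v hv
          by_cases h3 : s = v
          · subst h3
            split_ifs <;> simp <;> linarith
          · rw [if_neg h3]
            split_ifs <;> linarith)
        (head e) hw
        (by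
          rw [hex]
          have h2 := h0 _ hw
          by_cases h3 : s = head e
          · rw [← h3]
            simp
            exact h1
          · rw [if_neg h3]
            simp
            exact h2)
      refine ⟨e :: L, F', by simp, by simp [hes], ?_, ?_, ?_, ?_, ?_, ?_⟩
      · intro a ha
        rw [List.getLast?_cons_of_ne_nil hL] at ha
        exact hl a ha
      · intro j a b ha hb
        cases j with
        | zero =>
          simp only [List.getElem?_cons_zero, Option.some.injEq] at ha
          subst ha
          simp only [zero_add, List.getElem?_cons_succ] at hb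
          rw [hh b (by rw [List.head?_eq_getElem?]; exact hb)]
        | succ j =>
          simp only [List.getElem?_cons_succ] at ha hb
          exact hc j a b ha hb
      · intro a ha
        rcases List.mem_cons.1 ha with rfl | h
        · exact he
        · exact Finset.mem_of_mem_erase (hLF a h)
      · exact hF'.trans (Finset.erase_subset _ _)
      · intro a ha
        rcases List.mem_cons.1 ha with rfl | h
        · exact fun h => absurd (hF' h) (by simp)
        · exact hd a h
      · intro v hv
        rw [hx v hv, hex]
        ring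

private lemma walks {V E : Type} (tail head : E → V) {x y : V} (hxy : x ≠ y) :
    ∀ (r : ℕ) (F : Finset E), (∀ v, v ≠ y → 0 ≤ ex tail head F v) →
    (r : ℤ) ≤ ex tail head F x →
    ∃ P : Fin r → List E,
    (∀ i, P i ≠ [] ∧ (∀ e ∈ (P i).head?, tail e = x) ∧ (∀ e ∈ (P i).getLast?, head e = y) ∧
      ∀ (j : ℕ) (a b : E), (P i)[j]? = some a → (P i)[j + 1]? = some b → head a = tail b) ∧
    (∀ i, ∀ e ∈ P i, e ∈ F) ∧ ∀ i j, i ≠ j → ∀ e ∈ P i, e ∉ P j := by
  intro r
  induction r with
  | zero =>
    intro F _ _
    exact ⟨fun i => i.elim0, fun i => i.elim0, fun i => i.elim0, fun i => i.elim0⟩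
  | succ r ih =>
    intro F h0 h1
    push_cast at h1
    obtain ⟨L, F', hL, hh, hl, hc, hLF, hF', hd, hx⟩ := walk tail head y F.card F rfl h0 x hxy
      (by linarith [Int.natCast_nonneg r])
    obtain ⟨P, hP, hPF, hPd⟩ := ih F'
      (by
        intro v hv
        rw [hx v hv]
        have := h0 v hv
        split_ifs with h
        · subst h
          linarith [Int.natCast_nonneg r]
        · linarith)
      (by
        rw [hx x hxy]
        simp
        linarith)
    refine ⟨Fin.cons L P, ?_, ?_, ?_⟩
    · intro i
      refine Fin.cases ?_ (fun i => ?_) i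
      · exact ⟨hL, hh, hl, hc⟩
      · exact hP i
    · intro i
      refine Fin.cases ?_ (fun i => ?_) i
      · exact hLF
      · exact fun e he => hF' (hPF i e he)
    · intro i
      refine Fin.cases ?_ (fun i => ?_) i
      · intro j
        refine Fin.cases ?_ (fun j => ?_) j
        · exact fun h => absurd rfl h
        · intro _ e he hj
          exact hd e he (hPF j e hj)
      · intro j
        refine Fin.cases ?_ (fun j => ?_) j
        · intro _ e he hj
          exact hd e hj (hPF i e he)
        · intro hij e he
          exact hPd i j (fun h => hij (by rw [h])) e he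

theorem menger {V E : Type} [Fintype V] [Fintype E] (tail head : E → V) (r : ℕ) (x y : V)
    (hxy : x ≠ y)
    (hcut : ∀ X : Finset V, x ∈ X → y ∉ X →
      r ≤ (univ.filter (fun e : E => tail e ∈ X ∧ head e ∉ X)).card) :
    Joined tail head r x y := by
  obtain ⟨F, hF, ht⟩ := exists_tight tail head r x y hcut
  obtain ⟨P, hP, -, hd⟩ := walks tail head hxy r F
    (fun v hv => by
      by_cases hvx : v = x
      · subst hvx
        exact le_trans (Int.natCast_nonneg r) (ex_root hxy hF ht)
      · exact ex_nonneg hF ht hv)
    (ex_root hxy hF ht)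
  exact ⟨P, hP, hd⟩

end Pool.Agent.Work.MP_542d22_co
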