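import Pool.Agent.Work.MP_542d22_co.Graph
import Pool.Agent.Work.MP_542d22_co.Menger

/-! Assembly (helper16). -/

set_option autoImplicit false

namespace Pool.Agent.Work.MP_542d22_co

open Classical Finset

theorem simple_q1 {V E : Type} [Finite V] [Finite E] [Nonempty V] (tail head : E → V) (r : ℕ)
    (hr : 1 ≤ r) (hl : ∀ e, tail e ≠ head e)
    (hs : ∀ e f, tail e = tail f → head e = head f → e = f)
    (hdeg : ∀ v : V, r ≤ Nat.card {e : E // tail e = v}) :
    ∃ x y : V, x ≠ y ∧ Joined tail head r x y := by
  have := Fintype.ofFinite V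
  have := Fintype.ofFinite E
  obtain ⟨x, y, hxy, h⟩ := good_pair tail head hr hl
    (fun e f hef => hs e f (congrArg Prod.fst hef) (congrArg Prod.snd hef))
    (fun v => by
      have h1 := hdeg v
      rw [Nat.card_eq_fintype_card, Fintype.card_subtype] at h1
      exact h1)
  exact ⟨x, y, hxy, menger tail head r x y hxy h⟩

end Pool.Agent.Work.MP_542d22_co
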