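import Pool.Agent.Work.MP_542d22_co.GraphDefs

/-!
MODULE GraphC (medium). A finite digraph: V, E finite, tail, head : E → V, loopless, simple (no two edges with the same tail and
head), all out-degrees ≥ r.
 outc X := number of edges leaving X;  gP P Z := number of edges from Z to P \ Z.

cert_ineq: Q Finset of members, R Indep on P: ∑_{u ∈ R} out (cl P Q u) ≤ out P + ∑_{Z ∈ Q} gP P Z: the sets cl P Q u (u ∈ R) are pairwise
 disjoint; an edge e with tail in cl P Q u and head outside cl P Q u: head ∉ P: it leaves P; head ∈ P: it is in gP Z for some Z ∈ Q (u ∈ Z and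
 head ∉ Z as ¬ Dom Q u head; tail e ∈ Z because Dom Q u (tail e)). Count edges: each edge has its tail in at most one cl.
-/

set_option autoImplicit false

namespace Pool.Agent.Work.MP_542d22_co

open Classical Finset

variable {V E : Type}

theorem cert_ineq [Fintype V] [Fintype E] (tail head : E → V) {P : Finset V}
    {Q : Finset (Finset V)} {R : Finset V} (hQ : ∀ Z ∈ Q, Z ⊆ P) (hR : Indep P Q R) :
    ∑ u ∈ R, outc tail head (cl P Q u) ≤ outc tail head P + ∑ Z ∈ Q, gP tail head P Z := by
  obtain ⟨hRP, hdis⟩ := hR
  have hpd : (R : Set V).PairwiseDisjoint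
      (fun u => univ.filter (fun e : E => tail e ∈ cl P Q u ∧ head e ∉ cl P Q u)) := by
    intro u hu v hv huv
    rw [Function.onFun, Finset.disjoint_left]
    intro e he he'
    simp only [mem_filter, mem_univ, true_and, mem_cl] at he he'
    exact hdis u hu v hv huv (tail e) he.1.1 he.1.2 he'.1.2
  calc ∑ u ∈ R, outc tail head (cl P Q u)
      = (R.biUnion (fun u => univ.filter
          (fun e : E => tail e ∈ cl P Q u ∧ head e ∉ cl P Q u))).card := by
        rw [card_biUnion hpd]
        rfl
    _ ≤ ((univ.filter (fun e : E => tail e ∈ P ∧ head e ∉ P)) ∪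
          Q.biUnion (fun Z => univ.filter
            (fun e : E => tail e ∈ Z ∧ head e ∈ P ∧ head e ∉ Z))).card := by
        apply card_le_card
        intro e he
        rw [mem_biUnion] at he
        obtain ⟨u, hu, he⟩ := he
        simp only [mem_filter, mem_univ, true_and, mem_cl] at he
        obtain ⟨⟨h1, h2⟩, h3⟩ := he
        by_cases hP : head e ∈ P
        · have h4 : ¬ Dom Q u (head e) := fun h => h3 ⟨hP, h⟩
          unfold Dom at h4
          push Not at h4
          obtain ⟨Z, hZ, huZ, hhZ⟩ := h4
          rw [mem_union, mem_biUnion]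
          right
          refine ⟨Z, hZ, ?_⟩
          simp only [mem_filter, mem_univ, true_and]
          exact ⟨h2 Z hZ huZ, hP, hhZ⟩
        · rw [mem_union]
          left
          simp only [mem_filter, mem_univ, true_and]
          exact ⟨h1, hP⟩
    _ ≤ (univ.filter (fun e : E => tail e ∈ P ∧ head e ∉ P)).card +
          (Q.biUnion (fun Z => univ.filter
            (fun e : E => tail e ∈ Z ∧ head e ∈ P ∧ head e ∉ Z))).card := card_union_le _ _
    _ ≤ outc tail head P + ∑ Z ∈ Q, gP tail head P Z :=
        Nat.add_le_add le_rfl card_biUnion_le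

end Pool.Agent.Work.MP_542d22_co
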