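import Pool.Agent.Work.MP_542d22_co.GraphDefs

/-!
MODULE GraphI (medium). A finite digraph: V, E finite, tail, head : E → V, loopless, simple (no two edges with the same tail and
head), all out-degrees ≥ r.
 outc X := number of edges leaving X;  gP P Z := number of edges from Z to P \ Z.

graph_inst: if every pair x ≠ y is separated (∃ X, x ∈ X, y ∉ X, out X < r) then F := {Z | Z ⊆ P, Z ≠ ∅, Z ≠ P, gP P Z < r} is an Inst on P:
 sep: Z := X ∩ P, gP P Z ≤ out X.  wc: gP is submodular: gP (A ∩ B) + gP (A ∪ B) ≤ gP A + gP B ≤ 2 (r - 1), so one of them is < r;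
 (A ∩ B nonempty and proper, A ∪ B ≠ P, nonempty).
-/

set_option autoImplicit false

namespace Pool.Agent.Work.MP_542d22_co

open Classical Finset

variable {V E : Type}

private lemma gP_submod [Fintype E] (tail head : E → V) (P A B : Finset V) :
    gP tail head P (A ∩ B) + gP tail head P (A ∪ B) ≤ gP tail head P A + gP tail head P B := by
  unfold gP
  rw [card_filter, card_filter, card_filter, card_filter, ← sum_add_distrib, ← sum_add_distrib]
  refine sum_le_sum fun e _ => ?_
  by_cases h1 : tail e ∈ A <;> by_cases h2 : tail e ∈ B <;> by_cases h3 : head e ∈ P <;>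
    by_cases h4 : head e ∈ A <;> by_cases h5 : head e ∈ B <;> simp [h1, h2, h3, h4, h5]

theorem graph_inst [Fintype V] [Fintype E] (tail head : E → V) {r : ℕ} {P : Finset V}
    (hsep : ∀ x y : V, x ≠ y → ∃ X : Finset V, x ∈ X ∧ y ∉ X ∧ outc tail head X < r) :
    Inst P {Z | Z ⊆ P ∧ Z.Nonempty ∧ Z ≠ P ∧ gP tail head P Z < r} := by
  refine ⟨fun Z hZ => hZ.1, fun Z hZ => hZ.2.1, fun Z hZ => hZ.2.2.1, ?_, ?_⟩
  · intro u hu v hv huv
    obtain ⟨X, h1, h2, h3⟩ := hsep u v huv
    refine ⟨X ∩ P, ⟨inter_subset_right, ⟨u, mem_inter.2 ⟨h1, hu⟩⟩, ?_, ?_⟩,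
      mem_inter.2 ⟨h1, hu⟩, fun h => h2 (mem_inter.1 h).1⟩
    · intro h
      have h4 : v ∈ X ∩ P := by rw [h]; exact hv
      exact h2 (mem_inter.1 h4).1
    · refine lt_of_le_of_lt (card_le_card ?_) h3
      intro e he
      rw [mem_filter] at he ⊢
      obtain ⟨-, h4, h5, h6⟩ := he
      exact ⟨mem_univ _, (mem_inter.1 h4).1, fun h => h6 (mem_inter.2 ⟨h, h5⟩)⟩
  · intro A hA B hB hAB hP
    have hs := gP_submod tail head P A B
    have hA' := hA.2.2.2
    have hB' := hB.2.2.2
    by_cases h : gP tail head P (A ∩ B) < r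
    · left
      refine ⟨inter_subset_left.trans hA.1, hAB, ?_, h⟩
      intro h1
      apply hA.2.2.1
      apply subset_antisymm hA.1
      rw [← h1]
      exact inter_subset_left
    · right
      exact ⟨union_subset hA.1 hB.1, hA.2.1.mono subset_union_left, hP, by omega⟩

end Pool.Agent.Work.MP_542d22_co
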