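import Pool.Agent.Work.MP_542d22_co.Rooted

/-!
MODULE IC (small). ic: for every r, F an Inst on P, 2 ≤ |P|, r ≤ |P|.
 r ≤ 2: exists_nonface (no point c of P is in all members: hI.sep v c for another point v) and nonface_indep: |R| = |N| ≥ 2 ≥ r.
 r ≥ 3: Core r P F ∅ (ih from r1_all), core_main, tok ∅ = ∅ (T ⊆ ∅). |R| ≥ 2: |R| ≥ |Qa|, and Qa has at least two members
  (P nonempty; a single member has a point of P).
-/

set_option autoImplicit false

namespace Pool.Agent.Work.MP_542d22_co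

open Classical Finset

variable {V : Type}

theorem ic {r : ℕ} {P : Finset V} {F : Set (Finset V)} (hI : Inst P F) (h2 : 2 ≤ P.card)
    (hrP : r ≤ P.card) :
    ∃ (Q : Finset (Finset V)) (R : Finset V), (∀ Z ∈ Q, Z ∈ F) ∧ Indep P Q R ∧
      Q.card ≤ R.card ∧ 2 ≤ R.card ∧ (r ≤ R.card ∨ ∃ u ∈ R, Small P Q r u) := by
  have hP : P.Nonempty := Finset.card_pos.1 (by omega)
  rcases Nat.lt_or_ge r 3 with hr | hr
  · have hA : ∀ y ∈ P, ∃ X ∈ F, y ∉ X := by
      intro y hy
      obtain ⟨v, hv, hvy⟩ := Finset.exists_mem_ne (by omega : 1 < P.card) y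
      obtain ⟨Z, hZ, _, h1⟩ := hI.sep v hv y hy hvy
      exact ⟨Z, hZ, h1⟩
    obtain ⟨N, h1, h3, h4, h5⟩ := exists_nonface hP hI.sub hI.ne hA
    have hne : Nonempty V := ⟨hP.choose⟩
    choose! k hk using h4
    obtain ⟨h6, h7⟩ := nonface_indep h3 k hk
    exact ⟨N, N.image k, h1, h6, h7.ge, by omega, Or.inl (by omega)⟩
  · have hcore : Core r P F ∅ :=
      { r3 := hr
        card := hrP
        sub := hI.sub
        ne := hI.ne
        proper := hI.proper
        Lsub := Finset.empty_subset P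
        Lcard := by simp; omega
        sep := fun u hu _ v hv huv => hI.sep u hu v hv huv
        wc := hI.wc
        ih := fun S' h1 _ => r1_all hr S' h1 }
    obtain ⟨Qa, T, R, h1, h3, h4, h5, h6, h7⟩ := core_main hcore
    obtain rfl : T = ∅ := Finset.subset_empty.1 h4
    have h8 : Qa ∪ tok (∅ : Finset V) = Qa := by simp [tok]
    rw [h8] at h5 h7
    rw [Finset.card_empty, add_zero] at h6
    have h9 : 2 ≤ Qa.card := by
      by_contra hlt
      obtain ⟨y, hy⟩ := hP
      obtain ⟨X, hX, _⟩ := h3 y hy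
      have h10 : Qa = {X} := by
        have h11 : Qa.card ≤ 1 := by omega
        rw [Finset.card_le_one] at h11
        ext Z
        rw [Finset.mem_singleton]
        exact ⟨fun hZ => h11 Z hZ X hX, fun hZ => hZ ▸ hX⟩
      obtain ⟨x, hx⟩ := hI.ne X (h1 X hX)
      obtain ⟨Z, hZ, hxZ⟩ := h3 x (hI.sub X (h1 X hX) hx)
      rw [h10, Finset.mem_singleton] at hZ
      rw [hZ] at hxZ
      exact hxZ hx
    exact ⟨Qa, R, h1, h5, h6, by omega, h7⟩

end Pool.Agent.Work.MP_542d22_co
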