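import Pool.Agent.Work.MP_542d22_co.GraphB
import Pool.Agent.Work.MP_542d22_co.GraphI
import Pool.Agent.Work.MP_542d22_co.GraphC
import Pool.Agent.Work.MP_542d22_co.IC

/-!
MODULE GraphM (medium): good_pair from the others. P from minimal_B; rich gives r + 1 ≤ |P|; if there is no good pair then graph_inst, ic.
 main: |Q| = k ≤ m = |R|, m ≥ 2. All cl are nonempty proper subsets of P (m ≥ 2), so out ≥ r:
 r m ≤ ∑ ≤ (r - 1)(k + 1) ≤ (r-1)(m+1) gives m ≤ r - 1; with a small one: r (m - 1) + 2 (r - 1) ≤ (r-1)(m+1) gives m ≤ 1.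
 Conclusion good_pair: some x ≠ y with r ≤ out X for all X ∋ x, y ∉ X.  (r ≥ 1.)
-/

set_option autoImplicit false

namespace Pool.Agent.Work.MP_542d22_co

open Classical Finset

variable {V E : Type}

theorem good_pair [Fintype V] [Fintype E] [Nonempty V] (tail head : E → V) {r : ℕ} (hr : 1 ≤ r)
    (hl : ∀ e, tail e ≠ head e) (hs : Function.Injective (fun e => (tail e, head e)))
    (hdeg : ∀ v : V, r ≤ (univ.filter (fun e : E => tail e = v)).card) :
    ∃ x y : V, x ≠ y ∧ ∀ X : Finset V, x ∈ X → y ∉ X → r ≤ outc tail head X := by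
  obtain ⟨P, hne, hPr, hmin⟩ := minimal_B tail head hr
  by_contra hno
  push Not at hno
  have hrP : r + 1 ≤ P.card := by
    by_contra hlt
    have hc : P.card ≤ r := by omega
    have h1 := rich tail head hl hs hdeg P hne hc
    obtain ⟨a, ha⟩ : ∃ a, P.card = a + 1 := ⟨P.card - 1, by
      have := hne.card_pos
      omega⟩
    obtain ⟨b, hb⟩ : ∃ b, r = P.card + b := ⟨r - P.card, by omega⟩
    have h2 : r + 1 - P.card = b + 1 := by omega
    rw [h2, ha] at h1
    have h3 : (a + 1) * (b + 1) = a * b + a + b + 1 := by ring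
    have h4 : 0 ≤ a * b := Nat.zero_le _
    omega
  have hI := graph_inst tail head hno (P := P)
  obtain ⟨Q, R, hQF, hInd, hQR, hR2, hor⟩ := ic hI (r := r) (by omega) (by omega)
  have hineq := cert_ineq tail head (fun Z hZ => (hQF Z hZ).1) hInd
  have hsumQ : ∑ Z ∈ Q, gP tail head P Z ≤ Q.card * (r - 1) := by
    refine Finset.sum_le_card_nsmul Q _ (r - 1) fun Z hZ => ?_
    have := (hQF Z hZ).2.2.2
    omega
  have hout : ∀ u ∈ R, r ≤ outc tail head (cl P Q u) := by
    intro u hu
    refine hmin _ (filter_subset _ _) ⟨u, mem_cl.2 ⟨hInd.1 hu, Dom.refl Q u⟩⟩ ?_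
    intro hcl
    obtain ⟨v, hv, hvu⟩ : ∃ v ∈ R, v ≠ u := by
      by_contra hall
      push Not at hall
      have : R ⊆ {u} := fun x hx => mem_singleton.2 (hall x hx)
      have h1 := card_le_card this
      rw [card_singleton] at h1
      omega
    have hvP := hInd.1 hv
    have h1 : v ∈ cl P Q u := by rw [hcl]; exact hvP
    exact hInd.2 u hu v hv hvu.symm v hvP (mem_cl.1 h1).2 (Dom.refl Q v)
  obtain ⟨s, hs'⟩ : ∃ s, r = s + 1 := ⟨r - 1, by omega⟩
  have hQm : Q.card * (r - 1) ≤ R.card * (r - 1) := Nat.mul_le_mul_right _ hQR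
  have hr1 : r - 1 = s := by omega
  rw [hr1] at hQm hsumQ
  rcases hor with h | ⟨u, hu, hsm⟩
  · have h1 : R.card * r ≤ ∑ u ∈ R, outc tail head (cl P Q u) := by
      have := Finset.card_nsmul_le_sum R (fun u => outc tail head (cl P Q u)) r hout
      simpa using this
    rw [hs', Nat.mul_succ] at h1
    omega
  · have h1 : (R.erase u).card * r ≤ ∑ v ∈ R.erase u, outc tail head (cl P Q v) := by
      have := Finset.card_nsmul_le_sum (R.erase u) (fun u => outc tail head (cl P Q u)) r
        (fun v hv => hout v (mem_of_mem_erase hv))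
      simpa using this
    have h2 : ∑ v ∈ R.erase u, outc tail head (cl P Q v) + outc tail head (cl P Q u) =
        ∑ u ∈ R, outc tail head (cl P Q u) := Finset.sum_erase_add R _ hu
    obtain ⟨hs1, hs2, -⟩ := hsm
    have h3 := rich tail head hl hs hdeg (cl P Q u)
      ⟨u, mem_cl.2 ⟨hInd.1 hu, Dom.refl Q u⟩⟩ (by omega)
    obtain ⟨a, ha⟩ : ∃ a, (cl P Q u).card = a + 2 := ⟨(cl P Q u).card - 2, by omega⟩
    obtain ⟨b, hb⟩ : ∃ b, r = (cl P Q u).card + 1 + b := ⟨r - 1 - (cl P Q u).card, by omega⟩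
    have h4 : r + 1 - (cl P Q u).card = b + 2 := by omega
    rw [h4, ha] at h3
    have h5 : (a + 2) * (b + 2) = a * b + 2 * a + 2 * b + 4 := by ring
    have h6 : 0 ≤ a * b := Nat.zero_le _
    rw [card_erase_of_mem hu] at h1
    obtain ⟨m, hm⟩ : ∃ m, R.card = m + 2 := ⟨R.card - 2, by omega⟩
    have h7 : (R.card - 1) * r = (m + 1) * s + (m + 1) := by
      rw [hm, hs']
      simp only [show m + 2 - 1 = m + 1 by omega]
      ring
    have h8 : R.card * s = (m + 1) * s + s := by
      rw [hm]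
      ring
    omega

end Pool.Agent.Work.MP_542d22_co
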