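import Pool.Agent.Work.MP_542d22_co.GraphDefs

/-!
MODULE GraphB (medium, 2 lemmas). A finite digraph: V, E finite, tail, head : E → V, loopless, simple (no two edges with the same tail and
head), all out-degrees ≥ r.
 outc X := number of edges leaving X;  gP P Z := number of edges from Z to P \ Z.

minimal_B: there is a nonempty P with out P ≤ r - 1 (out P < r), and r ≤ out Z for every nonempty Z ⊂ P (univ has out 0; exists_min_card).
rich: for a nonempty C with |C| ≤ r: out C ≥ |C| (r + 1 - |C|): every u ∈ C has ≥ r out-edges, at most |C| - 1 of them have head in C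
 (injective to C.erase u by simplicity and looplessness). So |C| ≤ r gives out C ≥ r; 2 ≤ |C| < r gives out C ≥ 2 r - 2
 (|C|(r+1-|C|) ≥ 2 (r - 1) for 2 ≤ |C| ≤ r - 1). Hence r + 1 ≤ |P|.
-/

set_option autoImplicit false

namespace Pool.Agent.Work.MP_542d22_co

open Classical Finset

variable {V E : Type}

theorem minimal_B [Fintype V] [Fintype E] [Nonempty V] (tail head : E → V) {r : ℕ} (hr : 1 ≤ r) :
    ∃ P : Finset V, P.Nonempty ∧ outc tail head P < r ∧
      ∀ Z ⊆ P, Z.Nonempty → Z ≠ P → r ≤ outc tail head Z := by
  have h0 : ∃ Q : Finset V, Q.Nonempty ∧ outc tail head Q < r := by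
    refine ⟨univ, univ_nonempty, ?_⟩
    have h1 : outc tail head (univ : Finset V) = 0 := by
      unfold outc
      rw [Finset.card_eq_zero]
      exact Finset.filter_false_of_mem fun e _ h => h.2 (Finset.mem_univ _)
    omega
  obtain ⟨P, hP, hmin⟩ := exists_min_card (fun Q : Finset V => Q.Nonempty ∧ outc tail head Q < r) h0
  refine ⟨P, hP.1, hP.2, fun Z hZ hne hZP => ?_⟩
  by_contra hlt
  have h1 := hmin Z ⟨hne, not_le.1 hlt⟩
  exact hZP (Finset.eq_of_subset_of_card_le hZ h1)

theorem rich [Fintype V] [Fintype E] (tail head : E → V) {r : ℕ}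
    (hl : ∀ e, tail e ≠ head e) (hs : Function.Injective (fun e => (tail e, head e)))
    (hdeg : ∀ v : V, r ≤ (univ.filter (fun e : E => tail e = v)).card) (C : Finset V)
    (hC : C.Nonempty) (hr : C.card ≤ r) :
    C.card * (r + 1 - C.card) ≤ outc tail head C := by
  have h1 : ∀ u ∈ C, r + 1 - C.card ≤
      (univ.filter (fun e : E => tail e = u ∧ head e ∉ C)).card := by
    intro u hu
    have h2 : (univ.filter (fun e : E => tail e = u ∧ head e ∈ C)).card ≤ (C.erase u).card := by
      refine Finset.card_le_card_of_injOn head ?_ ?_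
      · intro e he
        have he' : tail e = u ∧ head e ∈ C := by simpa using he
        rw [Finset.mem_coe, Finset.mem_erase]
        exact ⟨fun h => hl e (by rw [he'.1, h]), he'.2⟩
      · intro e he e' he' h
        have h3 : tail e = u ∧ head e ∈ C := by simpa using he
        have h4 : tail e' = u ∧ head e' ∈ C := by simpa using he'
        apply hs
        simp only [Prod.mk.injEq]
        exact ⟨h3.1.trans h4.1.symm, h⟩
    rw [Finset.card_erase_of_mem hu] at h2
    have h3 : (univ.filter (fun e : E => tail e = u ∧ head e ∈ C)).card +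
        (univ.filter (fun e : E => tail e = u ∧ head e ∉ C)).card =
        (univ.filter (fun e : E => tail e = u)).card := by
      rw [← Finset.filter_filter, ← Finset.filter_filter]
      exact Finset.card_filter_add_card_filter_not _
    have h4 := hdeg u
    have h5 : 1 ≤ C.card := Finset.card_pos.2 ⟨u, hu⟩
    omega
  have h2 : outc tail head C =
      ∑ u ∈ C, (univ.filter (fun e : E => tail e = u ∧ head e ∉ C)).card := by
    unfold outc
    rw [Finset.card_eq_sum_card_fiberwise (f := tail) (t := C)]
    · refine Finset.sum_congr rfl fun u hu => ?_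
      congr 1
      ext e
      simp only [Finset.mem_filter, Finset.mem_univ, true_and]
      constructor
      · rintro ⟨⟨_, h⟩, h'⟩
        exact ⟨h', h⟩
      · rintro ⟨h, h'⟩
        exact ⟨⟨by rw [h]; exact hu, h'⟩, h⟩
    · intro e he
      have h3 : tail e ∈ C ∧ head e ∉ C := by simpa using he
      exact h3.1
  rw [h2, ← smul_eq_mul]
  exact Finset.card_nsmul_le_sum _ _ _ h1

end Pool.Agent.Work.MP_542d22_co
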