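import Pool.Agent.Work.MP_542d22_co.Defs

/-! Graph definitions. -/

set_option autoImplicit false

namespace Pool.Agent.Work.MP_542d22_co

open Classical Finset

variable {V E : Type}

/-- Number of edges leaving `X`. -/
noncomputable def outc [Fintype E] (tail head : E → V) (X : Finset V) : ℕ :=
  (univ.filter (fun e : E => tail e ∈ X ∧ head e ∉ X)).card

/-- Number of edges from `Z` to `P \ Z`. -/
noncomputable def gP [Fintype E] (tail head : E → V) (P Z : Finset V) : ℕ :=
  (univ.filter (fun e : E => tail e ∈ Z ∧ head e ∈ P ∧ head e ∉ Z)).card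

end Pool.Agent.Work.MP_542d22_co
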