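import Pool.Agent.Work.MP_542d22_co.NoPairD

/-!
MODULE NoPair (medium, 3 lemmas). Any two members of A meet (hno).

noPair_claim. N a nonface of minimal members, X ∈ N, a ∈ S in all members of N other than X, u ∈ S, u ∉ X, u ≠ a, u ∉ L: CoreOut.
Proof. a ∉ X (nonface_notMem). For every x ∈ X there is W_x ∈ A, x ∉ W_x, a, u ∈ W_x: h.sep u x gives W ∈ A, u ∈ W, x ∉ W; hN x gives
B ∈ N, x ∉ B, so B ≠ X, a ∈ B; coh (B minimal): B ∪ W ∈ A (it misses x ∈ S so it is not S).  Take M of minimal card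
(exists_min_card) with (∀ Z ∈ M, Z ∈ A ∧ a ∈ Z ∧ u ∈ Z) ∧ ∀ x ∈ X, ∃ Z ∈ M, x ∉ Z (X.image W_x is one). For Z ∈ M, M.erase Z has
smaller card, so some b ∈ X is in all its members. Apply noPair_D with A1 := X.

core_6. Proof. By contradiction assume ¬ CoreOut.
 (1) no c ∈ S is in all members of A: every u ∈ S, u ≠ c is in L (h.sep u c), so |S| - 1 ≤ |L|: contradiction with Lcard, card.
 (2) same for the minimal members Amin := {X ∈ A | ∀ Z ∈ A, Z ⊆ X → Z = X} (every member contains a minimal one, by finiteness).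
 (3) exists_nonface for Amin: N, and choose k X for X ∈ N.  (S is nonempty.)
 (4) If X ∈ N and a, y ∈ S are in all members of N other than X, a ≠ y, then (both are ∉ X) by noPair_claim a ∈ L and y ∈ L.
  Let K_X = {y ∈ S | in all members of N other than X}. If |K_X| ≥ 2: K_X ⊆ L, so |K_X| ≤ |L| < r and CoreOut holds with Qa = N,
  T = ∅, R = N.image k (nonface_indep), small point k X (nonface_dom: cl S N (k X) = K_X, twins). Contradiction. So K_X = {k X}.
 (5) every u ∈ S, u ∉ X for some X ∈ N (nonface): u = k X or u ∈ L (noPair_claim with a = k X). So S ⊆ N.image k ∪ L.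
 (6) CoreOut with Qa = N, T = L \ N.image k, R = S: u ≠ v ∈ S, p ∈ S, Dom u p, Dom v p. If u ∈ T: p = u; if also v ∈ T: p = v, no.
  u ∈ T, v = k X: p = u is in all members ≠ X, so u ∈ K_X = {k X} = {v}, no. u = k X, v = k Y, X ≠ Y: p in all members of N, no.
  |N| + |T| = |N.image k| + |L \ N.image k| ≤ |S|, r ≤ |S|.

(not part of this module) core_main: Core → CoreOut. If two members are disjoint, say X, Y: if every disjoint pair has |X| = 1: core_5a. Otherwise X', Y' disjoint with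
|X'| ≠ 1, so 2 ≤ |X'| (nonempty): |X'| < r: pair_small; r ≤ |X'|: core_5b. No disjoint pair: core_6.
-/

set_option autoImplicit false

namespace Pool.Agent.Work.MP_542d22_co

open Classical Finset

variable {V : Type}

theorem noPair_claim {r : ℕ} {S : Finset V} {A : Set (Finset V)} {L : Finset V} (h : Core r S A L)
    (hno : ∀ X ∈ A, ∀ Y ∈ A, (X ∩ Y).Nonempty) {N : Finset (Finset V)}
    (hNA : ∀ X ∈ N, X ∈ A ∧ ∀ Z ∈ A, Z ⊆ X → Z = X) (hN : ∀ y ∈ S, ∃ X ∈ N, y ∉ X)
    {X : Finset V} (hX : X ∈ N) {a u : V} (ha : a ∈ S) (hka : ∀ Z ∈ N, Z ≠ X → a ∈ Z)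
    (hu : u ∈ S) (hu1 : u ∉ X) (hau : a ≠ u) (huL : u ∉ L) : CoreOut r S A L := by
  have hXA := (hNA X hX).1
  have hXm := (hNA X hX).2
  have haX : a ∉ X := nonface_notMem hN ha hka
  have hW : ∀ x ∈ X, ∃ W ∈ A, x ∉ W ∧ a ∈ W ∧ u ∈ W := by
    intro x hx
    have hxS : x ∈ S := h.sub X hXA hx
    have hux : u ≠ x := fun e => hu1 (e ▸ hx)
    obtain ⟨W, hWA, huW, hxW⟩ := h.sep u hu huL x hxS hux
    obtain ⟨B, hB, hxB⟩ := hN x hxS
    have hBX : B ≠ X := fun e => hxB (e ▸ hx)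
    have haB : a ∈ B := hka B hB hBX
    rcases coh h hno (hNA B hB).1 (hNA B hB).2 hWA with h1 | h1
    · exact ⟨B ∪ W, h1, by simp [hxB, hxW], by simp [haB], by simp [huW]⟩
    · exfalso
      have h2 : x ∈ B ∪ W := h1 ▸ hxS
      simp [hxB, hxW] at h2
  choose! W hW using hW
  obtain ⟨M, ⟨hM1, hM2⟩, hMmin⟩ := exists_min_card
    (fun M : Finset (Finset V) => (∀ Z ∈ M, Z ∈ A ∧ a ∈ Z ∧ u ∈ Z) ∧ ∀ x ∈ X, ∃ Z ∈ M, x ∉ Z)
    ⟨X.image W, by
      intro Z hZ
      obtain ⟨x, hx, rfl⟩ := Finset.mem_image.1 hZ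
      exact ⟨(hW x hx).1, (hW x hx).2.2.1, (hW x hx).2.2.2⟩, by
      intro x hx
      exact ⟨W x, Finset.mem_image_of_mem W hx, (hW x hx).2.1⟩⟩
  refine noPair_D h hno hXA hXm ha hu hau haX hu1 M hM1 hM2 ?_
  intro Z hZ
  by_contra hcon
  push Not at hcon
  have h3 := hMmin (M.erase Z) ⟨fun Z' hZ' => hM1 Z' (Finset.mem_of_mem_erase hZ'), fun x hx => by
    obtain ⟨W', hW', hne, hx'⟩ := hcon x hx
    exact ⟨W', Finset.mem_erase.2 ⟨hne, hW'⟩, hx'⟩⟩
  have h4 := Finset.card_erase_lt_of_mem hZ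
  omega

theorem core_6 {r : ℕ} {S : Finset V} {A : Set (Finset V)} {L : Finset V} (h : Core r S A L)
    (hno : ∀ X ∈ A, ∀ Y ∈ A, (X ∩ Y).Nonempty) : CoreOut r S A L := by
  by_contra hc
  have hr3 := h.r3
  have hcard := h.card
  have hLc := h.Lcard
  have hS : S.Nonempty := by
    rw [← Finset.card_pos]
    omega
  -- no point is in all members
  have h1 : ∀ c ∈ S, ∃ X ∈ A, c ∉ X := by
    intro c hcS
    by_contra hcon
    push Not at hcon
    have hsub : S.erase c ⊆ L := by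
      intro u hu
      rw [Finset.mem_erase] at hu
      by_contra huL
      obtain ⟨X, hX, -, hcX⟩ := h.sep u hu.2 huL c hcS hu.1
      exact hcX (hcon X hX)
    have h2 := Finset.card_le_card hsub
    rw [Finset.card_erase_of_mem hcS] at h2
    omega
  have h2 : ∀ c ∈ S, ∃ X ∈ {X : Finset V | X ∈ A ∧ ∀ Z ∈ A, Z ⊆ X → Z = X}, c ∉ X := by
    intro c hcS
    obtain ⟨X, hX, hcX⟩ := h1 c hcS
    obtain ⟨Z, ⟨hZA, hZX⟩, hZm⟩ := exists_min_card (fun Z : Finset V => Z ∈ A ∧ Z ⊆ X)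
      ⟨X, hX, Finset.Subset.refl X⟩
    refine ⟨Z, ⟨hZA, fun Z' hZ' hs => ?_⟩, fun hcZ => hcX (hZX hcZ)⟩
    exact Finset.eq_of_subset_of_card_le hs (hZm Z' ⟨hZ', hs.trans hZX⟩)
  obtain ⟨N, hNA, hN, hk, hN2⟩ := exists_nonface hS (fun X hX => h.sub X hX.1)
    (fun X hX => h.ne X hX.1) h2
  have hNA' : ∀ X ∈ N, X ∈ A ∧ ∀ Z ∈ A, Z ⊆ X → Z = X := hNA
  have hV : Nonempty V := ⟨hS.choose⟩
  choose! k hk using hk
  have hI := nonface_indep hN k hk
  -- the closures of the points `k X`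
  have h4 : ∀ X ∈ N, ∀ y ∈ S, (∀ Z ∈ N, Z ≠ X → y ∈ Z) → y = k X := by
    intro X hX y hy hyX
    by_contra hne
    apply hc
    have hkS := (hk X hX).1
    have hkX := (hk X hX).2
    have hL : ∀ z ∈ S, (∀ Z ∈ N, Z ≠ X → z ∈ Z) → z ∈ L := by
      intro z hz hzX
      by_contra hzL
      have hzX' : z ∉ X := nonface_notMem hN hz hzX
      by_cases hzk : z = k X
      · exact hc (noPair_claim h hno hNA' hN hX hy hyX hz hzX' (by rw [hzk]; exact hne) hzL)
      · exact hc (noPair_claim h hno hNA' hN hX hkS hkX hz hzX' (fun e => hzk e.symm) hzL)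
    have ht : N ∪ tok (∅ : Finset V) = N := by simp [tok]
    refine ⟨N, ∅, N.image k, fun Z hZ => (hNA' Z hZ).1, hN, Finset.empty_subset _, ?_, ?_, Or.inr
      ⟨k X, Finset.mem_image_of_mem k hX, ?_⟩⟩
    · rw [ht]
      exact hI.1
    · rw [hI.2]
      simp
    · rw [ht]
      have hsub : cl S N (k X) ⊆ L := by
        intro z hz
        rw [mem_cl] at hz
        exact hL z hz.1 ((nonface_dom hN hX hkS hz.1 hkX).1.1 hz.2)
      refine ⟨?_, ?_, fun v hv hd => (nonface_dom hN hX hkS hv hkX).2 hd⟩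
      · have h5 : ({k X, y} : Finset V) ⊆ cl S N (k X) := by
          intro z hz
          rw [Finset.mem_insert, Finset.mem_singleton] at hz
          rw [mem_cl]
          rcases hz with rfl | rfl
          · exact ⟨hkS, Dom.refl _ _⟩
          · exact ⟨hy, (nonface_dom hN hX hkS hy hkX).1.2 hyX⟩
        have h6 := Finset.card_le_card h5
        rwa [Finset.card_pair (fun e => hne e.symm)] at h6
      · have h6 := Finset.card_le_card hsub
        omega
  have h5 : ∀ u ∈ S, u ∉ L \ N.image k → ∃ X ∈ N, u = k X := by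
    intro u hu huT
    obtain ⟨X, hX, huX⟩ := hN u hu
    by_cases huk : u = k X
    · exact ⟨X, hX, huk⟩
    · have huL : u ∈ L := by
        by_contra huL
        exact hc (noPair_claim h hno hNA' hN hX (hk X hX).1 (hk X hX).2 hu huX
          (fun e => huk e.symm) huL)
      rw [Finset.mem_sdiff, not_and, not_not] at huT
      obtain ⟨Y, hY, hYu⟩ := Finset.mem_image.1 (huT huL)
      exact ⟨Y, hY, hYu.symm⟩
  apply hc
  have hT : ∀ v ∈ L \ N.image k, {v} ∈ N ∪ tok (L \ N.image k) := by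
    intro v hv
    exact Finset.mem_union_right _ (mem_tok.2 ⟨v, hv, rfl⟩)
  have hdom : ∀ X ∈ N, ∀ p, Dom (N ∪ tok (L \ N.image k)) (k X) p → ∀ Z ∈ N, Z ≠ X → p ∈ Z := by
    intro X hX p hd Z hZ hne
    exact hd Z (Finset.mem_union_left _ hZ) ((hk X hX).2 Z hZ hne)
  refine ⟨N, L \ N.image k, S, fun Z hZ => (hNA' Z hZ).1, hN, Finset.sdiff_subset, ?_, ?_,
    Or.inl hcard⟩
  · refine ⟨Finset.Subset.refl S, ?_⟩
    intro u hu v hv huv p hp hup hvp
    by_cases huT : u ∈ L \ N.image k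
    · have hpu := eq_of_dom_tok (hT u huT) hup
      subst hpu
      by_cases hvT : v ∈ L \ N.image k
      · exact huv (eq_of_dom_tok (hT v hvT) hvp)
      · obtain ⟨Y, hY, rfl⟩ := h5 v hv hvT
        exact huv (h4 Y hY p hu (hdom Y hY p hvp))
    · obtain ⟨X, hX, rfl⟩ := h5 u hu huT
      by_cases hvT : v ∈ L \ N.image k
      · have hpv := eq_of_dom_tok (hT v hvT) hvp
        subst hpv
        exact huv (h4 X hX p hv (hdom X hX p hup)).symm
      · obtain ⟨Y, hY, rfl⟩ := h5 v hv hvT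
        obtain ⟨Z, hZ, hpZ⟩ := hN p hp
        by_cases hZX : Z = X
        · by_cases hZY : Z = Y
          · exact huv (by rw [← hZX, ← hZY])
          · exact hpZ (hdom Y hY p hvp Z hZ hZY)
        · exact hpZ (hdom X hX p hup Z hZ hZX)
  · have h6 : N.image k ∪ (L \ N.image k) ⊆ S := by
      intro z hz
      rw [Finset.mem_union, Finset.mem_sdiff] at hz
      rcases hz with hz | hz
      · exact hI.1.1 hz
      · exact h.Lsub hz.1
    have h7 := Finset.card_le_card h6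
    rw [Finset.card_union_of_disjoint Finset.disjoint_sdiff, hI.2] at h7
    exact h7

end Pool.Agent.Work.MP_542d22_co
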