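import Pool.Agent.Work.MP_542d22_co.Defs

/-!
MODULE NonFace (small). A minimal nonface N on S (`hN`: no point of S is in all members; `hk`: for every X ∈ N there is a point
k X ∈ S which is in all the other members). Then k X ∉ X; the k X are distinct; R := N.image k is Indep on S for N, |R| = |N|;
cl S N (k X) = {y ∈ S : y in all members of N other than X}, all of them twins of k X (their type is N \ {X}).

nonface_indep: Indep S N (N.image k) ∧ (N.image k).card = N.card. (If p ∈ S, Dom N (k X) p and Dom N (k Y) p with X ≠ Y then p is in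
 every member: a member Z ≠ X contains k X, so p ∈ Z; X contains k Y.)
nonface_cl: y ∈ S in all members except X: Dom N (k X) y and Dom N y (k X). And mem: Dom N (k X) y ↔ ∀ Z ∈ N, Z ≠ X → y ∈ Z.

exists_nonface: if no point of S is in all members of the set family A, S nonempty, all members of A subsets of S (so finitely many),
then there is a Finset N of members of A with hN and, for every X ∈ N, a point of S in all the others, and 2 ≤ |N| if the members
meet S (are nonempty subsets).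
Proof: exists_min_card (Defs) for p N := (∀ X ∈ N, X ∈ A) ∧ (∀ y ∈ S, ∃ X ∈ N, y ∉ X); nonempty because
N = S.powerset.filter (· ∈ A) works. N.erase X has smaller card, so some y ∈ S is in all its members. |N| ≥ 2: N = ∅ is
impossible (S nonempty), N = {X}: a point of X is in all members.
-/

set_option autoImplicit false

namespace Pool.Agent.Work.MP_542d22_co

open Classical Finset

variable {V : Type}

theorem nonface_notMem {S : Finset V} {N : Finset (Finset V)} (hN : ∀ y ∈ S, ∃ X ∈ N, y ∉ X)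
    {X : Finset V} {y : V} (hy : y ∈ S) (h : ∀ Z ∈ N, Z ≠ X → y ∈ Z) : y ∉ X := by
  obtain ⟨W, hW, hyW⟩ := hN y hy
  by_cases hWX : W = X
  · rwa [hWX] at hyW
  · exact absurd (h W hW hWX) hyW

theorem nonface_indep {S : Finset V} {N : Finset (Finset V)} (hN : ∀ y ∈ S, ∃ X ∈ N, y ∉ X)
    (k : Finset V → V) (hk : ∀ X ∈ N, k X ∈ S ∧ ∀ Z ∈ N, Z ≠ X → k X ∈ Z) :
    Indep S N (N.image k) ∧ (N.image k).card = N.card := by
  refine ⟨⟨?_, ?_⟩, ?_⟩
  · intro u hu
    obtain ⟨X, hX, rfl⟩ := Finset.mem_image.1 hu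
    exact (hk X hX).1
  · intro u hu v hv huv p hp h1 h2
    obtain ⟨X, hX, rfl⟩ := Finset.mem_image.1 hu
    obtain ⟨Y, hY, rfl⟩ := Finset.mem_image.1 hv
    have hXY : X ≠ Y := fun h => huv (by rw [h])
    obtain ⟨W, hW, hpW⟩ := hN p hp
    by_cases hWX : W = X
    · subst hWX
      exact hpW (h2 W hW ((hk Y hY).2 W hW hXY))
    · exact hpW (h1 W hW ((hk X hX).2 W hW hWX))
  · refine Finset.card_image_of_injOn fun X hX Y hY hXY => ?_
    have hX' : X ∈ N := hX
    have hY' : Y ∈ N := hY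
    by_contra hne
    have h1 : k X ∈ Y := (hk X hX').2 Y hY' (Ne.symm hne)
    have h2 : k Y ∉ Y := nonface_notMem hN (hk Y hY').1 (hk Y hY').2
    exact h2 (by rw [← hXY]; exact h1)

theorem nonface_dom {S : Finset V} {N : Finset (Finset V)} (hN : ∀ y ∈ S, ∃ X ∈ N, y ∉ X)
    {X : Finset V} (hX : X ∈ N) {a y : V} (ha : a ∈ S) (hy : y ∈ S)
    (h : ∀ Z ∈ N, Z ≠ X → a ∈ Z) :
    (Dom N a y ↔ ∀ Z ∈ N, Z ≠ X → y ∈ Z) ∧ (Dom N a y → Dom N y a) := by
  have haX : a ∉ X := nonface_notMem hN ha h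
  have h1 : Dom N a y ↔ ∀ Z ∈ N, Z ≠ X → y ∈ Z := by
    constructor
    · intro hd Z hZ hZX
      exact hd Z hZ (h Z hZ hZX)
    · intro hd Z hZ haZ
      exact hd Z hZ fun hZX => haX (hZX ▸ haZ)
  refine ⟨h1, fun hd Z hZ hyZ => ?_⟩
  have hyX : y ∉ X := nonface_notMem hN hy (h1.1 hd)
  exact h Z hZ fun hZX => hyX (hZX ▸ hyZ)

theorem exists_nonface {S : Finset V} {A : Set (Finset V)} (hS : S.Nonempty)
    (hsub : ∀ X ∈ A, X ⊆ S) (hne : ∀ X ∈ A, X.Nonempty) (hA : ∀ y ∈ S, ∃ X ∈ A, y ∉ X) :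
    ∃ N : Finset (Finset V), (∀ X ∈ N, X ∈ A) ∧ (∀ y ∈ S, ∃ X ∈ N, y ∉ X) ∧
      (∀ X ∈ N, ∃ a ∈ S, ∀ Z ∈ N, Z ≠ X → a ∈ Z) ∧ 2 ≤ N.card := by
  obtain ⟨N, ⟨hNA, hN⟩, hmin⟩ := exists_min_card
    (fun N : Finset (Finset V) => (∀ X ∈ N, X ∈ A) ∧ (∀ y ∈ S, ∃ X ∈ N, y ∉ X)) (by
      refine ⟨S.powerset.filter (fun X => X ∈ A), ?_, ?_⟩
      · intro X hX
        exact (Finset.mem_filter.1 hX).2
      · intro y hy
        obtain ⟨X, hX, hyX⟩ := hA y hy
        exact ⟨X, Finset.mem_filter.2 ⟨Finset.mem_powerset.2 (hsub X hX), hX⟩, hyX⟩)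
  have hface : ∀ X ∈ N, ∃ a ∈ S, ∀ Z ∈ N, Z ≠ X → a ∈ Z := by
    intro X hX
    by_contra hcon
    push Not at hcon
    have h1 := hmin (N.erase X) ⟨fun Z hZ => hNA Z (Finset.mem_of_mem_erase hZ), fun y hy => by
      obtain ⟨Z, hZ, hZX, hyZ⟩ := hcon y hy
      exact ⟨Z, Finset.mem_erase.2 ⟨hZX, hZ⟩, hyZ⟩⟩
    rw [Finset.card_erase_of_mem hX] at h1
    have h2 : 0 < N.card := Finset.card_pos.2 ⟨X, hX⟩
    omega
  refine ⟨N, hNA, hN, hface, ?_⟩
  obtain ⟨y, hy⟩ := hS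
  obtain ⟨X, hX, hyX⟩ := hN y hy
  obtain ⟨x, hx⟩ := hne X (hNA X hX)
  obtain ⟨Y, hY, hxY⟩ := hN x (hsub X (hNA X hX) hx)
  have hXY : X ≠ Y := fun h => hxY (h ▸ hx)
  have h1 : ({X, Y} : Finset (Finset V)) ⊆ N := by
    intro Z hZ
    rcases Finset.mem_insert.1 hZ with h | h
    · rw [h]; exact hX
    · rw [Finset.mem_singleton.1 h]; exact hY
  have h2 := Finset.card_le_card h1
  rwa [Finset.card_pair hXY] at h2

end Pool.Agent.Work.MP_542d22_co
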