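import Pool.Agent.Work.MP_542d22_co.NoPairInst
import Pool.Agent.Work.MP_542d22_co.NonFace

/-!
MODULE NoPairD (large, the heart). A1 ∈ A minimal, M a Finset of members of A, all containing the two points a ≠ u of S (not in A1),
every x ∈ A1 is missed by some member of M, and for every Z ∈ M there is b ∈ A1 in all the other members of M. Then CoreOut.
Proof. D := S.filter (in all members of M); a, u ∈ D; D disjoint from A1. M ≠ ∅ (A1 ≠ ∅). N1 := insert A1 M, A1 ∉ M (a ∈ Z, a ∉ A1).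
N1 is a nonface (y ∈ A1: some Z ∈ M misses y; y ∉ A1: A1), k A1 := a, k Z := b_Z: nonface_indep: R = N1.image k, |R| = |N1|.
 If |D| < r: CoreOut with Qa = N1, T = ∅, R, small point a: cl S N1 a = D (nonface_dom with X = A1), 2 ≤ |D| (a ≠ u), twins.
 So r ≤ |D|. Pick o ∈ A1. noPair_inst, |D| < |S| (o ∈ S \ D), h.ih D give Q', R' on insert o D.
 T1 := the t ∈ L ∩ D with {t} ∈ Q'; Q1 := members of Q' containing o; every member of Q' is in Q1, or {t}, t ∈ T1, or D.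
 For Z' ∈ Q1 choose a lift W(Z') ∈ A, A1 ⊆ W, Z' = insert o (W ∩ D). Qb := Q1.image W.
 Note: at most one u' ∈ R' has Dom Q' u' o (Indep at p = o); if {t} ∈ Q', Small .. t is impossible (Small.not_tok).
 Case I: D ∉ Q'. If u' ∈ R', ¬ Dom Q' u' o, there is Z' ∈ Q', u' ∈ Z', o ∉ Z': Z' = {t} = {u'}, u' ∈ T1. So |R'| ≤ |L| + 1 < r and
  the small outcome (¬ Dom Q' u' o) contradicts Small.not_tok.
 Case II: D ∈ Q' and some y0 ∈ D is in all Z' ∈ Q1. Every u' ∈ R', u' ∉ T1 has Dom Q' u' y0. So at most one such: |R'| ≤ |T1| + 1 < r.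
  So a small u' ∈ R', ¬ Dom Q' u' o; u' ∉ T1; |Q'| ≥ |Q1| + |T1| + 1 (D is not a token, |D| ≥ 3; Q1, tok T1, {D} disjoint), |Q'| ≤ |R'| ≤ |T1| + 1
  so Q1 = ∅ and the only member of Q' containing u' is D (u' ∈ D because u' ≠ o): cl = D has ≥ r points. Contradiction.
 Case III: D ∈ Q' and no y ∈ D is in all Z' ∈ Q1. CoreOut with Qa := Qb ∪ M, T := T1, R := (R' ∩ D) ∪ {b_Z : Z ∈ M}.
  Nonface: y ∉ D: some Z ∈ M; y ∈ D: W(Z') for a Z' ∈ Q1, y ∉ Z'.
  Facts for u' ∈ D, p ∈ S: Dom Q u' p → p ∈ D ∧ Dom Q' u' p (all Z ∈ M contain u'), and conversely.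
  Indep: u', v' ∈ R' ∩ D: from Indep of R'.  u' ∈ R' ∩ D, b_Z: p ∈ D and p in all W(Z') (b_Z ∈ A1 ⊆ W(Z')) so p ∈ all Z' ∈ Q1:
  excluded.  b_Z, b_Z', Z ≠ Z': p in all members of M, so p ∈ D, and again p in all W(Z').
  |R| = |R' ∩ D| + |M| (b_Z distinct, in A1), |R' ∩ D| ≥ |R'| - 1 (R' ⊆ insert o D). |Qa| + |T1| ≤ |Q1| + |M| + |T1| ≤ |Q'| - 1 + |M| ≤ |R|.
  r ≤ |R'|: |R| ≥ r - 1 + |M| ≥ r.  Small u' with ¬ Dom Q' u' o: u' ∈ D, cl S Q u' = cl (insert o D) Q' u', twins.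
-/

set_option autoImplicit false

namespace Pool.Agent.Work.MP_542d22_co

open Classical Finset

variable {V : Type}

private lemma card_le_of_dom {P : Finset V} {Q : Finset (Finset V)} {R T : Finset V} {p : V}
    (hR : Indep P Q R) (hp : p ∈ P) (h : ∀ u ∈ R, u ∉ T → Dom Q u p) : R.card ≤ T.card + 1 := by
  have h1 : (R.filter (fun u => u ∉ T)).card ≤ 1 := by
    rw [Finset.card_le_one]
    intro a ha b hb
    by_contra hab
    rw [mem_filter] at ha hb
    exact hR.2 a ha.1 b hb.1 hab p hp (h a ha.1 ha.2) (h b hb.1 hb.2)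
  have h2 : R ⊆ T ∪ R.filter (fun u => u ∉ T) := by
    intro x hx
    by_cases hxT : x ∈ T
    · exact mem_union_left _ hxT
    · exact mem_union_right _ (mem_filter.2 ⟨hx, hxT⟩)
  have h3 := Finset.card_le_card h2
  have h4 := Finset.card_union_le T (R.filter (fun u => u ∉ T))
  omega

theorem noPair_D {r : ℕ} {S : Finset V} {A : Set (Finset V)} {L : Finset V} (h : Core r S A L)
    (hno : ∀ X ∈ A, ∀ Y ∈ A, (X ∩ Y).Nonempty) {A1 : Finset V} (h1 : A1 ∈ A)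
    (hmin : ∀ Z ∈ A, Z ⊆ A1 → Z = A1) {a u : V} (ha : a ∈ S) (hu : u ∈ S) (hau : a ≠ u)
    (ha1 : a ∉ A1) (hu1 : u ∉ A1) (M : Finset (Finset V))
    (hM : ∀ Z ∈ M, Z ∈ A ∧ a ∈ Z ∧ u ∈ Z) (hcov : ∀ x ∈ A1, ∃ Z ∈ M, x ∉ Z)
    (hb : ∀ Z ∈ M, ∃ b ∈ A1, ∀ W ∈ M, W ≠ Z → b ∈ W) : CoreOut r S A L := by
  obtain ⟨D, hDdef⟩ : ∃ D, D = S.filter (fun y => ∀ Z ∈ M, y ∈ Z) := ⟨_, rfl⟩
  have hmD : ∀ y, y ∈ D ↔ y ∈ S ∧ ∀ Z ∈ M, y ∈ Z := fun y => by rw [hDdef, mem_filter]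
  have haD : a ∈ D := (hmD a).2 ⟨ha, fun Z hZ => (hM Z hZ).2.1⟩
  have huD : u ∈ D := (hmD u).2 ⟨hu, fun Z hZ => (hM Z hZ).2.2⟩
  have hDS : D ⊆ S := fun y hy => ((hmD y).1 hy).1
  have hDd : Disjoint A1 D := by
    rw [Finset.disjoint_left]
    intro x hx hxD
    obtain ⟨Z, hZ, hxZ⟩ := hcov x hx
    exact hxZ (((hmD x).1 hxD).2 Z hZ)
  have hA1S : A1 ⊆ S := h.sub _ h1
  have hA1M : A1 ∉ M := fun hc => ha1 (hM _ hc).2.1
  have : Nonempty V := ⟨a⟩
  choose! b hb1 hb2 using hb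
  have hbZ : ∀ Z ∈ M, b Z ∉ Z := by
    intro Z hZ hc
    obtain ⟨W, hW, hbW⟩ := hcov (b Z) (hb1 Z hZ)
    by_cases hWZ : W = Z
    · subst hWZ; exact hbW hc
    · exact hbW (hb2 Z hZ W hW hWZ)
  by_cases hDr : r ≤ D.card
  swap
  · push Not at hDr
    have hN1 : ∀ y ∈ S, ∃ X ∈ insert A1 M, y ∉ X := by
      intro y hy
      by_cases hyA : y ∈ A1
      · obtain ⟨Z, hZ, hz⟩ := hcov y hyA
        exact ⟨Z, mem_insert_of_mem hZ, hz⟩
      · exact ⟨A1, mem_insert_self _ _, hyA⟩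
    obtain ⟨k, hkdef⟩ : ∃ k : Finset V → V, k = fun X => if X = A1 then a else b X := ⟨_, rfl⟩
    have hkA : k A1 = a := by rw [hkdef]; simp
    have hkb : ∀ X, X ≠ A1 → k X = b X := fun X hX => by rw [hkdef]; simp [hX]
    have hk : ∀ X ∈ insert A1 M, k X ∈ S ∧ ∀ Z ∈ insert A1 M, Z ≠ X → k X ∈ Z := by
      intro X hX
      by_cases hXA : X = A1
      · subst hXA
        rw [hkA]
        refine ⟨ha, ?_⟩
        intro Z hZ hne
        rcases mem_insert.1 hZ with rfl | hZ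
        · exact absurd rfl hne
        · exact (hM Z hZ).2.1
      · have hXM : X ∈ M := by
          rcases mem_insert.1 hX with hX | hX
          · exact absurd hX hXA
          · exact hX
        rw [hkb X hXA]
        refine ⟨hA1S (hb1 X hXM), ?_⟩
        intro Z hZ hne
        rcases mem_insert.1 hZ with rfl | hZ
        · exact hb1 X hXM
        · exact hb2 X hXM Z hZ hne
    obtain ⟨hI, hc⟩ := nonface_indep hN1 k hk
    have htok : insert A1 M ∪ tok (∅ : Finset V) = insert A1 M := by simp [tok]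
    have hcl : cl S (insert A1 M) a = D := by
      ext y
      rw [mem_cl, hmD]
      constructor
      · rintro ⟨hy, hd⟩
        exact ⟨hy, fun Z hZ => hd Z (mem_insert_of_mem hZ) (hM Z hZ).2.1⟩
      · rintro ⟨hy, hd⟩
        refine ⟨hy, ?_⟩
        intro Z hZ haZ
        rcases mem_insert.1 hZ with rfl | hZ
        · exact absurd haZ ha1
        · exact hd Z hZ
    refine ⟨insert A1 M, ∅, (insert A1 M).image k, ?_, hN1, empty_subset _, ?_, ?_, Or.inr ⟨a, ?_, ?_⟩⟩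
    · intro X hX
      rcases mem_insert.1 hX with rfl | hX
      · exact h1
      · exact (hM X hX).1
    · rw [htok]; exact hI
    · rw [hc]; simp
    · rw [mem_image]; exact ⟨A1, mem_insert_self _ _, hkA⟩
    · rw [htok]
      refine ⟨?_, ?_, ?_⟩
      · rw [hcl]
        have h3 : ({a, u} : Finset V) ⊆ D := by
          intro y hy
          rcases mem_insert.1 hy with rfl | hy
          · exact haD
          · rw [mem_singleton] at hy; subst hy; exact huD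
        have h4 := Finset.card_le_card h3
        rw [Finset.card_pair hau] at h4
        exact h4
      · rw [hcl]; exact hDr
      · intro v hv hd
        have hvD : v ∈ D := by rw [← hcl, mem_cl]; exact ⟨hv, hd⟩
        have hv1 : v ∉ A1 := fun hc => (Finset.disjoint_left.1 hDd) hc hvD
        intro Z hZ hvZ
        rcases mem_insert.1 hZ with rfl | hZ
        · exact absurd hvZ hv1
        · exact (hM Z hZ).2.1
  -- the instance on `insert o D`
  obtain ⟨o, ho⟩ := h.ne _ h1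
  obtain ⟨hI, hDF, hoF⟩ := noPair_inst h hno h1 hmin hDS hDd hDr ho
  have hoD : o ∉ D := fun hc => (Finset.disjoint_left.1 hDd) ho hc
  have hcard : D.card < S.card := Finset.card_lt_card ⟨hDS, fun hc => hoD (hc (hA1S ho))⟩
  obtain ⟨Q', R', hQF, hInd, hQR, h2R, hout⟩ :=
    h.ih D hDr hcard o (FD A L A1 D o) hoD hI hDF hoF
  have hr3 := h.r3
  have hLc := h.Lcard
  obtain ⟨T1, hT1⟩ : ∃ T1, T1 = D.filter (fun t => t ∈ L ∧ {t} ∈ Q') := ⟨_, rfl⟩
  obtain ⟨Q1, hQ1⟩ : ∃ Q1, Q1 = Q'.filter (fun Z => o ∈ Z) := ⟨_, rfl⟩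
  have hmT : ∀ t, t ∈ T1 ↔ t ∈ D ∧ t ∈ L ∧ {t} ∈ Q' := fun t => by rw [hT1, mem_filter]
  have hmQ : ∀ Z, Z ∈ Q1 ↔ Z ∈ Q' ∧ o ∈ Z := fun Z => by rw [hQ1, mem_filter]
  have hTL : T1.card ≤ L.card := Finset.card_le_card fun t ht => ((hmT t).1 ht).2.1
  have hclass : ∀ Z ∈ Q', Z ∈ Q1 ∨ (∃ t ∈ T1, Z = {t}) ∨ Z = D := by
    intro Z hZ
    rcases hQF Z hZ with ⟨W, hW, hAW, hDW, rfl⟩ | ⟨t, htL, htD, rfl⟩ | rfl
    · exact Or.inl ((hmQ _).2 ⟨hZ, mem_insert_self _ _⟩)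
    · exact Or.inr (Or.inl ⟨t, (hmT t).2 ⟨htD, htL, hZ⟩, rfl⟩)
    · exact Or.inr (Or.inr rfl)
  have hoP : o ∈ insert o D := mem_insert_self _ _
  by_cases hDQ : D ∈ Q'
  swap
  · -- Case I
    exfalso
    have hkey : ∀ u' ∈ R', u' ∉ T1 → Dom Q' u' o := by
      intro u' hu' huT Z hZ huZ
      rcases hclass Z hZ with hZ1 | ⟨t, ht, rfl⟩ | rfl
      · exact ((hmQ Z).1 hZ1).2
      · rw [mem_singleton] at huZ; subst huZ; exact absurd ht huT
      · exact absurd hZ hDQ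
    have hcR := card_le_of_dom hInd hoP hkey
    rcases hout with hout | ⟨u', hu', hsm, hnd⟩
    · omega
    · have huT : u' ∈ T1 := by
        by_contra huT
        exact hnd (hkey u' hu' huT)
      exact hsm.not_tok ((hmT u').1 huT).2.2
  have hcardQ : Q1.card + T1.card + 1 ≤ Q'.card := by
    have h3 : Disjoint Q1 (tok T1) := by
      rw [Finset.disjoint_left]
      intro Z hZ hZt
      obtain ⟨t, ht, rfl⟩ := mem_tok.1 hZt
      have h4 := ((hmQ _).1 hZ).2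
      rw [mem_singleton] at h4
      subst h4
      exact hoD ((hmT _).1 ht).1
    have h4 : D ∉ Q1 ∪ tok T1 := by
      intro hc
      rcases mem_union.1 hc with hc | hc
      · exact hoD ((hmQ _).1 hc).2
      · obtain ⟨t, ht, hteq⟩ := mem_tok.1 hc
        have h5 : D.card = 1 := by rw [← hteq, card_singleton]
        omega
    have h5 : insert D (Q1 ∪ tok T1) ⊆ Q' := by
      intro Z hZ
      rcases mem_insert.1 hZ with rfl | hZ
      · exact hDQ
      rcases mem_union.1 hZ with hZ | hZ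
      · exact ((hmQ _).1 hZ).1
      · obtain ⟨t, ht, rfl⟩ := mem_tok.1 hZ
        exact ((hmT _).1 ht).2.2
    have h6 := Finset.card_le_card h5
    rw [card_insert_of_notMem h4, card_union_of_disjoint h3, card_tok] at h6
    exact h6
  by_cases hface : ∃ y0 ∈ D, ∀ Z ∈ Q1, y0 ∈ Z
  · -- Case II
    exfalso
    obtain ⟨y0, hy0, hyZ⟩ := hface
    have hkey : ∀ u' ∈ R', u' ∉ T1 → Dom Q' u' y0 := by
      intro u' hu' huT Z hZ huZ
      rcases hclass Z hZ with hZ1 | ⟨t, ht, rfl⟩ | rfl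
      · exact hyZ Z hZ1
      · rw [mem_singleton] at huZ; subst huZ; exact absurd ht huT
      · exact hy0
    have hcR := card_le_of_dom hInd (mem_insert_of_mem hy0) hkey
    rcases hout with hout | ⟨u', hu', hsm, hnd⟩
    · omega
    · have huT : u' ∉ T1 := fun huT => hsm.not_tok ((hmT u').1 huT).2.2
      have hQ0 : Q1 = ∅ := by
        rw [← Finset.card_eq_zero]; omega
      have hsub : D ⊆ cl (insert o D) Q' u' := by
        intro p hp
        rw [mem_cl]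
        refine ⟨mem_insert_of_mem hp, ?_⟩
        intro Z hZ huZ
        rcases hclass Z hZ with hZ1 | ⟨t, ht, rfl⟩ | rfl
        · rw [hQ0] at hZ1; simp at hZ1
        · rw [mem_singleton] at huZ; subst huZ; exact absurd ht huT
        · exact hp
      have h3 := Finset.card_le_card hsub
      have h4 := hsm.2.1
      omega
  -- Case III
  push Not at hface
  have hlift : ∀ Z ∈ Q1, ∃ W ∈ A, A1 ⊆ W ∧ Z = insert o (W ∩ D) := by
    intro Z hZ
    obtain ⟨hZQ, hoZ⟩ := (hmQ Z).1 hZ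
    rcases hQF Z hZQ with ⟨W, hW, hAW, hDW, rfl⟩ | ⟨t, htL, htD, rfl⟩ | rfl
    · exact ⟨W, hW, hAW, rfl⟩
    · rw [mem_singleton] at hoZ; subst hoZ; exact absurd htD hoD
    · exact absurd hoZ hoD
  choose! W hWA hW1 hWZ using hlift
  obtain ⟨Qb, hQb⟩ : ∃ Qb, Qb = Q1.image W := ⟨_, rfl⟩
  obtain ⟨Q, hQ⟩ : ∃ Q, Q = (Qb ∪ M) ∪ tok T1 := ⟨_, rfl⟩
  have hbQ : ∀ Z ∈ Q1, W Z ∈ Q := fun Z hZ => by
    rw [hQ, hQb]; exact mem_union_left _ (mem_union_left _ (mem_image_of_mem _ hZ))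
  have hMQ : ∀ Z ∈ M, Z ∈ Q := fun Z hZ => by
    rw [hQ]; exact mem_union_left _ (mem_union_right _ hZ)
  have htQ : ∀ t ∈ T1, {t} ∈ Q := fun t ht => by
    rw [hQ]; exact mem_union_right _ (mem_tok.2 ⟨t, ht, rfl⟩)
  have hQc : ∀ X ∈ Q, (∃ Z ∈ Q1, X = W Z) ∨ X ∈ M ∨ ∃ t ∈ T1, X = {t} := by
    intro X hX
    rw [hQ, hQb] at hX
    rcases mem_union.1 hX with hX | hX
    · rcases mem_union.1 hX with hX | hX
      · obtain ⟨Z, hZ, rfl⟩ := mem_image.1 hX
        exact Or.inl ⟨Z, hZ, rfl⟩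
      · exact Or.inr (Or.inl hX)
    · obtain ⟨t, ht, rfl⟩ := mem_tok.1 hX
      exact Or.inr (Or.inr ⟨t, ht, rfl⟩)
  have hWmem : ∀ Z ∈ Q1, ∀ p ∈ D, (p ∈ W Z ↔ p ∈ Z) := by
    intro Z hZ p hp
    have hpo : p ≠ o := fun hc => hoD (hc ▸ hp)
    conv_rhs => rw [hWZ Z hZ]
    rw [mem_insert, mem_inter]
    constructor
    · intro h3; exact Or.inr ⟨h3, hp⟩
    · rintro (h3 | h3)
      · exact absurd h3 hpo
      · exact h3.1
  have fact1 : ∀ u' ∈ D, ∀ p ∈ S, Dom Q u' p → p ∈ D ∧ Dom Q' u' p := by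
    intro u' hu' p hp hd
    have hpD : p ∈ D := (hmD p).2 ⟨hp, fun Z hZ => hd Z (hMQ Z hZ) (((hmD u').1 hu').2 Z hZ)⟩
    refine ⟨hpD, ?_⟩
    intro Z hZ huZ
    rcases hclass Z hZ with hZ1 | ⟨t, ht, rfl⟩ | rfl
    · exact (hWmem Z hZ1 p hpD).1 (hd _ (hbQ Z hZ1) ((hWmem Z hZ1 u' hu').2 huZ))
    · exact hd _ (htQ t ht) huZ
    · exact hpD
  have fact2 : ∀ u' ∈ D, ∀ p ∈ D, Dom Q' u' p → Dom Q u' p := by
    intro u' hu' p hp hd X hX huX
    rcases hQc X hX with ⟨Z, hZ, rfl⟩ | hXM | ⟨t, ht, rfl⟩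
    · exact (hWmem Z hZ p hp).2 (hd Z ((hmQ Z).1 hZ).1 ((hWmem Z hZ u' hu').1 huX))
    · exact ((hmD p).1 hp).2 X hXM
    · exact hd _ ((hmT t).1 ht).2.2 huX
  have fact3 : ∀ p ∈ D, ¬ ∀ Z ∈ Q1, p ∈ W Z := by
    intro p hp hc
    obtain ⟨Z, hZ, hpZ⟩ := hface p hp
    exact hpZ ((hWmem Z hZ p hp).1 (hc Z hZ))
  have hRD : ∀ u' ∈ R', u' ≠ o → u' ∈ D := by
    intro u' hu' hne
    rcases mem_insert.1 (hInd.1 hu') with hc | hc
    · exact absurd hc hne
    · exact hc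
  obtain ⟨RD, hRDd⟩ : ∃ RD, RD = R'.filter (fun u' => u' ∈ D) := ⟨_, rfl⟩
  have hmR : ∀ y, y ∈ RD ↔ y ∈ R' ∧ y ∈ D := fun y => by rw [hRDd, mem_filter]
  have hcRD : R'.card ≤ RD.card + 1 := by
    have h3 : R' ⊆ insert o RD := by
      intro y hy
      by_cases hyo : y = o
      · subst hyo; exact mem_insert_self _ _
      · exact mem_insert_of_mem ((hmR y).2 ⟨hy, hRD y hy hyo⟩)
    exact (Finset.card_le_card h3).trans (Finset.card_insert_le _ _)
  have hbinj : (M.image b).card = M.card := by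
    apply Finset.card_image_of_injOn
    intro Z hZ Z' hZ' hbb
    by_contra hne
    have h3 : b Z' ∈ Z := hb2 Z' hZ' Z hZ hne
    exact hbZ Z hZ (by rw [show b Z = b Z' from hbb]; exact h3)
  have hdisj : Disjoint RD (M.image b) := by
    rw [Finset.disjoint_left]
    intro y hy hyb
    obtain ⟨Z, hZ, rfl⟩ := mem_image.1 hyb
    exact (Finset.disjoint_left.1 hDd) (hb1 Z hZ) ((hmR _).1 hy).2
  have hRcard : (RD ∪ M.image b).card = RD.card + M.card := by
    rw [card_union_of_disjoint hdisj, hbinj]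
  have hMne : 1 ≤ M.card := by
    obtain ⟨Z, hZ, _⟩ := hcov o ho
    exact Finset.card_pos.2 ⟨Z, hZ⟩
  have hbW : ∀ Z ∈ M, ∀ p, Dom Q (b Z) p → ∀ Z' ∈ Q1, p ∈ W Z' := by
    intro Z hZ p hd Z' hZ'
    exact hd _ (hbQ Z' hZ') (hW1 Z' hZ' (hb1 Z hZ))
  have hIndQ : Indep S Q (RD ∪ M.image b) := by
    refine ⟨?_, ?_⟩
    · intro y hy
      rcases mem_union.1 hy with hy | hy
      · exact hDS ((hmR y).1 hy).2
      · obtain ⟨Z, hZ, rfl⟩ := mem_image.1 hy
        exact hA1S (hb1 Z hZ)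
    · intro y hy z hz hyz p hp hyp hzp
      rcases mem_union.1 hy with hy | hy <;> rcases mem_union.1 hz with hz | hz
      · obtain ⟨hy1, hy2⟩ := (hmR y).1 hy
        obtain ⟨hz1, hz2⟩ := (hmR z).1 hz
        have h3 := fact1 y hy2 p hp hyp
        have h4 := fact1 z hz2 p hp hzp
        exact hInd.2 y hy1 z hz1 hyz p (mem_insert_of_mem h3.1) h3.2 h4.2
      · obtain ⟨hy1, hy2⟩ := (hmR y).1 hy
        obtain ⟨Z, hZ, rfl⟩ := mem_image.1 hz
        exact fact3 p (fact1 y hy2 p hp hyp).1 (hbW Z hZ p hzp)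
      · obtain ⟨hz1, hz2⟩ := (hmR z).1 hz
        obtain ⟨Z, hZ, rfl⟩ := mem_image.1 hy
        exact fact3 p (fact1 z hz2 p hp hzp).1 (hbW Z hZ p hyp)
      · obtain ⟨Z, hZ, rfl⟩ := mem_image.1 hy
        obtain ⟨Z', hZ', rfl⟩ := mem_image.1 hz
        have hZZ : Z ≠ Z' := fun hc => hyz (by rw [hc])
        have hpD : p ∈ D := by
          rw [hmD]
          refine ⟨hp, fun X hX => ?_⟩
          by_cases hXZ : X = Z
          · subst hXZ
            exact hzp _ (hMQ _ hX) (hb2 Z' hZ' _ hX hZZ)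
          · exact hyp _ (hMQ _ hX) (hb2 Z hZ X hX hXZ)
        exact fact3 p hpD (hbW Z hZ p hyp)
  refine ⟨Qb ∪ M, T1, RD ∪ M.image b, ?_, ?_, ?_, ?_, ?_, ?_⟩
  · intro X hX
    rw [hQb] at hX
    rcases mem_union.1 hX with hX | hX
    · obtain ⟨Z, hZ, rfl⟩ := mem_image.1 hX
      exact hWA Z hZ
    · exact (hM X hX).1
  · intro y hy
    by_cases hyD : y ∈ D
    · have h3 := fact3 y hyD
      push Not at h3
      obtain ⟨Z, hZ, hyZ⟩ := h3
      exact ⟨W Z, by rw [hQb]; exact mem_union_left _ (mem_image_of_mem _ hZ), hyZ⟩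
    · have h3 : ¬ ∀ Z ∈ M, y ∈ Z := fun hc => hyD ((hmD y).2 ⟨hy, hc⟩)
      push Not at h3
      obtain ⟨Z, hZ, hyZ⟩ := h3
      exact ⟨Z, mem_union_right _ hZ, hyZ⟩
  · exact fun t ht => ((hmT t).1 ht).2.1
  · rw [← hQ]; exact hIndQ
  · have h3 := Finset.card_union_le Qb M
    have h4 : Qb.card ≤ Q1.card := by rw [hQb]; exact Finset.card_image_le
    rw [hRcard]
    omega
  · rw [← hQ]
    rcases hout with hout | ⟨u', hu', hsm, hnd⟩
    · left
      rw [hRcard]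
      omega
    · right
      have hu'o : u' ≠ o := fun hc => hnd (hc ▸ Dom.refl _ _)
      have hu'D := hRD u' hu' hu'o
      have hcl : cl S Q u' = cl (insert o D) Q' u' := by
        ext p
        rw [mem_cl, mem_cl]
        constructor
        · rintro ⟨hp, hd⟩
          have h3 := fact1 u' hu'D p hp hd
          exact ⟨mem_insert_of_mem h3.1, h3.2⟩
        · rintro ⟨hp, hd⟩
          have hpD : p ∈ D := by
            rcases mem_insert.1 hp with hp | hp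
            · subst hp; exact absurd hd hnd
            · exact hp
          exact ⟨hDS hpD, fact2 u' hu'D p hpD hd⟩
      refine ⟨u', mem_union_left _ ((hmR u').2 ⟨hu', hu'D⟩), ?_, ?_, ?_⟩
      · rw [hcl]; exact hsm.1
      · rw [hcl]; exact hsm.2.1
      · intro v hv hd
        have h3 := fact1 u' hu'D v hv hd
        exact fact2 v h3.1 u' hu'D (hsm.2.2 v (mem_insert_of_mem h3.1) h3.2)

end Pool.Agent.Work.MP_542d22_co
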