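import Pool.Agent.Work.MP_542d22_co.Defs

/-!
MODULE NoPairInst (medium, 2 lemmas). Here any two members of A meet (hno).

coh. X ∈ A minimal (hmin), Y ∈ A: X ∪ Y ∈ A or X ∪ Y = S. Proof: if X ∪ Y ≠ S, h.wc (X ∩ Y nonempty by hno): X ∩ Y ∈ A gives
X ∩ Y = X (hmin), so X ∪ Y = Y ∈ A.

noPair_inst. A1 ∈ A minimal, D ⊆ S, D disjoint from A1, r ≤ |D| (so |D| ≥ 3), o ∈ A1. The family on `insert o D`:
FD := {insert o (W ∩ D) | W ∈ A, A1 ⊆ W, ¬ D ⊆ W} ∪ {{t} | t ∈ L ∩ D} ∪ {D}.
 {o} = insert o (A1 ∩ D) ∈ FD. sub/ne/proper: clear (o ∉ D).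
 sep: y, z ∈ D, y ≠ z: y ∈ L: {y}. y ∉ L: h.sep gives W ∈ A, y ∈ W, z ∉ W; W ∪ A1 ∈ A by coh (z ∉ W ∪ A1), first kind.
  y ∈ D against o: D. o against y ∈ D: {o}.
 wc: first-first: W, W' ⊇ A1, ¬ D ⊆ W ∪ W' (union of the traces ≠ insert o D), so W ∪ W' ≠ S, they meet in A1: h.wc, first kind.
  first-D: the union is insert o D: excluded. {t} with anything it meets: {t} ∩ B = {t} ∈ FD. D-D: D.
-/

set_option autoImplicit false

namespace Pool.Agent.Work.MP_542d22_co

open Classical Finset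

variable {V : Type}

/-- The family on `insert o D`. -/
def FD (A : Set (Finset V)) (L A1 D : Finset V) (o : V) : Set (Finset V) :=
  {Z | (∃ W ∈ A, A1 ⊆ W ∧ ¬ D ⊆ W ∧ Z = insert o (W ∩ D)) ∨ (∃ t ∈ L, t ∈ D ∧ Z = {t}) ∨ Z = D}

theorem coh {r : ℕ} {S : Finset V} {A : Set (Finset V)} {L : Finset V} (h : Core r S A L)
    (hno : ∀ X ∈ A, ∀ Y ∈ A, (X ∩ Y).Nonempty) {X Y : Finset V} (hX : X ∈ A)
    (hmin : ∀ Z ∈ A, Z ⊆ X → Z = X) (hY : Y ∈ A) : X ∪ Y ∈ A ∨ X ∪ Y = S := by
  by_cases hu : X ∪ Y = S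
  · exact Or.inr hu
  · rcases h.wc X hX Y hY (hno X hX Y hY) hu with h1 | h1
    · have h2 := hmin _ h1 inter_subset_left
      have h3 : X ⊆ Y := inter_eq_left.1 h2
      left
      rw [union_eq_right.2 h3]
      exact hY
    · exact Or.inl h1

theorem noPair_inst {r : ℕ} {S : Finset V} {A : Set (Finset V)} {L : Finset V} (h : Core r S A L)
    (hno : ∀ X ∈ A, ∀ Y ∈ A, (X ∩ Y).Nonempty) {A1 D : Finset V} {o : V} (h1 : A1 ∈ A)
    (hmin : ∀ Z ∈ A, Z ⊆ A1 → Z = A1) (hDS : D ⊆ S) (hd : Disjoint A1 D) (hD : r ≤ D.card)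
    (ho : o ∈ A1) :
    Inst (insert o D) (FD A L A1 D o) ∧ D ∈ FD A L A1 D o ∧ {o} ∈ FD A L A1 D o := by
  have hr3 := h.r3
  have hoD : o ∉ D := fun hh => Finset.disjoint_left.1 hd ho hh
  have hDne : D.Nonempty := Finset.card_pos.1 (by omega)
  have hA1D : ¬ D ⊆ A1 := by
    intro hh
    obtain ⟨d, hdD⟩ := hDne
    exact Finset.disjoint_left.1 hd (hh hdD) hdD
  have hDF : D ∈ FD A L A1 D o := Or.inr (Or.inr rfl)
  have hoF : {o} ∈ FD A L A1 D o := by
    refine Or.inl ⟨A1, h1, Subset.rfl, hA1D, ?_⟩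
    rw [Finset.disjoint_iff_inter_eq_empty.1 hd]
    rfl
  have hsing : ∀ Z ∈ FD A L A1 D o, ∀ t : V, {t} ∈ FD A L A1 D o → (({t} : Finset V) ∩ Z).Nonempty →
      ({t} : Finset V) ∩ Z ∈ FD A L A1 D o := by
    intro Z hZ t ht hne
    have h2 : t ∈ Z := by
      obtain ⟨y, hy⟩ := hne
      rw [Finset.mem_inter, Finset.mem_singleton] at hy
      exact hy.1 ▸ hy.2
    rw [Finset.singleton_inter_of_mem h2]
    exact ht
  refine ⟨⟨?_, ?_, ?_, ?_, ?_⟩, hDF, hoF⟩
  · rintro Z (⟨W, hW, hAW, hDW, rfl⟩ | ⟨t, ht, htD, rfl⟩ | rfl)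
    · exact Finset.insert_subset_insert _ inter_subset_right
    · exact Finset.singleton_subset_iff.2 (Finset.mem_insert_of_mem htD)
    · exact Finset.subset_insert _ _
  · rintro Z (⟨W, hW, hAW, hDW, rfl⟩ | ⟨t, ht, htD, rfl⟩ | rfl)
    · exact Finset.insert_nonempty _ _
    · exact Finset.singleton_nonempty _
    · exact hDne
  · rintro Z (⟨W, hW, hAW, hDW, rfl⟩ | ⟨t, ht, htD, rfl⟩ | rfl) hE
    · apply hDW
      intro d hdD
      have h2 : d ∈ insert o (W ∩ D) := hE ▸ Finset.mem_insert_of_mem hdD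
      rcases Finset.mem_insert.1 h2 with h3 | h3
      · exact absurd (h3 ▸ hdD) hoD
      · exact (Finset.mem_inter.1 h3).1
    · have h2 : o ∈ ({t} : Finset V) := hE ▸ Finset.mem_insert_self _ _
      rw [Finset.mem_singleton] at h2
      exact hoD (h2 ▸ htD)
    · exact hoD (hE ▸ Finset.mem_insert_self _ _)
  · intro y hy z hz hyz
    by_cases hyo : y = o
    · refine ⟨{o}, hoF, Finset.mem_singleton.2 hyo, fun hh => ?_⟩
      exact hyz (hyo.trans (Finset.mem_singleton.1 hh).symm)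
    · have hyD : y ∈ D := (Finset.mem_insert.1 hy).resolve_left hyo
      by_cases hzo : z = o
      · exact ⟨D, hDF, hyD, hzo ▸ hoD⟩
      · have hzD : z ∈ D := (Finset.mem_insert.1 hz).resolve_left hzo
        by_cases hyL : y ∈ L
        · refine ⟨{y}, Or.inr (Or.inl ⟨y, hyL, hyD, rfl⟩), Finset.mem_singleton_self _, fun hh => ?_⟩
          exact hyz (Finset.mem_singleton.1 hh).symm
        · obtain ⟨W, hW, hyW, hzW⟩ := h.sep y (hDS hyD) hyL z (hDS hzD) hyz
          have hzA : z ∉ A1 := fun hh => Finset.disjoint_left.1 hd hh hzD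
          have hzU : z ∉ A1 ∪ W := by
            rw [Finset.mem_union]
            rintro (hh | hh)
            · exact hzA hh
            · exact hzW hh
          have hU : A1 ∪ W ∈ A := by
            rcases coh h hno h1 hmin hW with hh | hh
            · exact hh
            · exact absurd (hh ▸ hDS hzD) hzU
          refine ⟨insert o ((A1 ∪ W) ∩ D), Or.inl ⟨A1 ∪ W, hU, subset_union_left, fun hh => hzU (hh hzD), rfl⟩,
            ?_, ?_⟩
          · exact Finset.mem_insert_of_mem (Finset.mem_inter.2 ⟨Finset.mem_union_right _ hyW, hyD⟩)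
          · intro hh
            rcases Finset.mem_insert.1 hh with h3 | h3
            · exact hzo h3
            · exact hzU (Finset.mem_inter.1 h3).1
  · intro X hX Y hY hne hu
    rcases hX with ⟨W, hW, hAW, hDW, rfl⟩ | ⟨t, ht, htD, rfl⟩ | rfl
    · rcases hY with ⟨W', hW', hAW', hDW', rfl⟩ | ⟨t, ht, htD, rfl⟩ | rfl
      · have hDU : ¬ D ⊆ W ∪ W' := by
          intro hh
          apply hu
          ext y
          simp only [Finset.mem_union, Finset.mem_insert, Finset.mem_inter]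
          constructor
          · rintro ((h3 | h3) | (h3 | h3))
            · exact Or.inl h3
            · exact Or.inr h3.2
            · exact Or.inl h3
            · exact Or.inr h3.2
          · rintro (h3 | h3)
            · exact Or.inl (Or.inl h3)
            · rcases Finset.mem_union.1 (hh h3) with h4 | h4
              · exact Or.inl (Or.inr ⟨h4, h3⟩)
              · exact Or.inr (Or.inr ⟨h4, h3⟩)
        have hUS : W ∪ W' ≠ S := fun hh => hDU (hh ▸ hDS)
        have hI : (W ∩ W').Nonempty := ⟨o, Finset.mem_inter.2 ⟨hAW ho, hAW' ho⟩⟩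
        rcases h.wc W hW W' hW' hI hUS with h3 | h3
        · left
          refine Or.inl ⟨W ∩ W', h3, Finset.subset_inter hAW hAW', fun hh => hDW (hh.trans inter_subset_left), ?_⟩
          ext y
          simp only [Finset.mem_inter, Finset.mem_insert]
          tauto
        · right
          refine Or.inl ⟨W ∪ W', h3, hAW.trans subset_union_left, hDU, ?_⟩
          ext y
          simp only [Finset.mem_inter, Finset.mem_insert, Finset.mem_union]
          tauto
      · left
        rw [Finset.inter_comm] at hne ⊢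
        exact hsing _ (Or.inl ⟨W, hW, hAW, hDW, rfl⟩) t (Or.inr (Or.inl ⟨t, ht, htD, rfl⟩)) hne
      · exfalso
        apply hu
        ext y
        simp only [Finset.mem_union, Finset.mem_insert, Finset.mem_inter]
        tauto
    · left
      exact hsing _ hY t (Or.inr (Or.inl ⟨t, ht, htD, rfl⟩)) hne
    · rcases hY with ⟨W', hW', hAW', hDW', rfl⟩ | ⟨t, ht, htD, rfl⟩ | rfl
      · exfalso
        apply hu
        ext y
        simp only [Finset.mem_union, Finset.mem_insert, Finset.mem_inter]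
        tauto
      · left
        rw [Finset.inter_comm] at hne ⊢
        exact hsing _ hDF t (Or.inr (Or.inl ⟨t, ht, htD, rfl⟩)) hne
      · left
        rw [Finset.inter_self]
        exact hDF

end Pool.Agent.Work.MP_542d22_co
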