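import Pool.Agent.Work.MP_542d22_co.Clean

/-!
MODULE PairInst (medium). The instance on `insert v X1`, root `v ∈ X2`, for a clean pair X1, X2.
 FB := {Z | Z ∈ A ∧ Z ⊆ X1} ∪ {insert v (Z ∩ X1) | Z ∈ A, X2 ⊆ Z, ¬ X1 ⊆ Z} ∪ {{t} | t ∈ L ∩ X1}.
pair_inst: Inst (insert v X1) FB, X1 ∈ FB, {v} ∈ FB ({v} = insert v (X2 ∩ X1)).
 sub, ne, proper: clear (insert v X1 has at least 2 points because X1 is nonempty and v ∉ X1; ¬ X1 ⊆ Z makes the second kind proper).
 sep: u, w ∈ X1, u ≠ w: if u ∈ L: {u}. If u ∉ L: h.sep gives Z ∈ A, u ∈ Z, w ∉ Z; clean_cross gives Z' with the same trace: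
  Z' ⊆ X1 (first kind; contains u, not w) or X2 ⊆ Z' (second kind). u ∈ X1 against v: X1. v against u ∈ X1: {v}.
 wc: first-first: Z, W ⊆ X1 in A, meet; Z ∪ W ⊆ X1 ≠ S (X1 is proper); h.wc; both results are ⊆ X1.
  first-second: Z ⊆ X1, W ⊇ X2, (Z ∩ insert v (W ∩ X1)).Nonempty gives (Z ∩ W).Nonempty (v ∉ Z); Z ∪ insert v (W ∩ X1) ≠ insert v X1
   gives ¬ X1 ⊆ Z ∪ W, so Z ∪ W ≠ S; h.wc: Z ∩ W ∈ A (first kind, equals Z ∩ insert v (W ∩ X1)) or Z ∪ W ∈ A (second kind).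
  second-second: W, W' ⊇ X2 meet in X2 ≠ ∅; ¬ X1 ⊆ W ∪ W'; W ∩ W' ⊇ X2 resp. W ∪ W' ⊇ X2: second kind.
  with a singleton {t}: if {t} meets B then {t} ∩ B = {t} ∈ FB.
-/

set_option autoImplicit false

namespace Pool.Agent.Work.MP_542d22_co

open Classical Finset

variable {V : Type}

/-- The family on `insert v X1`. -/
def FB (A : Set (Finset V)) (L X1 X2 : Finset V) (v : V) : Set (Finset V) :=
  {Z | (Z ∈ A ∧ Z ⊆ X1) ∨ (∃ W ∈ A, X2 ⊆ W ∧ ¬ X1 ⊆ W ∧ Z = insert v (W ∩ X1)) ∨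
    ∃ t ∈ L, t ∈ X1 ∧ Z = {t}}

private theorem pair_wc {r : ℕ} {S : Finset V} {A : Set (Finset V)} {L : Finset V} (h : Core r S A L)
    {X1 X2 : Finset V} (h1 : X1 ∈ A) (h2 : X2 ∈ A) (hd : Disjoint X1 X2)
    {v : V} (hv : v ∈ X2) :
    ∀ Z ∈ FB A L X1 X2 v, ∀ W ∈ FB A L X1 X2 v, (Z ∩ W).Nonempty → Z ∪ W ≠ insert v X1 →
      Z ∩ W ∈ FB A L X1 X2 v ∨ Z ∪ W ∈ FB A L X1 X2 v := by
  have hv1 : v ∉ X1 := fun hh => Finset.disjoint_left.1 hd hh hv
  -- singletons
  have hsing : ∀ t ∈ L, t ∈ X1 → ∀ B : Finset V, ({t} ∩ B).Nonempty → {t} ∩ B ∈ FB A L X1 X2 v := by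
    intro t ht ht1 B hB
    have : t ∈ B := by
      obtain ⟨x, hx⟩ := hB
      rw [Finset.mem_inter, Finset.mem_singleton] at hx
      rw [← hx.1]; exact hx.2
    have h3 : {t} ∩ B = {t} := by
      rw [Finset.inter_eq_left]
      simpa using this
    exact Or.inr (Or.inr ⟨t, ht, ht1, h3⟩)
  -- first - second
  have hfs : ∀ Z ∈ A, Z ⊆ X1 → ∀ W ∈ A, X2 ⊆ W → ¬ X1 ⊆ W →
      (Z ∩ insert v (W ∩ X1)).Nonempty → Z ∪ insert v (W ∩ X1) ≠ insert v X1 →
      Z ∩ insert v (W ∩ X1) ∈ FB A L X1 X2 v ∨ Z ∪ insert v (W ∩ X1) ∈ FB A L X1 X2 v := by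
    intro Z hZ hZ1 W hW hW2 hW1 hne hun
    have hvZ : v ∉ Z := fun hh => hv1 (hZ1 hh)
    have hin : Z ∩ insert v (W ∩ X1) = Z ∩ W := by
      ext x
      simp only [Finset.mem_inter, Finset.mem_insert]
      constructor
      · rintro ⟨hx, rfl | hx'⟩
        · exact absurd hx hvZ
        · exact ⟨hx, hx'.1⟩
      · rintro ⟨hx, hx'⟩
        exact ⟨hx, Or.inr ⟨hx', hZ1 hx⟩⟩
    have hnsub : ¬ X1 ⊆ Z ∪ W := by
      intro hs
      apply hun
      ext x
      simp only [Finset.mem_union, Finset.mem_inter, Finset.mem_insert]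
      constructor
      · rintro (hx | rfl | hx)
        · exact Or.inr (hZ1 hx)
        · exact Or.inl rfl
        · exact Or.inr hx.2
      · rintro (rfl | hx)
        · exact Or.inr (Or.inl rfl)
        · rcases Finset.mem_union.1 (hs hx) with hh | hh
          · exact Or.inl hh
          · exact Or.inr (Or.inr ⟨hh, hx⟩)
    have hZW : Z ∪ W ≠ S := fun hh => hnsub (by rw [hh]; exact h.sub _ h1)
    rw [hin] at hne ⊢
    rcases h.wc Z hZ W hW hne hZW with hh | hh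
    · left
      exact Or.inl ⟨hh, Finset.inter_subset_left.trans hZ1⟩
    · right
      refine Or.inr (Or.inl ⟨Z ∪ W, hh, hW2.trans Finset.subset_union_right, hnsub, ?_⟩)
      ext x
      simp only [Finset.mem_union, Finset.mem_inter, Finset.mem_insert]
      constructor
      · rintro (hx | rfl | hx)
        · exact Or.inr ⟨Or.inl hx, hZ1 hx⟩
        · exact Or.inl rfl
        · exact Or.inr ⟨Or.inr hx.1, hx.2⟩
      · rintro (rfl | ⟨hx | hx, hx'⟩)
        · exact Or.inr (Or.inl rfl)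
        · exact Or.inl hx
        · exact Or.inr (Or.inr ⟨hx, hx'⟩)
  intro Z hZ W hW hne hun
  rcases hZ with ⟨hZ, hZ1⟩ | ⟨Z', hZ', hZ2, hZ1, rfl⟩ | ⟨t, ht, ht1, rfl⟩
  · rcases hW with ⟨hW, hW1⟩ | ⟨W', hW', hW2, hW1, rfl⟩ | ⟨t, ht, ht1, rfl⟩
    · have hZW : Z ∪ W ≠ S := by
        intro hh
        apply h.proper X1 h1
        apply Finset.Subset.antisymm (h.sub _ h1)
        rw [← hh]
        exact Finset.union_subset hZ1 hW1
      rcases h.wc Z hZ W hW hne hZW with hh | hh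
      · left
        exact Or.inl ⟨hh, Finset.inter_subset_left.trans hZ1⟩
      · right
        exact Or.inl ⟨hh, Finset.union_subset hZ1 hW1⟩
    · exact hfs Z hZ hZ1 W' hW' hW2 hW1 hne hun
    · left
      rw [Finset.inter_comm] at hne ⊢
      exact hsing t ht ht1 _ hne
  · rcases hW with ⟨hW, hW1⟩ | ⟨W', hW', hW2, hW1, rfl⟩ | ⟨t, ht, ht1, rfl⟩
    · rw [Finset.inter_comm] at hne ⊢
      rw [Finset.union_comm] at hun ⊢
      exact hfs W hW hW1 Z' hZ' hZ2 hZ1 hne hun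
    · have hnsub : ¬ X1 ⊆ Z' ∪ W' := by
        intro hs
        apply hun
        ext x
        simp only [Finset.mem_union, Finset.mem_inter, Finset.mem_insert]
        constructor
        · rintro ((rfl | hx) | rfl | hx)
          · exact Or.inl rfl
          · exact Or.inr hx.2
          · exact Or.inl rfl
          · exact Or.inr hx.2
        · rintro (rfl | hx)
          · exact Or.inl (Or.inl rfl)
          · rcases Finset.mem_union.1 (hs hx) with hh | hh
            · exact Or.inl (Or.inr ⟨hh, hx⟩)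
            · exact Or.inr (Or.inr ⟨hh, hx⟩)
      have hZW : Z' ∪ W' ≠ S := fun hh => hnsub (by rw [hh]; exact h.sub _ h1)
      have hne' : (Z' ∩ W').Nonempty := ⟨v, Finset.mem_inter.2 ⟨hZ2 hv, hW2 hv⟩⟩
      rcases h.wc Z' hZ' W' hW' hne' hZW with hh | hh
      · left
        refine Or.inr (Or.inl ⟨Z' ∩ W', hh, Finset.subset_inter hZ2 hW2, ?_, ?_⟩)
        · exact fun hs => hZ1 (hs.trans Finset.inter_subset_left)
        · ext x
          simp only [Finset.mem_inter, Finset.mem_insert]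
          constructor
          · rintro ⟨hx | hx, hx' | hx'⟩
            · exact Or.inl hx
            · exact Or.inl hx
            · exact Or.inl hx'
            · exact Or.inr ⟨⟨hx.1, hx'.1⟩, hx.2⟩
          · rintro (rfl | ⟨⟨hx, hx'⟩, hx1⟩)
            · exact ⟨Or.inl rfl, Or.inl rfl⟩
            · exact ⟨Or.inr ⟨hx, hx1⟩, Or.inr ⟨hx', hx1⟩⟩
      · right
        refine Or.inr (Or.inl ⟨Z' ∪ W', hh, hZ2.trans Finset.subset_union_left, hnsub, ?_⟩)
        ext x
        simp only [Finset.mem_union, Finset.mem_inter, Finset.mem_insert]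
        constructor
        · rintro ((rfl | hx) | rfl | hx)
          · exact Or.inl rfl
          · exact Or.inr ⟨Or.inl hx.1, hx.2⟩
          · exact Or.inl rfl
          · exact Or.inr ⟨Or.inr hx.1, hx.2⟩
        · rintro (rfl | ⟨hx | hx, hx'⟩)
          · exact Or.inl (Or.inl rfl)
          · exact Or.inl (Or.inr ⟨hx, hx'⟩)
          · exact Or.inr (Or.inr ⟨hx, hx'⟩)
    · left
      rw [Finset.inter_comm] at hne ⊢
      exact hsing t ht ht1 _ hne
  · left
    exact hsing t ht ht1 _ hne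

theorem pair_inst {r : ℕ} {S : Finset V} {A : Set (Finset V)} {L : Finset V} (h : Core r S A L)
    {X1 X2 : Finset V} (h1 : X1 ∈ A) (h2 : X2 ∈ A) (hd : Disjoint X1 X2)
    (hmax : ∀ Z ∈ A, X1 ⊆ Z → Disjoint Z X2 → Z = X1) (hmin : ∀ Z ∈ A, Z ⊆ X2 → Z = X2)
    {v : V} (hv : v ∈ X2) :
    Inst (insert v X1) (FB A L X1 X2 v) ∧ X1 ∈ FB A L X1 X2 v ∧ {v} ∈ FB A L X1 X2 v := by
  have hv1 : v ∉ X1 := fun hh => Finset.disjoint_left.1 hd hh hv
  have hX1 : X1 ∈ FB A L X1 X2 v := Or.inl ⟨h1, Finset.Subset.refl _⟩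
  have hvF : {v} ∈ FB A L X1 X2 v := by
    refine Or.inr (Or.inl ⟨X2, h2, Finset.Subset.refl _, ?_, ?_⟩)
    · intro hs
      obtain ⟨x, hx⟩ := h.ne X1 h1
      exact Finset.disjoint_left.1 hd hx (hs hx)
    · rw [Finset.inter_comm, Finset.disjoint_iff_inter_eq_empty.1 hd]
      rfl
  refine ⟨⟨?_, ?_, ?_, ?_, pair_wc h h1 h2 hd hv⟩, hX1, hvF⟩
  · rintro Z (⟨hZ, hZ1⟩ | ⟨Z', hZ', hZ2, hZ1, rfl⟩ | ⟨t, ht, ht1, rfl⟩)
    · exact hZ1.trans (Finset.subset_insert _ _)
    · exact Finset.insert_subset_insert _ Finset.inter_subset_right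
    · rw [Finset.singleton_subset_iff]
      exact Finset.mem_insert_of_mem ht1
  · rintro Z (⟨hZ, hZ1⟩ | ⟨Z', hZ', hZ2, hZ1, rfl⟩ | ⟨t, ht, ht1, rfl⟩)
    · exact h.ne Z hZ
    · exact Finset.insert_nonempty _ _
    · exact Finset.singleton_nonempty _
  · rintro Z (⟨hZ, hZ1⟩ | ⟨Z', hZ', hZ2, hZ1, rfl⟩ | ⟨t, ht, ht1, rfl⟩)
    · intro hh
      exact hv1 (hZ1 (by rw [hh]; exact Finset.mem_insert_self _ _))
    · intro hh
      apply hZ1
      intro x hx
      have hx' : x ∈ insert v (Z' ∩ X1) := by rw [hh]; exact Finset.mem_insert_of_mem hx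
      rcases Finset.mem_insert.1 hx' with rfl | hx''
      · exact absurd hx hv1
      · exact (Finset.mem_inter.1 hx'').1
    · intro hh
      have : v ∈ ({t} : Finset V) := by rw [hh]; exact Finset.mem_insert_self _ _
      rw [Finset.mem_singleton] at this
      exact hv1 (by rw [this]; exact ht1)
  · intro u hu w hw huw
    rcases Finset.mem_insert.1 hu with rfl | hu1
    · exact ⟨{u}, hvF, Finset.mem_singleton_self _, by
        rw [Finset.mem_singleton]; exact fun hh => huw hh.symm⟩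
    · rcases Finset.mem_insert.1 hw with rfl | hw1
      · exact ⟨X1, hX1, hu1, hv1⟩
      · by_cases huL : u ∈ L
        · exact ⟨{u}, Or.inr (Or.inr ⟨u, huL, hu1, rfl⟩), Finset.mem_singleton_self _, by
            rw [Finset.mem_singleton]; exact fun hh => huw hh.symm⟩
        · obtain ⟨Z, hZ, huZ, hwZ⟩ := h.sep u (h.sub _ h1 hu1) huL w (h.sub _ h1 hw1) huw
          obtain ⟨Z', hZ', htr, hcase⟩ := clean_cross h h1 h2 hd hmax hmin hZ
            ⟨u, Finset.mem_inter.2 ⟨huZ, hu1⟩⟩ (fun hs => hwZ (hs hw1))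
          have huZ' : u ∈ Z' := by
            have : u ∈ Z' ∩ X1 := by rw [htr]; exact Finset.mem_inter.2 ⟨huZ, hu1⟩
            exact (Finset.mem_inter.1 this).1
          have hwZ' : w ∉ Z' := by
            intro hh
            have : w ∈ Z ∩ X1 := by rw [← htr]; exact Finset.mem_inter.2 ⟨hh, hw1⟩
            exact hwZ (Finset.mem_inter.1 this).1
          rcases hcase with hc | hc
          · exact ⟨Z', Or.inl ⟨hZ', hc⟩, huZ', hwZ'⟩
          · refine ⟨insert v (Z' ∩ X1), Or.inr (Or.inl ⟨Z', hZ', hc, fun hs => hwZ' (hs hw1), rfl⟩),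
              Finset.mem_insert_of_mem (Finset.mem_inter.2 ⟨huZ', hu1⟩), ?_⟩
            intro hh
            rcases Finset.mem_insert.1 hh with hh' | hh'
            · exact hv1 (by rw [← hh']; exact hw1)
            · exact hwZ' (Finset.mem_inter.1 hh').1

end Pool.Agent.Work.MP_542d22_co
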