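import Pool.Agent.Work.MP_542d22_co.StepOne

/-!
MODULE RCore (medium).

r1_core. Out1 fails (hbad). With A := {X | X ⊆ S ∧ X.Nonempty ∧ insert o X ∈ F}, L := {t ∈ S | {t} ∈ F}: Core r S A L.
 proper: insert o S ∉ F (hI.proper). Lcard: if L = ∅ clear; otherwise Q = tok (insert o L), R = insert o L is Indep (eq_of_dom_tok),
  |Q| = |R| = |L| + 1 ≥ 2; hbad gives |L| + 1 < r.
 sep: u ∈ S, u ∉ L, v ∈ S, v ≠ u: hI.sep gives Z ∈ F, u ∈ Z, v ∉ Z. o ∈ Z: X = Z.erase o. o ∉ Z: (Step 0) {Z, {o}} with R = {z, o}, z ∈ Z,
  is a certificate: cl P {Z,{o}} z = Z, twins; so hbad gives |Z| < 2 or r ≤ |Z|. |Z| = 1: Z = {u}, u ∈ L, no. So r ≤ |Z| and step_one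
  (x := v) gives a W ∈ F, o ∈ W, Z ⊆ W, v ∉ W: X = W.erase o.
 wc: X, Y ∈ A: insert o X, insert o Y meet in o, their union is insert o (X ∪ Y) ≠ insert o S; hI.wc.
-/

set_option autoImplicit false

namespace Pool.Agent.Work.MP_542d22_co

open Classical Finset

variable {V : Type}

private theorem rcore_erase {S : Finset V} {o : V} {F : Set (Finset V)} (ho : o ∉ S)
    (hI : Inst (insert o S) F) {W : Finset V} (hW : W ∈ F) (hoW : o ∈ W) {u v : V} (hu : u ∈ S)
    (hv : v ∈ S) (huW : u ∈ W) (hvW : v ∉ W) :
    ∃ X ∈ {X | X ⊆ S ∧ X.Nonempty ∧ insert o X ∈ F}, u ∈ X ∧ v ∉ X := by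
  have huo : u ≠ o := fun h => ho (h ▸ hu)
  refine ⟨W.erase o, ⟨fun x hx => ?_, ⟨u, Finset.mem_erase.2 ⟨huo, huW⟩⟩, ?_⟩,
    Finset.mem_erase.2 ⟨huo, huW⟩, fun h => hvW (Finset.mem_of_mem_erase h)⟩
  · have h1 := hI.sub W hW (Finset.mem_of_mem_erase hx)
    rcases Finset.mem_insert.1 h1 with h2 | h2
    · exact absurd h2 (Finset.ne_of_mem_erase hx)
    · exact h2
  · rw [Finset.insert_erase hoW]
    exact hW

theorem r1_core {r : ℕ} (hr : 3 ≤ r) {S : Finset V} {o : V} {F : Set (Finset V)} (ho : o ∉ S)
    (hI : Inst (insert o S) F) (hoF : {o} ∈ F) (hrS : r ≤ S.card)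
    (ih : ∀ S' : Finset V, r ≤ S'.card → S'.card < S.card → R1 r S')
    (hbad : ¬ Out1 (insert o S) F r o) :
    Core r S {X | X ⊆ S ∧ X.Nonempty ∧ insert o X ∈ F} (S.filter (fun t => {t} ∈ F)) := by
  refine ⟨hr, hrS, fun X hX => hX.1, fun X hX => hX.2.1, ?_, Finset.filter_subset _ _, ?_, ?_, ?_,
    ih⟩
  · rintro X hX rfl
    exact hI.proper _ hX.2.2 rfl
  · set L := S.filter (fun t => {t} ∈ F) with hL
    by_cases hLe : L = ∅
    · rw [hLe, Finset.card_empty]
      omega
    · have hne : L.Nonempty := Finset.nonempty_of_ne_empty hLe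
      have hoL : o ∉ L := fun h => ho (Finset.mem_of_mem_filter o h)
      have hc : (insert o L).card = L.card + 1 := Finset.card_insert_of_notMem hoL
      by_contra hcon
      apply hbad
      refine ⟨tok (insert o L), insert o L, ?_, ⟨?_, ?_⟩, ?_, ?_, Or.inl ?_⟩
      · intro Z hZ
        obtain ⟨t, ht, rfl⟩ := mem_tok.1 hZ
        rcases Finset.mem_insert.1 ht with rfl | ht
        · exact hoF
        · exact (Finset.mem_filter.1 ht).2
      · exact Finset.insert_subset_insert _ (Finset.filter_subset _ _)
      · intro u hu v hv huv p _ h1 h2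
        have e1 := eq_of_dom_tok (mem_tok.2 ⟨u, hu, rfl⟩) h1
        have e2 := eq_of_dom_tok (mem_tok.2 ⟨v, hv, rfl⟩) h2
        exact huv (e1.symm.trans e2)
      · rw [card_tok]
      · have := hne.card_pos
        omega
      · omega
  · intro u hu huL v hv huv
    obtain ⟨Z, hZ, huZ, hvZ⟩ := hI.sep u (Finset.mem_insert_of_mem hu) v
      (Finset.mem_insert_of_mem hv) huv
    by_cases hoZ : o ∈ Z
    · exact rcore_erase ho hI hZ hoZ hu hv huZ hvZ
    · have huo : u ≠ o := fun h => ho (h ▸ hu)
      have hZ1 : 2 ≤ Z.card := by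
        by_contra hcon
        have h1 : Z.card = 1 := by
          have := Finset.card_pos.2 ⟨u, huZ⟩
          omega
        obtain ⟨a, ha⟩ := Finset.card_eq_one.1 h1
        rw [ha, Finset.mem_singleton] at huZ
        apply huL
        rw [Finset.mem_filter, huZ, ← ha]
        exact ⟨huZ ▸ hu, hZ⟩
      have hZr : r ≤ Z.card := by
        by_contra hcon
        apply hbad
        have hdom : ∀ p, Dom {Z, {o}} u p ↔ p ∈ Z := by
          intro p
          constructor
          · intro h
            exact h Z (by simp) huZ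
          · intro hp W hW huW
            rw [Finset.mem_insert, Finset.mem_singleton] at hW
            rcases hW with rfl | rfl
            · exact hp
            · exact absurd (Finset.mem_singleton.1 huW) huo
        have hdomo : ∀ p, Dom {Z, {o}} o p → p = o := fun p h =>
          Finset.mem_singleton.1 (h {o} (by simp) (Finset.mem_singleton_self o))
        have hcl : cl (insert o S) {Z, {o}} u = Z := by
          ext p
          rw [mem_cl, hdom]
          exact ⟨fun h => h.2, fun h => ⟨hI.sub Z hZ h, h⟩⟩
        refine ⟨{Z, {o}}, {u, o}, ?_, ⟨?_, ?_⟩, ?_, ?_, Or.inr ⟨u, by simp, ⟨?_, ?_, ?_⟩, ?_⟩⟩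
        · intro W hW
          rw [Finset.mem_insert, Finset.mem_singleton] at hW
          rcases hW with rfl | rfl
          · exact hZ
          · exact hoF
        · intro x hx
          rw [Finset.mem_insert, Finset.mem_singleton] at hx
          rcases hx with rfl | rfl
          · exact Finset.mem_insert_of_mem hu
          · exact Finset.mem_insert_self _ _
        · intro a ha b hb hab p _ h1 h2
          rw [Finset.mem_insert, Finset.mem_singleton] at ha hb
          rcases ha with rfl | rfl
          · rcases hb with rfl | rfl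
            · exact hab rfl
            · rw [hdom] at h1
              rw [hdomo p h2] at h1
              exact hoZ h1
          · rcases hb with rfl | rfl
            · rw [hdom] at h2
              rw [hdomo p h1] at h2
              exact hoZ h2
            · exact hab rfl
        · rw [Finset.card_pair huo]
          exact Finset.card_le_two
        · rw [Finset.card_pair huo]
        · rw [hcl]
          exact hZ1
        · rw [hcl]
          omega
        · intro p _ hp
          rw [hdom] at hp
          intro W hW hpW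
          rw [Finset.mem_insert, Finset.mem_singleton] at hW
          rcases hW with rfl | rfl
          · exact huZ
          · rw [Finset.mem_singleton.1 hpW] at hp
            exact absurd hp hoZ
        · rw [hdom]
          exact hoZ
      obtain ⟨W, hW, hoW, hZW, hvW⟩ := step_one hr ho hI hoF ih hbad hZ hoZ hZr hv hvZ
      exact rcore_erase ho hI hW hoW hu hv (hZW huZ) hvW
  · intro X hX Y hY hne hun
    have h1 : (insert o X ∩ insert o Y).Nonempty :=
      ⟨o, Finset.mem_inter.2 ⟨Finset.mem_insert_self _ _, Finset.mem_insert_self _ _⟩⟩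
    have e1 : insert o X ∪ insert o Y = insert o (X ∪ Y) := by
      ext a
      simp only [Finset.mem_union, Finset.mem_insert]
      tauto
    have e2 : insert o X ∩ insert o Y = insert o (X ∩ Y) := by
      ext a
      simp only [Finset.mem_inter, Finset.mem_insert]
      tauto
    have h2 : insert o X ∪ insert o Y ≠ insert o S := by
      rw [e1]
      intro h
      apply hun
      have hoU : o ∉ X ∪ Y := fun h3 => by
        rcases Finset.mem_union.1 h3 with h4 | h4
        · exact ho (hX.1 h4)
        · exact ho (hY.1 h4)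
      rw [← Finset.erase_insert hoU, h, Finset.erase_insert ho]
    rcases hI.wc _ hX.2.2 _ hY.2.2 h1 h2 with h3 | h3
    · left
      rw [e2] at h3
      exact ⟨fun a ha => hX.1 (Finset.mem_of_mem_inter_left ha), hne, h3⟩
    · right
      rw [e1] at h3
      exact ⟨Finset.union_subset hX.1 hY.1, hX.2.1.mono Finset.subset_union_left, h3⟩

end Pool.Agent.Work.MP_542d22_co
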