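import Pool.Agent.Work.MP_542d22_co.Defs

/-!
MODULE RLift (medium).

r1_lift. CoreOut for this A, L gives Out1: Q := Qa.image (insert o) ∪ tok T ∪ {S}, R̂ := insert o R. Q ⊆ F. For u ∈ S: ¬ Dom Q u o (S ∈ Q).
 ¬ Dom Q o p for p ∈ S (nonface). For u, p ∈ S: Dom Q u p ↔ Dom (Qa ∪ tok T) u p. Hence Indep; |Q| ≤ |Qa| + |T| + 1 ≤ |R̂|; |R| ≥ |Qa| ≥ 1;
 Small S .. u → Small (insert o S) Q r u (same closure).
-/

set_option autoImplicit false

namespace Pool.Agent.Work.MP_542d22_co

open Classical Finset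

variable {V : Type}

theorem r1_lift {r : ℕ} {S : Finset V} {o : V} {F : Set (Finset V)} (ho : o ∉ S)
    (hI : Inst (insert o S) F) (hSF : S ∈ F) (hrS : r ≤ S.card) (hr : 3 ≤ r)
    (h : CoreOut r S {X | X ⊆ S ∧ X.Nonempty ∧ insert o X ∈ F} (S.filter (fun t => {t} ∈ F))) :
    Out1 (insert o S) F r o := by
  obtain ⟨Qa, T, R, hQa, hnf, hT, ⟨hRS, hR⟩, hcard, hout⟩ := h
  set Q : Finset (Finset V) := Qa.image (insert o) ∪ tok T ∪ {S} with hQ
  have hoR : o ∉ R := fun h => ho (hRS h)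
  have hQmem : ∀ Z, Z ∈ Q ↔ (∃ X ∈ Qa, insert o X = Z) ∨ Z ∈ tok T ∨ Z = S := by
    intro Z
    rw [hQ, Finset.mem_union, Finset.mem_union, Finset.mem_image, Finset.mem_singleton, or_assoc]
  have hne : ∀ u ∈ S, u ≠ o := fun u hu h => ho (h ▸ hu)
  have hdom : ∀ u ∈ S, ∀ p, Dom Q u p ↔ p ∈ S ∧ Dom (Qa ∪ tok T) u p := by
    intro u hu p
    constructor
    · intro h
      have hp : p ∈ S := h S ((hQmem S).2 (Or.inr (Or.inr rfl))) hu
      refine ⟨hp, fun Z hZ huZ => ?_⟩
      rcases Finset.mem_union.1 hZ with hZ | hZ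
      · have h1 := h (insert o Z) ((hQmem _).2 (Or.inl ⟨Z, hZ, rfl⟩)) (Finset.mem_insert_of_mem huZ)
        rcases Finset.mem_insert.1 h1 with h2 | h2
        · exact absurd h2 (hne p hp)
        · exact h2
      · exact h Z ((hQmem Z).2 (Or.inr (Or.inl hZ))) huZ
    · rintro ⟨hp, h⟩ Z hZ huZ
      rcases (hQmem Z).1 hZ with ⟨X, hX, rfl⟩ | hZ | rfl
      · rcases Finset.mem_insert.1 huZ with h1 | h1
        · exact absurd h1 (hne u hu)
        · exact Finset.mem_insert_of_mem (h X (Finset.mem_union_left _ hX) h1)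
      · exact h Z (Finset.mem_union_right _ hZ) huZ
      · exact hp
  have hdomo : ∀ p ∈ S, ¬ Dom Q o p := by
    intro p hp h
    obtain ⟨X, hX, hpX⟩ := hnf p hp
    have h1 := h (insert o X) ((hQmem _).2 (Or.inl ⟨X, hX, rfl⟩)) (Finset.mem_insert_self _ _)
    rcases Finset.mem_insert.1 h1 with h2 | h2
    · exact hne p hp h2
    · exact hpX h2
  have hRc : (insert o R).card = R.card + 1 := Finset.card_insert_of_notMem hoR
  have hQc : Q.card ≤ Qa.card + T.card + 1 := by
    calc Q.card ≤ (Qa.image (insert o) ∪ tok T).card + ({S} : Finset (Finset V)).card :=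
          Finset.card_union_le _ _
      _ ≤ ((Qa.image (insert o)).card + (tok T).card) + 1 := by
          rw [Finset.card_singleton]
          exact Nat.add_le_add_right (Finset.card_union_le _ _) 1
      _ ≤ Qa.card + T.card + 1 := by
          rw [card_tok]
          exact Nat.add_le_add_right (Nat.add_le_add_right Finset.card_image_le _) 1
  have hR1 : 1 ≤ R.card := by
    have hS : S.Nonempty := Finset.card_pos.1 (by omega)
    obtain ⟨y, hy⟩ := hS
    obtain ⟨X, hX, -⟩ := hnf y hy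
    have := Finset.card_pos.2 ⟨X, hX⟩
    omega
  refine ⟨Q, insert o R, ?_, ⟨Finset.insert_subset_insert _ hRS, ?_⟩, ?_, ?_, ?_⟩
  · intro Z hZ
    rcases (hQmem Z).1 hZ with ⟨X, hX, rfl⟩ | hZ | rfl
    · exact (hQa X hX).2.2
    · obtain ⟨t, ht, rfl⟩ := mem_tok.1 hZ
      exact (Finset.mem_filter.1 (hT ht)).2
    · exact hSF
  · intro u hu v hv huv p _ h1 h2
    rcases Finset.mem_insert.1 hu with hu | hu
    · rcases Finset.mem_insert.1 hv with hv | hv
      · exact huv (hu.trans hv.symm)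
      · rw [hu] at h1
        exact hdomo p ((hdom v (hRS hv) p).1 h2).1 h1
    · rcases Finset.mem_insert.1 hv with hv | hv
      · rw [hv] at h2
        exact hdomo p ((hdom u (hRS hu) p).1 h1).1 h2
      · obtain ⟨hp, h3⟩ := (hdom u (hRS hu) p).1 h1
        exact hR u hu v hv huv p hp h3 ((hdom v (hRS hv) p).1 h2).2
  · omega
  · omega
  · rcases hout with h1 | ⟨u, hu, h2, h3, h4⟩
    · left
      omega
    · right
      have huS := hRS hu
      have hcl : cl (insert o S) Q u = cl S (Qa ∪ tok T) u := by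
        ext p
        rw [mem_cl, mem_cl, hdom u huS]
        exact ⟨fun h => h.2, fun h => ⟨Finset.mem_insert_of_mem h.1, h⟩⟩
      refine ⟨u, Finset.mem_insert_of_mem hu, ⟨by rw [hcl]; exact h2, by rw [hcl]; exact h3, ?_⟩,
        fun h => ho ((hdom u huS o).1 h).1⟩
      intro v _ hv
      obtain ⟨hvS, hv2⟩ := (hdom u huS v).1 hv
      exact (hdom v hvS u).2 ⟨huS, h4 v hvS hv2⟩

end Pool.Agent.Work.MP_542d22_co
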