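import Pool.Agent.Work.MP_542d22_co.RCore
import Pool.Agent.Work.MP_542d22_co.RLift
import Pool.Agent.Work.MP_542d22_co.CoreMain

/-! Assembly of R1 (helper16). -/

set_option autoImplicit false

namespace Pool.Agent.Work.MP_542d22_co

open Classical Finset

variable {V : Type}

theorem r1_all {r : ℕ} (hr : 3 ≤ r) : ∀ S : Finset V, r ≤ S.card → R1 r S := by
  have key : ∀ n : ℕ, ∀ S : Finset V, S.card = n → r ≤ S.card → R1 r S := by
    intro n
    induction n using Nat.strong_induction_on with
    | _ n ih =>
      intro S hS hrS o F ho hI hSF hoF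
      by_contra hbad
      have hih : ∀ S' : Finset V, r ≤ S'.card → S'.card < S.card → R1 r S' :=
        fun S' h1 h2 => ih S'.card (by omega) S' rfl h1
      exact hbad (r1_lift ho hI hSF hrS hr (core_main (r1_core hr ho hI hoF hrS hih hbad)))
  exact fun S h => key S.card S rfl h

end Pool.Agent.Work.MP_542d22_co
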