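import Pool.Agent.Work.MP_542d22_co.Defs

/-!
MODULE StepInst (medium). Setting: F on P = insert o S, o ∉ S.
 FS F Y x := {W ∩ insert x Y | W ∈ F, x ∈ W, ¬ insert x Y ⊆ W} ∪ {Z ∈ F | Z ⊆ Y} ∪ {{x}}.

step_inst. Y ∈ F, Y ⊆ S, x ∈ S, x ∉ Y, Y maximal among the members avoiding x: ∀ Z ∈ F, Y ⊆ Z → x ∉ Z → Z = Y; r ≤ |Y|, 3 ≤ r.
 Then Inst (insert x Y) (FS F Y x) (and Y, {x} ∈ FS are clear).
 sub/ne/proper: clear (|Y| ≥ 3, x ∉ Y).
 sep: u, v ∈ Y, u ≠ v: W ∈ F, u ∈ W, v ∉ W. x ∈ W: first kind. x ∉ W, W ⊆ Y: second kind. x ∉ W, ¬ W ⊆ Y: W ∪ Y ≠ P (misses x),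
  hI.wc: W ∩ Y ∈ F second kind; or W ∪ Y ∈ F, then W ∪ Y = Y by maximality, contradiction.  u ∈ Y against x: Y.  x against u: {x}.
 wc: first-first: W, W' ∋ x, ¬ insert x Y ⊆ W ∪ W' so W ∪ W' ≠ P; hI.wc; first kind again.  first-second: Z ⊆ Y: Z ∩ W nonempty,
  ¬ insert x Y ⊆ Z ∪ W; Z ∩ W ∈ F (second kind) or Z ∪ W ∈ F (first kind).  second-second: Z ∪ Z' ⊆ Y ≠ P (x ∉ Y): second kind.
  {x} with something it meets: {x} ∩ B = {x}.
-/

set_option autoImplicit false

namespace Pool.Agent.Work.MP_542d22_co

open Classical Finset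

variable {V : Type}

/-- The family on `insert x Y`. -/
def FS (F : Set (Finset V)) (Y : Finset V) (x : V) : Set (Finset V) :=
  {Z | (∃ W ∈ F, x ∈ W ∧ ¬ insert x Y ⊆ W ∧ Z = W ∩ insert x Y) ∨ (Z ∈ F ∧ Z ⊆ Y) ∨ Z = {x}}

theorem step_inst {r : ℕ} (hr : 3 ≤ r) {S : Finset V} {o : V} {F : Set (Finset V)} (ho : o ∉ S)
    (hI : Inst (insert o S) F) {Y : Finset V} {x : V} (hY : Y ∈ F) (hYS : Y ⊆ S) (hx : x ∈ S)
    (hxY : x ∉ Y) (hmax : ∀ Z ∈ F, Y ⊆ Z → x ∉ Z → Z = Y) (hYr : r ≤ Y.card) :
    Inst (insert x Y) (FS F Y x) := by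
  have hYne : Y.Nonempty := Finset.card_pos.1 (by omega)
  have hYF : Y ∈ FS F Y x := Or.inr (Or.inl ⟨hY, Subset.rfl⟩)
  have hxF : {x} ∈ FS F Y x := Or.inr (Or.inr rfl)
  have hxP : x ∈ insert o S := Finset.mem_insert_of_mem hx
  have hYP : Y ⊆ insert o S := hYS.trans (Finset.subset_insert _ _)
  have hsing : ∀ Z : Finset V, (({x} : Finset V) ∩ Z).Nonempty →
      ({x} : Finset V) ∩ Z ∈ FS F Y x := by
    intro Z hne
    have h2 : x ∈ Z := by
      obtain ⟨y, hy⟩ := hne
      rw [Finset.mem_inter, Finset.mem_singleton] at hy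
      exact hy.1 ▸ hy.2
    rw [Finset.singleton_inter_of_mem h2]
    exact hxF
  refine ⟨?_, ?_, ?_, ?_, ?_⟩
  · rintro Z (⟨W, hW, hxW, hnW, rfl⟩ | ⟨hZ, hZY⟩ | rfl)
    · exact inter_subset_right
    · exact hZY.trans (Finset.subset_insert _ _)
    · exact Finset.singleton_subset_iff.2 (Finset.mem_insert_self _ _)
  · rintro Z (⟨W, hW, hxW, hnW, rfl⟩ | ⟨hZ, hZY⟩ | rfl)
    · exact ⟨x, Finset.mem_inter.2 ⟨hxW, Finset.mem_insert_self _ _⟩⟩
    · exact hI.ne Z hZ
    · exact Finset.singleton_nonempty _
  · rintro Z (⟨W, hW, hxW, hnW, rfl⟩ | ⟨hZ, hZY⟩ | rfl) hE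
    · exact hnW (Finset.inter_eq_right.1 hE)
    · exact hxY (hZY (hE ▸ Finset.mem_insert_self _ _))
    · obtain ⟨y, hy⟩ := hYne
      have h2 : y ∈ ({x} : Finset V) := hE ▸ Finset.mem_insert_of_mem hy
      rw [Finset.mem_singleton] at h2
      exact hxY (h2 ▸ hy)
  · intro u hu v hv huv
    by_cases hux : u = x
    · refine ⟨{x}, hxF, Finset.mem_singleton.2 hux, fun hh => ?_⟩
      exact huv (hux.trans (Finset.mem_singleton.1 hh).symm)
    · have huY : u ∈ Y := (Finset.mem_insert.1 hu).resolve_left hux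
      by_cases hvx : v = x
      · exact ⟨Y, hYF, huY, hvx ▸ hxY⟩
      · have hvY : v ∈ Y := (Finset.mem_insert.1 hv).resolve_left hvx
        obtain ⟨W, hW, huW, hvW⟩ := hI.sep u (hYP huY) v (hYP hvY) huv
        by_cases hxW : x ∈ W
        · refine ⟨W ∩ insert x Y, Or.inl ⟨W, hW, hxW, fun hh => hvW (hh hv), rfl⟩,
            Finset.mem_inter.2 ⟨huW, hu⟩, fun hh => hvW (Finset.mem_inter.1 hh).1⟩
        · by_cases hWY : W ⊆ Y
          · exact ⟨W, Or.inr (Or.inl ⟨hW, hWY⟩), huW, hvW⟩
          · have hU : W ∪ Y ≠ insert o S := by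
              intro hh
              have h3 : x ∈ W ∪ Y := hh ▸ hxP
              rcases Finset.mem_union.1 h3 with h4 | h4
              · exact hxW h4
              · exact hxY h4
            rcases hI.wc W hW Y hY ⟨u, Finset.mem_inter.2 ⟨huW, huY⟩⟩ hU with h3 | h3
            · exact ⟨W ∩ Y, Or.inr (Or.inl ⟨h3, inter_subset_right⟩),
                Finset.mem_inter.2 ⟨huW, huY⟩, fun hh => hvW (Finset.mem_inter.1 hh).1⟩
            · exfalso
              apply hWY
              have h4 : x ∉ W ∪ Y := by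
                rw [Finset.mem_union]
                rintro (h5 | h5)
                · exact hxW h5
                · exact hxY h5
              have h5 := hmax _ h3 subset_union_right h4
              exact h5 ▸ subset_union_left
  · intro X hX Z hZ hne hu
    rcases hX with ⟨W, hW, hxW, hnW, rfl⟩ | ⟨hXF, hXY⟩ | rfl
    · rcases hZ with ⟨W', hW', hxW', hnW', rfl⟩ | ⟨hZF, hZY⟩ | rfl
      · have hDU : ¬ insert x Y ⊆ W ∪ W' := by
          intro hh
          apply hu
          rw [← Finset.union_inter_distrib_right]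
          exact Finset.inter_eq_right.2 hh
        have hUP : W ∪ W' ≠ insert o S := by
          intro hh
          apply hDU
          rw [hh]
          exact Finset.insert_subset hxP hYP
        rcases hI.wc W hW W' hW' ⟨x, Finset.mem_inter.2 ⟨hxW, hxW'⟩⟩ hUP with h3 | h3
        · left
          refine Or.inl ⟨W ∩ W', h3, Finset.mem_inter.2 ⟨hxW, hxW'⟩,
            fun hh => hnW (hh.trans inter_subset_left), ?_⟩
          ext y
          simp only [Finset.mem_inter]
          tauto
        · right
          refine Or.inl ⟨W ∪ W', h3, Finset.mem_union_left _ hxW, hDU, ?_⟩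
          rw [Finset.union_inter_distrib_right]
      · have hDU : ¬ insert x Y ⊆ W ∪ Z := by
          intro hh
          apply hu
          ext y
          simp only [Finset.mem_union, Finset.mem_inter]
          constructor
          · rintro (h3 | h3)
            · exact h3.2
            · exact Finset.mem_insert_of_mem (hZY h3)
          · intro h3
            rcases Finset.mem_union.1 (hh h3) with h4 | h4
            · exact Or.inl ⟨h4, h3⟩
            · exact Or.inr h4
        have hUP : W ∪ Z ≠ insert o S := by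
          intro hh
          apply hDU
          rw [hh]
          exact Finset.insert_subset hxP hYP
        have hne2 : (W ∩ Z).Nonempty := by
          obtain ⟨y, hy⟩ := hne
          rw [Finset.mem_inter, Finset.mem_inter] at hy
          exact ⟨y, Finset.mem_inter.2 ⟨hy.1.1, hy.2⟩⟩
        rcases hI.wc W hW Z hZF hne2 hUP with h3 | h3
        · left
          have h4 : W ∩ insert x Y ∩ Z = W ∩ Z := by
            ext y
            simp only [Finset.mem_inter]
            constructor
            · rintro ⟨⟨h5, _⟩, h6⟩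
              exact ⟨h5, h6⟩
            · rintro ⟨h5, h6⟩
              exact ⟨⟨h5, Finset.mem_insert_of_mem (hZY h6)⟩, h6⟩
          rw [h4]
          exact Or.inr (Or.inl ⟨h3, inter_subset_right.trans hZY⟩)
        · right
          refine Or.inl ⟨W ∪ Z, h3, Finset.mem_union_left _ hxW, hDU, ?_⟩
          ext y
          simp only [Finset.mem_inter, Finset.mem_union]
          constructor
          · rintro (⟨h5, h6⟩ | h6)
            · exact ⟨Or.inl h5, h6⟩
            · exact ⟨Or.inr h6, Finset.mem_insert_of_mem (hZY h6)⟩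
          · rintro ⟨h5 | h5, h6⟩
            · exact Or.inl ⟨h5, h6⟩
            · exact Or.inr h5
      · left
        rw [Finset.inter_comm] at hne ⊢
        exact hsing _ hne
    · rcases hZ with ⟨W, hW, hxW, hnW, rfl⟩ | ⟨hZF, hZY⟩ | rfl
      · have hDU : ¬ insert x Y ⊆ X ∪ W := by
          intro hh
          apply hu
          ext y
          simp only [Finset.mem_union, Finset.mem_inter]
          constructor
          · rintro (h3 | h3)
            · exact Finset.mem_insert_of_mem (hXY h3)
            · exact h3.2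
          · intro h3
            rcases Finset.mem_union.1 (hh h3) with h4 | h4
            · exact Or.inl h4
            · exact Or.inr ⟨h4, h3⟩
        have hUP : X ∪ W ≠ insert o S := by
          intro hh
          apply hDU
          rw [hh]
          exact Finset.insert_subset hxP hYP
        have hne2 : (X ∩ W).Nonempty := by
          obtain ⟨y, hy⟩ := hne
          rw [Finset.mem_inter, Finset.mem_inter] at hy
          exact ⟨y, Finset.mem_inter.2 ⟨hy.1, hy.2.1⟩⟩
        rcases hI.wc X hXF W hW hne2 hUP with h3 | h3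
        · left
          have h4 : X ∩ (W ∩ insert x Y) = X ∩ W := by
            ext y
            simp only [Finset.mem_inter]
            constructor
            · rintro ⟨h5, h6, _⟩
              exact ⟨h5, h6⟩
            · rintro ⟨h5, h6⟩
              exact ⟨h5, h6, Finset.mem_insert_of_mem (hXY h5)⟩
          rw [h4]
          exact Or.inr (Or.inl ⟨h3, inter_subset_left.trans hXY⟩)
        · right
          refine Or.inl ⟨X ∪ W, h3, Finset.mem_union_right _ hxW, hDU, ?_⟩
          ext y
          simp only [Finset.mem_inter, Finset.mem_union]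
          constructor
          · rintro (h6 | ⟨h5, h6⟩)
            · exact ⟨Or.inl h6, Finset.mem_insert_of_mem (hXY h6)⟩
            · exact ⟨Or.inr h5, h6⟩
          · rintro ⟨h5 | h5, h6⟩
            · exact Or.inl h5
            · exact Or.inr ⟨h5, h6⟩
      · have hUY : X ∪ Z ⊆ Y := Finset.union_subset hXY hZY
        have hUP : X ∪ Z ≠ insert o S := by
          intro hh
          exact hxY (hUY (hh ▸ hxP))
        rcases hI.wc X hXF Z hZF hne hUP with h3 | h3
        · exact Or.inl (Or.inr (Or.inl ⟨h3, inter_subset_left.trans hXY⟩))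
        · exact Or.inr (Or.inr (Or.inl ⟨h3, hUY⟩))
      · left
        rw [Finset.inter_comm] at hne ⊢
        exact hsing _ hne
    · left
      exact hsing _ hne

end Pool.Agent.Work.MP_542d22_co
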