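import Pool.Agent.Work.MP_542d22_co.Lift
import Pool.Agent.Work.MP_542d22_co.StepInst

/-!
MODULE StepOne (large). (FS, step_inst: see StepInst.lean; Lift.lean for the lifting lemmas.)

step_one. If Out1 fails on P (hbad), R1 holds for smaller sets (ih), Y ∈ F, o ∉ Y, r ≤ |Y|, x ∈ S, x ∉ Y then some Z ∈ F has
 o ∈ Z, Y ⊆ Z, x ∉ Z.
Proof. Suppose not. Choose Y' ∈ F, Y ⊆ Y', x ∉ Y' of maximal card; o ∉ Y' so Y' ⊆ S, r ≤ |Y'| < |S|; Y' is maximal among the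
members avoiding x. ih Y' on FS F Y' x gives Q', R' on insert x Y'.
 Lift: for Z' ∈ Q': {o} if Z' = {x}; if x ∈ Z', Z' ≠ {x}: a W ∈ F with x ∈ W, Z' = W ∩ insert x Y'; if x ∉ Z': Z' itself (∈ F, ⊆ Y').
 Q := image of the lift, |Q| ≤ |Q'|.  w := o if {x} ∈ Q', else x.  lift_indep with P = insert o S, D = Y':
 (a) clear (members of Q' containing u ∈ Y' are not {x}).  (b) u ∈ Y', p ∉ Y', Dom Q u p: a Z' ∋ u with x ∉ Z' is itself in Q and
 ⊆ Y': impossible; so Dom Q' u x.  (c) if {x} ∈ Q': w = o, {o} ∈ Q so Dom Q o p gives p = o ∉ Y'. Otherwise w = x, clear.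
 (d) converse of (a): clear.  Out1 for P: r ≤ |R| = |R'|, or small u ∈ R', ¬ Dom Q' u x: u ≠ x, u ∈ Y': lift_small, and
 ¬ Dom Q u o by (b) with p = o.  Contradiction with hbad.
-/

set_option autoImplicit false

namespace Pool.Agent.Work.MP_542d22_co

open Classical Finset

variable {V : Type}

theorem step_one {r : ℕ} (hr : 3 ≤ r) {S : Finset V} {o : V} {F : Set (Finset V)} (ho : o ∉ S)
    (hI : Inst (insert o S) F) (hoF : {o} ∈ F)
    (ih : ∀ S' : Finset V, r ≤ S'.card → S'.card < S.card → R1 r S')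
    (hbad : ¬ Out1 (insert o S) F r o) {Y : Finset V} {x : V} (hY : Y ∈ F) (hoY : o ∉ Y)
    (hYr : r ≤ Y.card) (hx : x ∈ S) (hxY : x ∉ Y) : ∃ Z ∈ F, o ∈ Z ∧ Y ⊆ Z ∧ x ∉ Z := by
  by_contra hno
  push Not at hno
  have hsubS : ∀ Z ∈ F, o ∉ Z → Z ⊆ S := by
    intro Z hZ hoZ p hp
    have := hI.sub Z hZ hp
    rw [Finset.mem_insert] at this
    rcases this with rfl | h
    · exact absurd hp hoZ
    · exact h
  obtain ⟨Y', hY'm, hY'max⟩ := Finset.exists_max_image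
    (S.powerset.filter (fun Z => Z ∈ F ∧ Y ⊆ Z ∧ x ∉ Z)) Finset.card
    ⟨Y, by
      rw [Finset.mem_filter, Finset.mem_powerset]
      exact ⟨hsubS Y hY hoY, hY, subset_rfl, hxY⟩⟩
  rw [Finset.mem_filter, Finset.mem_powerset] at hY'm
  obtain ⟨hY'S, hY'F, hYY', hxY'⟩ := hY'm
  have hmax : ∀ Z ∈ F, Y' ⊆ Z → x ∉ Z → Z = Y' := by
    intro Z hZ hYZ hxZ
    have hoZ : o ∉ Z := fun h => hxZ (hno Z hZ h (hYY'.trans hYZ))
    have h1 := hY'max Z (by
      rw [Finset.mem_filter, Finset.mem_powerset]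
      exact ⟨hsubS Z hZ hoZ, hZ, hYY'.trans hYZ, hxZ⟩)
    exact (Finset.eq_of_subset_of_card_le hYZ h1).symm
  have hrY' : r ≤ Y'.card := hYr.trans (Finset.card_le_card hYY')
  have hlt : Y'.card < S.card :=
    Finset.card_lt_card ⟨hY'S, fun h => hxY' (h hx)⟩
  have hxo : x ≠ o := fun h => ho (h ▸ hx)
  have hoY' : o ∉ Y' := fun h => ho (hY'S h)
  obtain ⟨Q', R', hQ', hR', hcard, h2, hout⟩ := ih Y' hrY' hlt x (FS F Y' x) hxY'
    (step_inst hr ho hI hY'F hY'S hx hxY' hmax hrY') (Or.inr (Or.inl ⟨hY'F, subset_rfl⟩))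
    (Or.inr (Or.inr rfl))
  -- the lift
  have hl : ∀ Z' : Finset V, ∃ W : Finset V, Z' ∈ Q' → W ∈ F ∧ (Z' = {x} → W = {o}) ∧
      (x ∈ Z' → Z' ≠ {x} → x ∈ W ∧ Z' = W ∩ insert x Y') ∧ (x ∉ Z' → W = Z' ∧ Z' ⊆ Y') := by
    intro Z'
    by_cases hZ' : Z' ∈ Q'
    · by_cases h1 : Z' = {x}
      · refine ⟨{o}, fun _ => ⟨hoF, fun _ => rfl, fun _ h => absurd h1 h, fun h => ?_⟩⟩
        exact absurd (by rw [h1]; simp) h
      · rcases hQ' Z' hZ' with ⟨W, hW, hxW, -, hZW⟩ | ⟨hZF, hZY⟩ | h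
        · refine ⟨W, fun _ => ⟨hW, fun h => absurd h h1, fun _ _ => ⟨hxW, hZW⟩, fun h => ?_⟩⟩
          exact absurd (by rw [hZW]; simp [hxW]) h
        · exact ⟨Z', fun _ => ⟨hZF, fun h => absurd h h1, fun h => absurd (hZY h) hxY',
            fun _ => ⟨rfl, hZY⟩⟩⟩
        · exact absurd h h1
    · exact ⟨∅, fun h => absurd h hZ'⟩
  choose l hl using hl
  have hlF : ∀ Z' ∈ Q', l Z' ∈ F := fun Z' h => (hl Z' h).1
  -- membership of the points of `Y'` in the lift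
  have hmem : ∀ Z' ∈ Q', ∀ p ∈ Y', p ∈ l Z' ↔ p ∈ Z' := by
    intro Z' hZ' p hp
    obtain ⟨-, h1, h3, h4⟩ := hl Z' hZ'
    have hpx : p ≠ x := fun h => hxY' (h ▸ hp)
    have hpo : p ≠ o := fun h => hoY' (h ▸ hp)
    by_cases hx1 : x ∈ Z'
    · by_cases hx2 : Z' = {x}
      · rw [h1 hx2, hx2]
        simp [hpx, hpo]
      · obtain ⟨-, h5⟩ := h3 hx1 hx2
        conv_rhs => rw [h5]
        simp [hp]
    · rw [(h4 hx1).1]
  have ha : ∀ u ∈ Y', ∀ p ∈ Y', Dom (Q'.image l) u p → Dom Q' u p := by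
    intro u hu p hp hd Z' hZ' huZ
    exact (hmem Z' hZ' p hp).1 (hd _ (Finset.mem_image_of_mem l hZ') ((hmem Z' hZ' u hu).2 huZ))
  have hb : ∀ u ∈ Y', ∀ p ∈ insert o S, p ∉ Y' → Dom (Q'.image l) u p → Dom Q' u x := by
    intro u hu p _ hp hd Z' hZ' huZ
    by_contra hxZ
    obtain ⟨-, -, -, h4⟩ := hl Z' hZ'
    have h5 := hd _ (Finset.mem_image_of_mem l hZ') ((hmem Z' hZ' u hu).2 huZ)
    rw [(h4 hxZ).1] at h5
    exact hp ((h4 hxZ).2 h5)
  have hd' : ∀ u ∈ Y', ∀ p ∈ Y', Dom Q' u p → Dom (Q'.image l) u p := by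
    intro u hu p hp hd Z hZ huZ
    obtain ⟨Z', hZ', rfl⟩ := Finset.mem_image.1 hZ
    exact (hmem Z' hZ' p hp).2 (hd Z' hZ' ((hmem Z' hZ' u hu).1 huZ))
  have hQF : ∀ Z ∈ Q'.image l, Z ∈ F := by
    intro Z hZ
    obtain ⟨Z', hZ', rfl⟩ := Finset.mem_image.1 hZ
    exact hlF Z' hZ'
  have hDP : Y' ⊆ insert o S := hY'S.trans (Finset.subset_insert _ _)
  -- the representative of the cell of `x`
  have hw : ∃ w ∈ insert o S, w ∉ Y' ∧ ∀ p ∈ Y', Dom (Q'.image l) w p → Dom Q' x p := by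
    by_cases hxQ : {x} ∈ Q'
    · refine ⟨o, by simp, hoY', fun p hp hd => ?_⟩
      have h1 : {o} ∈ Q'.image l := by
        have := Finset.mem_image_of_mem l hxQ
        rwa [(hl _ hxQ).2.1 rfl] at this
      have h3 := eq_of_dom_tok h1 hd
      exact absurd hp (h3 ▸ hoY')
    · refine ⟨x, by simp [hx], hxY', fun p hp hd Z' hZ' hxZ => ?_⟩
      have hne : Z' ≠ {x} := fun h => hxQ (h ▸ hZ')
      obtain ⟨h5, -⟩ := (hl Z' hZ').2.2.1 hxZ hne
      exact (hmem Z' hZ' p hp).1 (hd _ (Finset.mem_image_of_mem l hZ') h5)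
  obtain ⟨w, hwP, hwY, hc⟩ := hw
  obtain ⟨R, hR, hRc, hRR⟩ := lift_indep hDP hxY' hwP hwY ha hb hc hR'
  refine hbad ⟨Q'.image l, R, hQF, hR, ?_, ?_, ?_⟩
  · rw [hRc]
    exact Finset.card_image_le.trans hcard
  · rw [hRc]
    exact h2
  · rcases hout with h | ⟨u, hu, hs, hux⟩
    · left
      rw [hRc]
      exact h
    · right
      have hux' : u ≠ x := fun h => hux (h ▸ Dom.refl _ _)
      have huY : u ∈ Y' := by
        have := hR'.1 hu
        rw [Finset.mem_insert] at this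
        exact this.resolve_left hux'
      exact ⟨u, hRR u hu hux', lift_small hDP hxY' huY ha hb hd' hux hs,
        fun h => hux (hb u huY o (by simp) hoY' h)⟩

end Pool.Agent.Work.MP_542d22_co
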